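import Pool.Agent.Q272.PSZ.Sums

/-! The final estimate for the dyadic sums. -/

namespace Q272.PSZ

open Finset

/-- The ratio. -/
noncomputable def rho (N : ℕ) : ℝ := (2:ℝ) ^ (-(1 / ((N:ℝ) + 1)))

theorem rho_pos (N : ℕ) : 0 < rho N := Real.rpow_pos_of_pos (by norm_num) _

theorem rho_lt_one (N : ℕ) : rho N < 1 := by
  unfold rho
  apply Real.rpow_lt_one_of_one_lt_of_neg (by norm_num)
  have : (0:ℝ) < 1 / ((N:ℝ) + 1) := by positivity
  linarith

theorem rho_pow (N j : ℕ) : rho N ^ j = (2:ℝ) ^ (-((j:ℝ) / ((N:ℝ) + 1))) := by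
  unfold rho
  rw [← Real.rpow_natCast, ← Real.rpow_mul (by norm_num)]
  congr 1
  ring

theorem geom_inj_sum (N : ℕ) (Y : Finset ℕ) (j : ℕ → ℕ) (hj : Set.InjOn j Y) :
    ∑ y ∈ Y, rho N ^ j y ≤ (1 - rho N)⁻¹ := by
  classical
  have h1 : ∑ y ∈ Y, rho N ^ j y = ∑ n ∈ Y.image j, rho N ^ n := by
    rw [Finset.sum_image hj]
  rw [h1, ← tsum_geometric_of_lt_one (rho_pos N).le (rho_lt_one N)]
  exact (summable_geometric_of_lt_one (rho_pos N).le (rho_lt_one N)).sum_le_tsum _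
    fun n _ => pow_nonneg (rho_pos N).le n

/-- The weight. -/
noncomputable def wt (N : ℕ) (d K : ℝ) (y : ℕ) : ℝ :=
  min d (K * 2 ^ y) * (K * 2 ^ y) ^ (-(1 / ((N:ℝ) + 1)))

theorem wt_nonneg {N : ℕ} {d K : ℝ} (hd : 0 ≤ d) (hK : 0 < K) (y : ℕ) : 0 ≤ wt N d K y := by
  unfold wt
  positivity

theorem wt_sum {N : ℕ} (hN : 1 ≤ N) {d K : ℝ} (hd : 0 < d) (hK : 0 < K) (Y : Finset ℕ) :
    ∑ y ∈ Y, wt N d K y ≤ 2 * (1 - rho N)⁻¹ * d ^ ((N:ℝ) / (N + 1)) := by
  classical
  set u : ℝ := 1 / ((N:ℝ) + 1) with hu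
  set v : ℝ := (N:ℝ) / (N + 1) with hv
  have hN0 : (0:ℝ) < (N:ℝ) + 1 := by positivity
  have hN1 : (1:ℝ) ≤ N := by exact_mod_cast hN
  have hu0 : 0 < u := by positivity
  have huv : v = 1 - u := by rw [hu, hv]; field_simp; ring
  have hvu : u ≤ v := by
    rw [hu, hv]
    exact div_le_div_of_nonneg_right hN1 hN0.le
  set z : ℕ → ℝ := fun y => K * 2 ^ y with hz
  have hz0 : ∀ y, 0 < z y := fun y => by simp only [hz]; positivity
  have hex : ∃ y, d < z y := by
    obtain ⟨n, hn⟩ := pow_unbounded_of_one_lt (d / K) (one_lt_two : (1:ℝ) < 2)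
    refine ⟨n, ?_⟩
    rw [div_lt_iff₀ hK] at hn
    simp only [hz]
    linarith
  set ys := Nat.find hex with hys
  have hyspec : d < z ys := Nat.find_spec hex
  have hybef : ∀ y < ys, z y ≤ d := fun y hy => not_lt.1 (Nat.find_min hex hy)
  have hge : ∀ y ∈ Y.filter (fun y => ys ≤ y), wt N d K y ≤ d ^ v * rho N ^ (y - ys) := by
    intro y hy
    have hy' := (mem_filter.1 hy).2
    have h1 : z y = z ys * 2 ^ (y - ys) := by
      simp only [hz]
      rw [mul_assoc, ← pow_add]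
      congr 2
      omega
    have h2 : (z y) ^ (-u) = (z ys) ^ (-u) * rho N ^ (y - ys) := by
      rw [h1, Real.mul_rpow (hz0 ys).le (by positivity), rho_pow]
      congr 1
      rw [← Real.rpow_natCast, ← Real.rpow_mul (by norm_num)]
      congr 1
      rw [hu]; ring
    have h3 : (z ys) ^ (-u) ≤ d ^ (-u) :=
      Real.rpow_le_rpow_of_nonpos hd hyspec.le (by linarith)
    calc wt N d K y = min d (z y) * (z y) ^ (-u) := rfl
      _ ≤ d * (z y) ^ (-u) := mul_le_mul_of_nonneg_right (min_le_left _ _)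
          (Real.rpow_nonneg (hz0 y).le _)
      _ = d * ((z ys) ^ (-u) * rho N ^ (y - ys)) := by rw [h2]
      _ ≤ d * (d ^ (-u) * rho N ^ (y - ys)) := by
          apply mul_le_mul_of_nonneg_left _ hd.le
          exact mul_le_mul_of_nonneg_right h3 (pow_nonneg (rho_pos N).le _)
      _ = d ^ v * rho N ^ (y - ys) := by
          rw [← mul_assoc, huv, Real.rpow_sub hd, Real.rpow_one, Real.rpow_neg hd.le]
          rfl
  have hlt : ∀ y ∈ Y.filter (fun y => ¬ ys ≤ y), wt N d K y ≤ d ^ v * rho N ^ (ys - 1 - y) := by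
    intro y hy
    have hy' := (mem_filter.1 hy).2
    rw [not_le] at hy'
    have h1 : z (ys - 1) = z y * 2 ^ (ys - 1 - y) := by
      simp only [hz]
      rw [mul_assoc, ← pow_add]
      congr 2
      omega
    have h2 : z (ys - 1) ≤ d := hybef _ (by omega)
    have h3 : z y ≤ d * (2:ℝ) ^ (-((ys - 1 - y : ℕ) : ℝ)) := by
      rw [Real.rpow_neg (by norm_num), Real.rpow_natCast, ← div_eq_mul_inv,
        le_div_iff₀ (by positivity), ← h1]
      exact h2
    calc wt N d K y = min d (z y) * (z y) ^ (-u) := rfl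
      _ ≤ z y * (z y) ^ (-u) := mul_le_mul_of_nonneg_right (min_le_right _ _)
          (Real.rpow_nonneg (hz0 y).le _)
      _ = (z y) ^ v := by
          rw [huv, Real.rpow_sub (hz0 y), Real.rpow_one, Real.rpow_neg (hz0 y).le]
          rfl
      _ ≤ (d * (2:ℝ) ^ (-((ys - 1 - y : ℕ) : ℝ))) ^ v :=
          Real.rpow_le_rpow (hz0 y).le h3 (by linarith)
      _ = d ^ v * (2:ℝ) ^ (-((ys - 1 - y : ℕ) : ℝ) * v) := by
          rw [Real.mul_rpow hd.le (by positivity), ← Real.rpow_mul (by norm_num)]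
      _ ≤ d ^ v * rho N ^ (ys - 1 - y) := by
          apply mul_le_mul_of_nonneg_left _ (by positivity)
          rw [rho_pow]
          apply Real.rpow_le_rpow_of_exponent_le (by norm_num)
          have h4 : (0:ℝ) ≤ ((ys - 1 - y : ℕ) : ℝ) := Nat.cast_nonneg _
          have h5 : ((ys - 1 - y : ℕ) : ℝ) / ((N:ℝ) + 1) = ((ys - 1 - y : ℕ) : ℝ) * u := by
            rw [hu]; ring
          rw [h5]
          nlinarith
  rw [← Finset.sum_filter_add_sum_filter_not Y (fun y => ys ≤ y)]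
  have hs1 := Finset.sum_le_sum hge
  have hs2 := Finset.sum_le_sum hlt
  rw [← Finset.mul_sum] at hs1 hs2
  have hg1 := geom_inj_sum N (Y.filter fun y => ys ≤ y) (fun y => y - ys) (by
    intro a ha b hb hab
    have h1 := (mem_filter.1 (mem_coe.1 ha)).2
    have h2 := (mem_filter.1 (mem_coe.1 hb)).2
    simp only at hab
    omega)
  have hg2 := geom_inj_sum N (Y.filter fun y => ¬ ys ≤ y) (fun y => ys - 1 - y) (by
    intro a ha b hb hab
    have h1 := (mem_filter.1 (mem_coe.1 ha)).2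
    have h2 := (mem_filter.1 (mem_coe.1 hb)).2
    simp only at hab
    omega)
  have hdv : 0 ≤ d ^ v := Real.rpow_nonneg hd.le _
  have h5 := mul_le_mul_of_nonneg_left hg1 hdv
  have h6 := mul_le_mul_of_nonneg_left hg2 hdv
  linarith

/-- The contribution of a fixed pattern. -/
theorem est {N : ℕ} (hN : 1 ≤ N) {K : ℝ} (hK : 1 ≤ K) : ∃ C : ℝ, 0 ≤ C ∧
    ∀ (k : ℕ) (D S : Finset ℕ), Disjoint D S → D ∪ S = range N → D.card = k →
      ∀ (d : ℝ), 0 ≤ d → ∀ (s₀ : ℕ) (𝒜 : Finset (ℕ → ℕ)), (∀ α ∈ 𝒜, Adm N s₀ α) →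
      ∑ α ∈ 𝒜, (K ^ D.card * 2 ^ (∑ i ∈ D, ex N α i)) *
        min d (K ^ S.card * 2 ^ (∑ i ∈ S, ex N α i)) ≤
        C * d ^ ((N:ℝ) / (N + 1)) * 2 ^ ((k + 1) * s₀) := by
  classical
  obtain ⟨R, hR⟩ := exists_R N (rho_pos N).le (rho_lt_one N)
  have hR0 : 0 ≤ R := by simpa using hR ∅
  have hρ1 : 0 < 1 - rho N := by have := rho_lt_one N; linarith
  have hKN : (0:ℝ) ≤ K ^ N := by positivity
  refine ⟨K ^ N * (2 * R * (1 + 2 * (1 - rho N)⁻¹)), by positivity, ?_⟩
  intro k D S hDS hU hk d hd s₀ 𝒜 h𝒜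
  set u : ℝ := 1 / ((N:ℝ) + 1) with hu
  set v : ℝ := (N:ℝ) / (N + 1) with hv
  have hN0 : (0:ℝ) < (N:ℝ) + 1 := by positivity
  have hN1 : (1:ℝ) ≤ N := by exact_mod_cast hN
  have hu0 : 0 < u := by positivity
  have hu1 : u ≤ 1 := by
    rw [hu, div_le_one hN0]; linarith
  have hv0 : 0 < v := by positivity
  have huv : v + u = 1 := by rw [hu, hv]; field_simp
  have hcards : D.card + S.card = N := by
    rw [← card_union_of_disjoint hDS, hU, card_range]
  -- the case `d = 0`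
  rcases hd.eq_or_lt with h0 | hdpos
  · have h1 : ∑ α ∈ 𝒜, (K ^ D.card * 2 ^ (∑ i ∈ D, ex N α i)) *
        min d (K ^ S.card * 2 ^ (∑ i ∈ S, ex N α i)) = 0 := by
      apply Finset.sum_eq_zero
      intro α _
      have h2 : min d (K ^ S.card * 2 ^ (∑ i ∈ S, ex N α i)) = 0 := by
        rw [← h0]
        apply min_eq_left
        positivity
      rw [h2, mul_zero]
    rw [h1]
    positivity
  -- pointwise bound
  have hpt : ∀ α ∈ 𝒜, ∀ G : ℕ, (G : ℤ) ≤ (N + 1) * ∑ i ∈ D, ∑ j ∈ range N, TT α i j +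
      ∑ s ∈ S, ∑ j ∈ S, TT α s j →
      (K ^ D.card * 2 ^ (∑ i ∈ D, ex N α i)) * (K ^ S.card * 2 ^ (∑ i ∈ S, ex N α i)) ^ u ≤
      K ^ N * (2 ^ ((k + 1) * ∑ i ∈ range N, α i) * rho N ^ G) := by
    intro α hα G hG
    have h1 := main_ineq (h𝒜 α hα).mono hDS hU hk hG
    have h2 : ((N:ℝ) + 1) * (∑ i ∈ D, ex N α i : ℕ) + (∑ i ∈ S, ex N α i : ℕ) + G ≤
        ((N:ℝ) + 1) * ((k + 1) * (∑ i ∈ range N, α i : ℕ)) := by
      have h3 : (((N : ℤ) + 1) * ∑ i ∈ D, (ex N α i : ℤ) + ∑ s ∈ S, (ex N α s : ℤ) + G : ℤ) ≤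
        ((N : ℤ) + 1) * ((k + 1) * ∑ i ∈ range N, (α i : ℤ)) := h1
      have h4 : ((((N : ℤ) + 1) * ∑ i ∈ D, (ex N α i : ℤ) + ∑ s ∈ S, (ex N α s : ℤ) + G : ℤ) : ℝ) ≤
        ((((N : ℤ) + 1) * ((k + 1) * ∑ i ∈ range N, (α i : ℤ)) : ℤ) : ℝ) := by exact_mod_cast h3
      push_cast at h4 ⊢
      exact h4
    set ED := ∑ i ∈ D, ex N α i with hED
    set ES := ∑ i ∈ S, ex N α i with hES
    set Sg := ∑ i ∈ range N, α i with hSg
    have hKS : (1:ℝ) ≤ K ^ S.card := one_le_pow₀ hK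
    have h3 : (K ^ S.card * (2:ℝ) ^ ES) ^ u ≤ K ^ S.card * (2:ℝ) ^ ((ES:ℝ) * u) := by
      rw [Real.mul_rpow (by positivity) (by positivity), ← Real.rpow_natCast 2 ES,
        ← Real.rpow_mul (by norm_num)]
      apply mul_le_mul_of_nonneg_right _ (by positivity)
      calc (K ^ S.card) ^ u ≤ (K ^ S.card) ^ (1:ℝ) := Real.rpow_le_rpow_of_exponent_le hKS hu1
        _ = K ^ S.card := Real.rpow_one _
    have h4 : (2:ℝ) ^ ED * (2:ℝ) ^ ((ES:ℝ) * u) ≤ 2 ^ ((k + 1) * Sg) * rho N ^ G := by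
      rw [rho_pow, ← Real.rpow_natCast 2 ED, ← Real.rpow_natCast 2 ((k + 1) * Sg),
        ← Real.rpow_add (by norm_num), ← Real.rpow_add (by norm_num)]
      apply Real.rpow_le_rpow_of_exponent_le (by norm_num)
      rw [hu]
      have h5 : (ED:ℝ) + ES * (1 / ((N:ℝ) + 1)) + G / ((N:ℝ) + 1) ≤ (k + 1) * Sg := by
        have h6 : (ED:ℝ) + ES * (1 / ((N:ℝ) + 1)) + G / ((N:ℝ) + 1) =
            (((N:ℝ) + 1) * ED + ES + G) / ((N:ℝ) + 1) := by field_simp
        rw [h6, div_le_iff₀ hN0]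
        linarith
      push_cast
      linarith
    calc (K ^ D.card * 2 ^ ED) * (K ^ S.card * 2 ^ ES) ^ u
        ≤ (K ^ D.card * 2 ^ ED) * (K ^ S.card * (2:ℝ) ^ ((ES:ℝ) * u)) :=
          mul_le_mul_of_nonneg_left h3 (by positivity)
      _ = K ^ N * ((2:ℝ) ^ ED * (2:ℝ) ^ ((ES:ℝ) * u)) := by rw [← hcards, pow_add]; ring
      _ ≤ _ := mul_le_mul_of_nonneg_left h4 hKN
  by_cases hcase : 0 ∈ D ∨ (0 ∈ S ∧ N - 1 ∈ S) ∨ ∃ i ∈ D, ∃ s ∈ S, i < s
  · -- good case
    have hterm : ∀ α ∈ 𝒜, (K ^ D.card * 2 ^ (∑ i ∈ D, ex N α i)) *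
        min d (K ^ S.card * 2 ^ (∑ i ∈ S, ex N α i)) ≤ (K ^ N * d ^ v) *
        ((2:ℝ) ^ ((k + 1) * ∑ i ∈ range N, α i) * rho N ^ (α (N - 1) - α 0) *
          (if (fun _ : ℕ → ℕ => (0:ℕ)) α = 0 then (1:ℝ) else 0)) := by
      intro α hα
      have h1 := hpt α hα (α (N - 1) - α 0) (by
        have h2 := gap_good (h𝒜 α hα).mono hU (by omega) hcase
        have h3 := (h𝒜 α hα).mono 0 (N - 1) (by omega) (by omega)
        push_cast [Nat.cast_sub h3]
        exact h2)
      rw [if_pos rfl, mul_one]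
      set z := K ^ S.card * (2:ℝ) ^ (∑ i ∈ S, ex N α i) with hz
      have hz0 : 0 < z := by positivity
      have hmin : min d z ≤ d ^ v * z ^ u := by
        have hm0 : 0 < min d z := lt_min hdpos hz0
        calc min d z = (min d z) ^ (v + u) := by rw [huv, Real.rpow_one]
          _ = (min d z) ^ v * (min d z) ^ u := Real.rpow_add hm0 _ _
          _ ≤ d ^ v * z ^ u := mul_le_mul
              (Real.rpow_le_rpow hm0.le (min_le_left _ _) hv0.le)
              (Real.rpow_le_rpow hm0.le (min_le_right _ _) hu0.le) (by positivity) (by positivity)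
      calc (K ^ D.card * 2 ^ (∑ i ∈ D, ex N α i)) * min d z
          ≤ (K ^ D.card * 2 ^ (∑ i ∈ D, ex N α i)) * (d ^ v * z ^ u) :=
            mul_le_mul_of_nonneg_left hmin (by positivity)
        _ = d ^ v * ((K ^ D.card * 2 ^ (∑ i ∈ D, ex N α i)) * z ^ u) := by ring
        _ ≤ d ^ v * (K ^ N * (2 ^ ((k + 1) * ∑ i ∈ range N, α i) *
              rho N ^ (α (N - 1) - α 0))) :=
            mul_le_mul_of_nonneg_left h1 (by positivity)
        _ = _ := by ring
    refine (Finset.sum_le_sum hterm).trans ?_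
    rw [← Finset.mul_sum]
    have hsf := sum_fiber 𝒜 (fun α => ∑ i ∈ range N, α i) (fun α => α (N - 1) - α 0)
      (fun _ => 0) (fun n => if n = 0 then (1:ℝ) else 0) (fun n => by split_ifs <;> norm_num)
      (W := 1) (fun Y => by
        rw [Finset.sum_ite_eq' Y 0]
        split_ifs <;> norm_num) (rho_pos N).le hR
      (fun a b c => fiber_good (by omega) 𝒜 h𝒜 a b c) (s₀ := s₀) (τ := k + 1) (by omega)
      (fun α hα => (h𝒜 α hα).sum)
    have hdv : 0 ≤ d ^ v := by positivity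
    calc K ^ N * d ^ v * ∑ α ∈ 𝒜, ((2:ℝ) ^ ((k + 1) * ∑ i ∈ range N, α i) *
          rho N ^ (α (N - 1) - α 0) * (if (fun _ : ℕ → ℕ => (0:ℕ)) α = 0 then (1:ℝ) else 0))
        ≤ K ^ N * d ^ v * (2 * (2:ℝ) ^ ((k + 1) * s₀) * R * 1) :=
          mul_le_mul_of_nonneg_left hsf (by positivity)
      _ ≤ K ^ N * d ^ v * (2 * (2:ℝ) ^ ((k + 1) * s₀) * R * (1 + 2 * (1 - rho N)⁻¹)) := by
          apply mul_le_mul_of_nonneg_left _ (by positivity)
          apply mul_le_mul_of_nonneg_left _ (by positivity)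
          have : 0 < (1 - rho N)⁻¹ := inv_pos.2 hρ1
          linarith
      _ = _ := by ring
  · -- bad case: linear components
    push Not at hcase
    obtain ⟨h0D, h0N, hsep⟩ := hcase
    have h0S : 0 ∈ S := by
      rcases mem_union.1 (hU.symm ▸ mem_range.2 (by omega) : 0 ∈ D ∪ S) with h | h
      · exact absurd h h0D
      · exact h
    have hND : N - 1 ∈ D := by
      rcases mem_union.1 (hU.symm ▸ mem_range.2 (by omega) : N - 1 ∈ D ∪ S) with h | h
      · exact h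
      · exact absurd h (h0N h0S)
    have hDne : D.Nonempty := ⟨_, hND⟩
    set r := D.min' hDne with hr
    have hrD : r ∈ D := D.min'_mem hDne
    have hrN : r < N := mem_range.1 (hU ▸ mem_union_left _ hrD)
    have hr0 : 0 < r := by
      rcases Nat.eq_zero_or_pos r with h | h
      · rw [h] at hrD; exact absurd hrD h0D
      · exact h
    have hSr : S = range r := by
      ext i
      rw [mem_range]
      constructor
      · intro hi
        have h1 := hsep r hrD i hi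
        have h2 : i ≠ r := fun h => (Finset.disjoint_left.1 hDS hrD) (h ▸ hi)
        omega
      · intro hi
        rcases mem_union.1 (hU.symm ▸ mem_range.2 (by omega) : i ∈ D ∪ S) with h | h
        · have := D.min'_le i h
          omega
        · exact h
    have hDr : D = Ico r N := by
      ext i
      rw [mem_Ico]
      constructor
      · intro hi
        exact ⟨D.min'_le i hi, mem_range.1 (hU ▸ mem_union_left _ hi)⟩
      · rintro ⟨h1, h2⟩
        rcases mem_union.1 (hU.symm ▸ mem_range.2 h2 : i ∈ D ∪ S) with h | h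
        · exact h
        · rw [hSr, mem_range] at h
          omega
    have hKS : (0:ℝ) < K ^ S.card := by positivity
    have hterm : ∀ α ∈ 𝒜, (K ^ D.card * 2 ^ (∑ i ∈ D, ex N α i)) *
        min d (K ^ S.card * 2 ^ (∑ i ∈ S, ex N α i)) ≤ K ^ N *
        ((2:ℝ) ^ ((k + 1) * ∑ i ∈ range N, α i) *
          rho N ^ ((α (N - 1) - α r) + (α (r - 1) - α 0)) *
          wt N d (K ^ S.card) (∑ i ∈ range r, ex N α i)) := by
      intro α hα
      have h1 := hpt α hα ((α (N - 1) - α r) + (α (r - 1) - α 0)) (by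
        have h2 := gap_bad (h𝒜 α hα).mono hr0 hrN hSr hDr
        have h3 := (h𝒜 α hα).mono r (N - 1) (by omega) (by omega)
        have h4 := (h𝒜 α hα).mono 0 (r - 1) (by omega) (by omega)
        push_cast [Nat.cast_sub h3, Nat.cast_sub h4]
        exact h2)
      have hES : ∑ i ∈ S, ex N α i = ∑ i ∈ range r, ex N α i := by rw [hSr]
      set z := K ^ S.card * (2:ℝ) ^ (∑ i ∈ S, ex N α i) with hz
      have hz0 : 0 < z := by positivity
      have hwt : min d z = z ^ u * wt N d (K ^ S.card) (∑ i ∈ range r, ex N α i) := by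
        unfold wt
        rw [← hES, ← hz, Real.rpow_neg hz0.le]
        rw [mul_comm (min d z), ← mul_assoc, mul_inv_cancel₀ (by positivity), one_mul]
      have hw0 := wt_nonneg (N := N) hdpos.le hKS (∑ i ∈ range r, ex N α i)
      calc (K ^ D.card * 2 ^ (∑ i ∈ D, ex N α i)) * min d z
          = ((K ^ D.card * 2 ^ (∑ i ∈ D, ex N α i)) * z ^ u) *
              wt N d (K ^ S.card) (∑ i ∈ range r, ex N α i) := by
            conv_lhs => rw [hwt]
            ring
        _ ≤ (K ^ N * (2 ^ ((k + 1) * ∑ i ∈ range N, α i) *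
              rho N ^ ((α (N - 1) - α r) + (α (r - 1) - α 0)))) *
              wt N d (K ^ S.card) (∑ i ∈ range r, ex N α i) :=
            mul_le_mul_of_nonneg_right h1 hw0
        _ = _ := by ring
    refine (Finset.sum_le_sum hterm).trans ?_
    rw [← Finset.mul_sum]
    have hsf := sum_fiber 𝒜 (fun α => ∑ i ∈ range N, α i)
      (fun α => (α (N - 1) - α r) + (α (r - 1) - α 0))
      (fun α => ∑ i ∈ range r, ex N α i) (wt N d (K ^ S.card)) (wt_nonneg hdpos.le hKS)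
      (W := 2 * (1 - rho N)⁻¹ * d ^ v) (fun Y => wt_sum hN hdpos hKS Y) (rho_pos N).le hR
      (fun a b c => fiber_bad hr0 hrN 𝒜 h𝒜 a b c) (s₀ := s₀) (τ := k + 1) (by omega)
      (fun α hα => (h𝒜 α hα).sum)
    have hdv : 0 ≤ d ^ v := by positivity
    have hinv : 0 < (1 - rho N)⁻¹ := inv_pos.2 hρ1
    calc _ ≤ K ^ N * (2 * (2:ℝ) ^ ((k + 1) * s₀) * R * (2 * (1 - rho N)⁻¹ * d ^ v)) :=
          mul_le_mul_of_nonneg_left hsf hKN
      _ = K ^ N * (2 * R * (2 * (1 - rho N)⁻¹)) * d ^ v * 2 ^ ((k + 1) * s₀) := by ring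
      _ ≤ _ := by
          apply mul_le_mul_of_nonneg_right _ (by positivity)
          apply mul_le_mul_of_nonneg_right _ hdv
          apply mul_le_mul_of_nonneg_left _ hKN
          apply mul_le_mul_of_nonneg_left _ (by positivity)
          linarith

end Q272.PSZ
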