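import Mathlib

/-! The exponent inequality. -/

namespace Q272.PSZ

open Finset

/-- The exponent of a step. -/
def ex (N : ℕ) (α : ℕ → ℕ) (i : ℕ) : ℕ := (N + 1 - i) * α i + ∑ j ∈ range i, α j

/-- Positive part of the increments. -/
def TT (α : ℕ → ℕ) (i j : ℕ) : ℤ := if i < j then (α j : ℤ) - α i else 0

section

variable {N : ℕ} {α : ℕ → ℕ} (hα : ∀ i j, i ≤ j → j < N → α i ≤ α j)
include hα

theorem TT_nonneg {i j : ℕ} (hj : j < N) : 0 ≤ TT α i j := by
  unfold TT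
  split_ifs with h
  · have := hα i j h.le hj
    omega
  · exact le_rfl

omit hα in
theorem ex_eq {i : ℕ} (hi : i < N) :
    (ex N α i : ℤ) = ∑ j ∈ range N, (α j : ℤ) + α i - ∑ j ∈ range N, TT α i j := by
  have h1 : ∑ j ∈ range N, (α j : ℤ) - ∑ j ∈ range N, TT α i j =
      ∑ j ∈ range N, (if i < j then (α i : ℤ) else α j) := by
    rw [← Finset.sum_sub_distrib]
    refine sum_congr rfl fun j _ => ?_
    unfold TT
    split_ifs <;> ring
  have h2 : ∑ j ∈ range N, (if i < j then (α i : ℤ) else α j) =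
      ∑ j ∈ range (i + 1), (α j : ℤ) + (N - (i + 1)) * α i := by
    obtain ⟨c, rfl⟩ : ∃ c, N = (i + 1) + c := ⟨N - (i + 1), by omega⟩
    rw [Finset.sum_range_add]
    congr 1
    · refine sum_congr rfl fun j hj => ?_
      rw [mem_range] at hj
      rw [if_neg (by omega)]
    · rw [Finset.sum_congr rfl (fun j _ => if_pos (show i < i + 1 + j by omega))]
      rw [sum_const, card_range, nsmul_eq_mul]
      push_cast
      ring
  have h3 : (ex N α i : ℤ) = ((N:ℤ) + 1 - i) * α i + ∑ j ∈ range i, (α j : ℤ) := by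
    unfold ex
    push_cast [Nat.cast_sub (show i ≤ N + 1 by omega)]
    ring
  rw [h3]
  rw [sum_range_succ] at h2
  linarith

theorem main_ineq {D S : Finset ℕ} {k : ℕ} (hDS : Disjoint D S) (hU : D ∪ S = range N)
    (hk : D.card = k) {G : ℤ}
    (hG : G ≤ (N + 1) * ∑ i ∈ D, ∑ j ∈ range N, TT α i j + ∑ s ∈ S, ∑ j ∈ S, TT α s j) :
    ((N : ℤ) + 1) * ∑ i ∈ D, (ex N α i : ℤ) + ∑ s ∈ S, (ex N α s : ℤ) + G ≤
      ((N : ℤ) + 1) * ((k + 1) * ∑ i ∈ range N, (α i : ℤ)) := by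
  have hDN : ∀ i ∈ D, i < N := fun i hi => mem_range.1 (hU ▸ mem_union_left _ hi)
  have hSN : ∀ i ∈ S, i < N := fun i hi => mem_range.1 (hU ▸ mem_union_right _ hi)
  have hcard : (S.card : ℤ) = N - k := by
    have := card_union_of_disjoint hDS
    rw [hU, card_range, hk] at this
    omega
  have hsum : ∑ i ∈ range N, (α i : ℤ) = ∑ i ∈ D, (α i : ℤ) + ∑ s ∈ S, (α s : ℤ) := by
    rw [← hU, sum_union hDS]
  set Sg := ∑ i ∈ range N, (α i : ℤ) with hSg
  have hD : ∑ i ∈ D, (ex N α i : ℤ) = k * Sg + ∑ i ∈ D, (α i : ℤ) -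
      ∑ i ∈ D, ∑ j ∈ range N, TT α i j := by
    rw [Finset.sum_congr rfl (fun i hi => ex_eq (α := α) (hDN i hi)), Finset.sum_sub_distrib,
      Finset.sum_add_distrib, sum_const, hk, nsmul_eq_mul]
  have hS : ∑ s ∈ S, (ex N α s : ℤ) = ((N:ℤ) - k) * Sg + ∑ s ∈ S, (α s : ℤ) -
      ∑ s ∈ S, ∑ j ∈ range N, TT α s j := by
    rw [Finset.sum_congr rfl (fun i hi => ex_eq (α := α) (hSN i hi)), Finset.sum_sub_distrib,
      Finset.sum_add_distrib, sum_const, nsmul_eq_mul, hcard]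
  have hSsplit : ∑ s ∈ S, ∑ j ∈ range N, TT α s j = ∑ s ∈ S, ∑ j ∈ D, TT α s j +
      ∑ s ∈ S, ∑ j ∈ S, TT α s j := by
    rw [← Finset.sum_add_distrib]
    refine sum_congr rfl fun s _ => ?_
    rw [← hU, sum_union hDS]
  have hcross : ((N:ℤ) - k) * ∑ i ∈ D, (α i : ℤ) - k * ∑ s ∈ S, (α s : ℤ) ≤
      ∑ s ∈ S, ∑ j ∈ D, TT α s j := by
    have h1 : ((N:ℤ) - k) * ∑ i ∈ D, (α i : ℤ) - k * ∑ s ∈ S, (α s : ℤ) =
        ∑ s ∈ S, ∑ j ∈ D, ((α j : ℤ) - α s) := by
      have h2 : ∀ s ∈ S, ∑ j ∈ D, ((α j : ℤ) - α s) = ∑ j ∈ D, (α j : ℤ) - k * α s := by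
        intro s _
        rw [Finset.sum_sub_distrib, sum_const, hk, nsmul_eq_mul]
      rw [Finset.sum_congr rfl h2, Finset.sum_sub_distrib, sum_const, nsmul_eq_mul, hcard,
        ← Finset.mul_sum]
    rw [h1]
    apply Finset.sum_le_sum
    intro s hs
    apply Finset.sum_le_sum
    intro j hj
    unfold TT
    split_ifs with h
    · exact le_rfl
    · have := hα j s (by omega) (hSN s hs)
      omega
  rw [hD, hS]
  nlinarith [hcross, hSsplit, hG, hsum]

theorem gap_good {D S : Finset ℕ} (hU : D ∪ S = range N) (hN : 0 < N)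
    (hcase : 0 ∈ D ∨ (0 ∈ S ∧ N - 1 ∈ S) ∨ ∃ i ∈ D, ∃ s ∈ S, i < s) :
    (α (N - 1) : ℤ) - α 0 ≤
      (N + 1) * ∑ i ∈ D, ∑ j ∈ range N, TT α i j + ∑ s ∈ S, ∑ j ∈ S, TT α s j := by
  have hDN : ∀ i ∈ D, i < N := fun i hi => mem_range.1 (hU ▸ mem_union_left _ hi)
  have hSN : ∀ i ∈ S, i < N := fun i hi => mem_range.1 (hU ▸ mem_union_right _ hi)
  have hnnD : ∀ i ∈ D, 0 ≤ ∑ j ∈ range N, TT α i j := fun i _ =>
    Finset.sum_nonneg fun j hj => TT_nonneg hα (mem_range.1 hj)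
  have hnnS : ∀ s ∈ S, 0 ≤ ∑ j ∈ S, TT α s j := fun s _ =>
    Finset.sum_nonneg fun j hj => TT_nonneg hα (hSN j hj)
  have hD0 : 0 ≤ ∑ i ∈ D, ∑ j ∈ range N, TT α i j := Finset.sum_nonneg hnnD
  have hS0 : 0 ≤ ∑ s ∈ S, ∑ j ∈ S, TT α s j := Finset.sum_nonneg hnnS
  have hDge : ∀ i ∈ D, (α (N - 1) : ℤ) - α i ≤ ∑ i ∈ D, ∑ j ∈ range N, TT α i j := by
    intro i hi
    refine le_trans ?_ (Finset.single_le_sum hnnD hi)
    refine le_trans ?_ (Finset.single_le_sum (f := fun j => TT α i j)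
      (fun j hj => TT_nonneg hα (mem_range.1 hj)) (mem_range.2 (show N - 1 < N by omega)))
    unfold TT
    split_ifs with h
    · exact le_rfl
    · have h1 := hDN i hi
      have : i = N - 1 := by omega
      rw [this]
      omega
  have hSge : ∀ s ∈ S, ∀ s' ∈ S, (α s' : ℤ) - α s ≤ ∑ s ∈ S, ∑ j ∈ S, TT α s j := by
    intro s hs s' hs'
    refine le_trans ?_ (Finset.single_le_sum hnnS hs)
    refine le_trans ?_ (Finset.single_le_sum (f := fun j => TT α s j)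
      (fun j hj => TT_nonneg hα (hSN j hj)) hs')
    unfold TT
    split_ifs with h
    · exact le_rfl
    · have := hα s' s (by omega) (hSN s hs)
      omega
  have hND : ∑ i ∈ D, ∑ j ∈ range N, TT α i j ≤
      ((N:ℤ) + 1) * ∑ i ∈ D, ∑ j ∈ range N, TT α i j := by
    nlinarith
  rcases hcase with h | ⟨h, h'⟩ | ⟨i, hi, s, hs, his⟩
  · have := hDge 0 h
    linarith
  · have := hSge 0 h (N - 1) h'
    linarith
  · rcases mem_union.1 (hU.symm ▸ mem_range.2 hN : 0 ∈ D ∪ S) with h | h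
    · have := hDge 0 h
      linarith
    · have h1 := hSge 0 h s hs
      have h2 := hDge i hi
      have h3 := hα i s his.le (hSN s hs)
      have h4 : (α i : ℤ) ≤ α s := by exact_mod_cast h3
      linarith

theorem gap_bad {D S : Finset ℕ} {r : ℕ} (hr : 0 < r) (hrN : r < N) (hS : S = range r)
    (hD : D = Ico r N) :
    ((α (N - 1) : ℤ) - α r) + ((α (r - 1) : ℤ) - α 0) ≤
      (N + 1) * ∑ i ∈ D, ∑ j ∈ range N, TT α i j + ∑ s ∈ S, ∑ j ∈ S, TT α s j := by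
  have hDN : ∀ i ∈ D, i < N := fun i hi => by rw [hD, mem_Ico] at hi; exact hi.2
  have hSN : ∀ i ∈ S, i < N := fun i hi => by rw [hS, mem_range] at hi; omega
  have hnnD : ∀ i ∈ D, 0 ≤ ∑ j ∈ range N, TT α i j := fun i _ =>
    Finset.sum_nonneg fun j hj => TT_nonneg hα (mem_range.1 hj)
  have hnnS : ∀ s ∈ S, 0 ≤ ∑ j ∈ S, TT α s j := fun s _ =>
    Finset.sum_nonneg fun j hj => TT_nonneg hα (hSN j hj)
  have hD0 : 0 ≤ ∑ i ∈ D, ∑ j ∈ range N, TT α i j := Finset.sum_nonneg hnnD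
  have h1 : (α (N - 1) : ℤ) - α r ≤ ∑ i ∈ D, ∑ j ∈ range N, TT α i j := by
    have hrD : r ∈ D := by rw [hD, mem_Ico]; omega
    refine le_trans ?_ (Finset.single_le_sum hnnD hrD)
    refine le_trans ?_ (Finset.single_le_sum (f := fun j => TT α r j)
      (fun j hj => TT_nonneg hα (mem_range.1 hj)) (mem_range.2 (show N - 1 < N by omega)))
    unfold TT
    split_ifs with h
    · exact le_rfl
    · have : r = N - 1 := by omega
      rw [this]
      omega
  have h2 : (α (r - 1) : ℤ) - α 0 ≤ ∑ s ∈ S, ∑ j ∈ S, TT α s j := by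
    have h0S : 0 ∈ S := by rw [hS, mem_range]; exact hr
    have hrS : r - 1 ∈ S := by rw [hS, mem_range]; omega
    refine le_trans ?_ (Finset.single_le_sum hnnS h0S)
    refine le_trans ?_ (Finset.single_le_sum (f := fun j => TT α 0 j)
      (fun j hj => TT_nonneg hα (hSN j hj)) hrS)
    unfold TT
    split_ifs with h
    · exact le_rfl
    · have : r - 1 = 0 := by omega
      rw [this]
      omega
  have hND : ∑ i ∈ D, ∑ j ∈ range N, TT α i j ≤
      ((N:ℤ) + 1) * ∑ i ∈ D, ∑ j ∈ range N, TT α i j := by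
    nlinarith
  linarith

end

end Q272.PSZ
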