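import Mathlib

/-! Flags of successive minima of the orthogonal lattice of an integer vector. -/

namespace Q272.PSZ

open Finset Module

variable {M : ℕ}

/-- Sup norm of an integer vector. -/
def nm (a : Fin M → ℤ) : ℕ := univ.sup fun i => (a i).natAbs

theorem le_nm (a : Fin M → ℤ) (i : Fin M) : (a i).natAbs ≤ nm a :=
  Finset.le_sup (f := fun i => (a i).natAbs) (mem_univ i)

theorem nm_le {a : Fin M → ℤ} {B : ℕ} (h : ∀ i, (a i).natAbs ≤ B) : nm a ≤ B :=
  Finset.sup_le fun i _ => h i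

theorem nm_eq_zero {a : Fin M → ℤ} (h : nm a = 0) : a = 0 := by
  funext i
  have := le_nm a i
  rw [h] at this
  simpa using this

theorem nm_pos {a : Fin M → ℤ} (h : a ≠ 0) : 0 < nm a :=
  Nat.pos_of_ne_zero fun h0 => h (nm_eq_zero h0)

theorem nm_smul (c : ℤ) (a : Fin M → ℤ) : nm (c • a) = c.natAbs * nm a := by
  apply le_antisymm
  · refine nm_le fun i => ?_
    rw [Pi.smul_apply, smul_eq_mul, Int.natAbs_mul]
    exact Nat.mul_le_mul_left _ (le_nm a i)
  · rcases Nat.eq_zero_or_pos M with rfl | hM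
    · simp [nm]
    · have : Nonempty (Fin M) := ⟨⟨0, hM⟩⟩
      obtain ⟨i, _, hi⟩ := Finset.exists_mem_eq_sup univ univ_nonempty fun i => (a i).natAbs
      have h1 : nm a = (a i).natAbs := hi
      rw [h1, ← Int.natAbs_mul]
      exact le_nm (c • a) i

/-- The rational vector of an integer vector. -/
def cq (a : Fin M → ℤ) : Fin M → ℚ := fun i => a i

theorem cq_add (a b : Fin M → ℤ) : cq (a + b) = cq a + cq b := by
  funext i; simp [cq]

theorem cq_sub (a b : Fin M → ℤ) : cq (a - b) = cq a - cq b := by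
  funext i; simp [cq]

theorem cq_smul (c : ℤ) (a : Fin M → ℤ) : cq (c • a) = (c : ℚ) • cq a := by
  funext i; simp [cq]

theorem cq_zero : cq (0 : Fin M → ℤ) = 0 := by
  funext i; simp [cq]

theorem cq_inj {a b : Fin M → ℤ} (h : cq a = cq b) : a = b := by
  funext i
  have := congrFun h i
  simpa [cq] using this

/-- A tie-breaking key. -/
def key (a : Fin M → ℤ) : ℕ ×ₗ ℕ := toLex (nm a, Encodable.encode a)

theorem key_inj {a b : Fin M → ℤ} (h : key a = key b) : a = b := by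
  unfold key at h
  have h1 : (nm a, Encodable.encode a) = (nm b, Encodable.encode b) := toLex.injective h
  exact Encodable.encode_injective (Prod.ext_iff.1 h1).2

theorem nm_le_of_key_le {a b : Fin M → ℤ} (h : key a ≤ key b) : nm a ≤ nm b := by
  unfold key at h
  rw [Prod.Lex.toLex_le_toLex] at h
  rcases h with h | h
  · exact h.le
  · exact h.1.le

/-- The minimal element of `S` outside `W`. -/
noncomputable def sel (S : Set (Fin M → ℤ)) (W : Submodule ℚ (Fin M → ℚ)) : Fin M → ℤ := by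
  classical
  exact if h : (S ∩ {a | cq a ∉ W}).Nonempty then Function.argminOn key _ h else 0

theorem sel_mem {S : Set (Fin M → ℤ)} {W : Submodule ℚ (Fin M → ℚ)}
    (h : ∃ a ∈ S, cq a ∉ W) : sel S W ∈ S ∧ cq (sel S W) ∉ W := by
  obtain ⟨a, ha, haW⟩ := h
  have hne : (S ∩ {a | cq a ∉ W}).Nonempty := ⟨a, ha, haW⟩
  unfold sel
  rw [dif_pos hne]
  exact Function.argminOn_mem key _ hne

theorem key_sel_le {S : Set (Fin M → ℤ)} {W : Submodule ℚ (Fin M → ℚ)} {a : Fin M → ℤ}
    (ha : a ∈ S) (haW : cq a ∉ W) : key (sel S W) ≤ key a := by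
  have hmem : a ∈ S ∩ {a | cq a ∉ W} := ⟨ha, haW⟩
  have hne : (S ∩ {a | cq a ∉ W}).Nonempty := ⟨a, hmem⟩
  unfold sel
  rw [dif_pos hne]
  exact Function.argminOn_le key _ hmem

theorem sel_eq {S : Set (Fin M → ℤ)} {W : Submodule ℚ (Fin M → ℚ)} {a : Fin M → ℤ}
    (ha : a ∈ S) (haW : cq a ∉ W) (hmin : ∀ b ∈ S, cq b ∉ W → key a ≤ key b) :
    sel S W = a := by
  obtain ⟨h1, h2⟩ := sel_mem ⟨a, ha, haW⟩
  exact key_inj (le_antisymm (key_sel_le ha haW) (hmin _ h1 h2))

/-- Restricting to a subset containing the minimum. -/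
theorem sel_subset {S S' : Set (Fin M → ℤ)} {W : Submodule ℚ (Fin M → ℚ)}
    (hS : S' ⊆ S) (h : ∃ a ∈ S, cq a ∉ W) (hmem : sel S W ∈ S') : sel S' W = sel S W := by
  obtain ⟨h1, h2⟩ := sel_mem h
  exact sel_eq hmem h2 fun b hb hbW => key_sel_le (hS hb) hbW

/-- Integer vectors orthogonal to `x`. -/
def perp (x : Fin M → ℤ) : Set (Fin M → ℤ) := {a | ∑ i, a i * x i = 0}

theorem mem_perp {x a : Fin M → ℤ} : a ∈ perp x ↔ ∑ i, a i * x i = 0 := Iff.rfl

/-- Rational vectors orthogonal to `x`. -/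
def perpQ (x : Fin M → ℤ) : Submodule ℚ (Fin M → ℚ) where
  carrier := {v | ∑ i, v i * x i = 0}
  add_mem' := by
    intro a b ha hb
    simp only [Set.mem_ofPred_eq, Pi.add_apply, add_mul, sum_add_distrib] at *
    rw [ha, hb, add_zero]
  zero_mem' := by simp
  smul_mem' := by
    intro c a ha
    simp only [Set.mem_ofPred_eq, Pi.smul_apply, smul_eq_mul, mul_assoc] at *
    rw [← Finset.mul_sum, ha, mul_zero]

theorem mem_perpQ {x : Fin M → ℤ} {v : Fin M → ℚ} : v ∈ perpQ x ↔ ∑ i, v i * x i = 0 := Iff.rfl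

theorem cq_mem_perpQ {x a : Fin M → ℤ} : cq a ∈ perpQ x ↔ a ∈ perp x := by
  rw [mem_perpQ, mem_perp]
  unfold cq
  constructor
  · intro h; exact_mod_cast h
  · intro h; exact_mod_cast h

theorem exists_den (v : Fin M → ℚ) : ∃ (d : ℕ) (a : Fin M → ℤ), 0 < d ∧ cq a = (d : ℚ) • v := by
  refine ⟨∏ i, (v i).den, fun i => (v i).num * ∏ j ∈ univ.erase i, ((v j).den : ℤ), ?_, ?_⟩
  · exact Finset.prod_pos fun i _ => (v i).den_pos
  · funext i
    unfold cq
    rw [Pi.smul_apply, smul_eq_mul, ← Finset.mul_prod_erase univ (fun i => (v i).den) (mem_univ i)]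
    push_cast
    have h1 : (v i) * (v i).den = (v i).num := Rat.mul_den_eq_num (v i)
    rw [← h1]
    ring

theorem exists_perp_notMem {x : Fin M → ℤ} {W : Submodule ℚ (Fin M → ℚ)}
    (h : ¬ perpQ x ≤ W) : ∃ a ∈ perp x, cq a ∉ W := by
  obtain ⟨v, hv, hvW⟩ := Set.not_subset.1 h
  obtain ⟨d, a, hd, ha⟩ := exists_den v
  have hd0 : (d : ℚ) ≠ 0 := by exact_mod_cast hd.ne'
  refine ⟨a, ?_, ?_⟩
  · rw [← cq_mem_perpQ, ha]
    exact (perpQ x).smul_mem _ hv
  · intro h1
    apply hvW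
    have h2 : v = (d : ℚ)⁻¹ • cq a := by rw [ha, smul_smul, inv_mul_cancel₀ hd0, one_smul]
    rw [h2]
    exact W.smul_mem _ h1

theorem finrank_perpQ {x : Fin M → ℤ} (hx : x ≠ 0) : finrank ℚ (perpQ x) + 1 = M := by
  obtain ⟨i, hi⟩ := Function.ne_iff.1 hx
  let φ : (Fin M → ℚ) →ₗ[ℚ] ℚ := Fintype.linearCombination ℚ (fun i => (x i : ℚ))
  have hφ : ∀ v, φ v = ∑ i, v i * x i := by
    intro v
    simp [φ, Fintype.linearCombination_apply]
  have hker : LinearMap.ker φ = perpQ x := by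
    ext v
    rw [LinearMap.mem_ker, hφ, mem_perpQ]
  have hrange : LinearMap.range φ = ⊤ := by
    rw [LinearMap.range_eq_top]
    intro c
    have hxi : (x i : ℚ) ≠ 0 := by
      have : x i ≠ 0 := hi
      exact_mod_cast this
    refine ⟨Pi.single i (c / x i), ?_⟩
    rw [hφ, Finset.sum_eq_single i]
    · rw [Pi.single_eq_same, div_mul_cancel₀ _ hxi]
    · intro j _ hj
      rw [Pi.single_eq_of_ne hj, zero_mul]
    · intro h; exact absurd (mem_univ i) h
  have h1 := φ.finrank_range_add_finrank_ker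
  rw [hrange, hker, finrank_top, finrank_self, finrank_fin_fun] at h1
  omega

/-- The flag. -/
noncomputable def fl (x : Fin M → ℤ) : ℕ → Submodule ℚ (Fin M → ℚ)
  | 0 => ⊥
  | m + 1 => fl x m ⊔ Submodule.span ℚ {cq (sel (perp x) (fl x m))}

/-- The vectors of the flag. -/
noncomputable def av (x : Fin M → ℤ) (m : ℕ) : Fin M → ℤ := sel (perp x) (fl x m)

theorem fl_succ (x : Fin M → ℤ) (m : ℕ) : fl x (m + 1) = fl x m ⊔ Submodule.span ℚ {cq (av x m)} :=
  rfl

theorem fl_le_succ (x : Fin M → ℤ) (m : ℕ) : fl x m ≤ fl x (m + 1) := le_sup_left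

theorem fl_mono (x : Fin M → ℤ) : Monotone (fl x) := monotone_nat_of_le_succ (fl_le_succ x)

theorem cq_av_mem (x : Fin M → ℤ) (m : ℕ) : cq (av x m) ∈ fl x (m + 1) :=
  Submodule.mem_sup_right (Submodule.mem_span_singleton_self _)

section

variable {x : Fin M → ℤ} (hx : x ≠ 0)
include hx

theorem fl_facts (m : ℕ) (hm : m + 1 ≤ M) : finrank ℚ (fl x m) = m ∧ fl x m ≤ perpQ x := by
  induction m with
  | zero =>
    constructor
    · exact finrank_bot ℚ _
    · exact bot_le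
  | succ m ih =>
    obtain ⟨h1, h2⟩ := ih (by omega)
    have hnle : ¬ perpQ x ≤ fl x m := by
      intro h
      have := Submodule.finrank_mono h
      have h3 := finrank_perpQ hx
      omega
    obtain ⟨h3, h4⟩ := sel_mem (exists_perp_notMem hnle)
    constructor
    · rw [fl_succ]
      have h5 : finrank ℚ (fl x m ⊔ Submodule.span ℚ {cq (av x m)} : Submodule ℚ (Fin M → ℚ)) =
          finrank ℚ (fl x m) + 1 := Submodule.finrank_sup_span_singleton h4
      rw [h5, h1]
    · rw [fl_succ, sup_le_iff]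
      refine ⟨h2, ?_⟩
      rw [Submodule.span_le, Set.singleton_subset_iff]
      exact cq_mem_perpQ.2 h3

theorem not_perpQ_le (m : ℕ) (hm : m + 2 ≤ M) : ¬ perpQ x ≤ fl x m := by
  intro h
  have h1 := Submodule.finrank_mono h
  have h2 := (fl_facts hx m (by omega)).1
  have h3 := finrank_perpQ hx
  omega

theorem av_mem (m : ℕ) (hm : m + 2 ≤ M) : av x m ∈ perp x ∧ cq (av x m) ∉ fl x m :=
  sel_mem (exists_perp_notMem (not_perpQ_le hx m hm))

theorem fl_top (m : ℕ) (hm : m + 1 = M) : fl x m = perpQ x := by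
  obtain ⟨h1, h2⟩ := fl_facts hx m hm.le
  apply Submodule.eq_of_le_of_finrank_eq h2
  have := finrank_perpQ hx
  omega

theorem nm_av_pos (m : ℕ) (hm : m + 2 ≤ M) : 0 < nm (av x m) := by
  apply nm_pos
  intro h
  apply (av_mem hx m hm).2
  rw [h, cq_zero]
  exact zero_mem _

omit hx in
theorem nm_av_le {m : ℕ} {a : Fin M → ℤ} (ha : a ∈ perp x) (haW : cq a ∉ fl x m) :
    nm (av x m) ≤ nm a := nm_le_of_key_le (key_sel_le ha haW)

theorem nm_av_mono {i j : ℕ} (hij : i ≤ j) (hj : j + 2 ≤ M) : nm (av x i) ≤ nm (av x j) := by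
  obtain ⟨h1, h2⟩ := av_mem hx j hj
  exact nm_av_le h1 fun h => h2 (fl_mono x hij h)

end

end Q272.PSZ
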