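import Pool.Agent.Q272.PSZ.NN

/-! Every minimal prime over `P + (ℓ)` has codimension one over a homogeneous prime `P`. -/

namespace Q272.PSZ

open MvPolynomial Finset

attribute [local instance] MvPolynomial.gradedAlgebra

section

variable {K : Type} [Field K] [Infinite K] {M : ℕ}

theorem minimal_prime_over {A : Type} [CommRing A] [IsDomain A] [Algebra K A] {r : ℕ}
    {u : A} {w : Fin r → A} (hw : AlgebraicIndependent K (Fin.cons u w : Fin (r + 1) → A))
    (hint : Algebra.IsIntegral (Algebra.adjoin K (Set.range (Fin.cons u w : Fin (r + 1) → A))) A)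
    (Q : Ideal A) [Q.IsPrime] (huQ : u ∈ Q)
    (hmin : ∀ Q' : Ideal A, Q'.IsPrime → u ∈ Q' → Q' ≤ Q → Q ≤ Q') :
    ∀ g : MvPolynomial (Fin r) K, aeval w g ∈ Q → g = 0 := by
  classical
  set B := Algebra.adjoin K (Set.range (Fin.cons u w : Fin (r + 1) → A)) with hB
  set e : MvPolynomial (Fin (r + 1)) K ≃ₐ[K] B := hw.aevalEquiv with he
  have hic : IsIntegrallyClosed B := IsIntegrallyClosed.of_equiv e.toRingEquiv
  have heX : (algebraMap B A) (e (X 0)) = u := by
    rw [he, hw.algebraMap_aevalEquiv, aeval_X, Fin.cons_zero]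
  -- the prime ideal generated by `u`
  set q₀ : Ideal B := Ideal.map e.toRingEquiv (Ideal.span {X 0}) with hq₀
  have hprime0 : (Ideal.span {(X 0 : MvPolynomial (Fin (r + 1)) K)}).IsPrime := by
    rw [Ideal.span_singleton_prime (X_ne_zero _)]
    exact MvPolynomial.X_prime
  have hq₀p : q₀.IsPrime := Ideal.map_isPrime_of_equiv e.toRingEquiv
  have hq₀u : e (X 0) ∈ q₀ := Ideal.mem_map_of_mem e.toRingEquiv
    (Ideal.mem_span_singleton_self (X 0 : MvPolynomial (Fin (r + 1)) K))
  have hle : q₀ ≤ Q.under B := by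
    rw [hq₀, Ideal.map_span, Ideal.span_le]
    rintro x ⟨y, hy, rfl⟩
    rw [Set.mem_singleton_iff] at hy
    subst hy
    change algebraMap B A (e (X 0)) ∈ Q
    rw [heX]
    exact huQ
  obtain ⟨P', hP'Q, hP'p, hP'l⟩ := Ideal.exists_ideal_le_liesOver_of_le (p := q₀)
    (q := Q.under B) Q hle
  have huP' : u ∈ P' := by
    rw [← heX]
    exact (P'.mem_of_liesOver q₀ _).1 hq₀u
  have hQP' : Q = P' := le_antisymm (hmin P' hP'p huP' hP'Q) hP'Q
  have hQq₀ : ∀ b : B, algebraMap B A b ∈ Q → b ∈ q₀ := by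
    intro b hb
    rw [hQP'] at hb
    exact (P'.mem_of_liesOver q₀ _).2 hb
  intro g hg
  have h1 : aeval w g = algebraMap B A (e (rename Fin.succ g)) := by
    rw [he, hw.algebraMap_aevalEquiv, aeval_rename]
    congr 1
  rw [h1] at hg
  have h2 := hQq₀ _ hg
  have h3 : rename Fin.succ g ∈ Ideal.span {(X 0 : MvPolynomial (Fin (r + 1)) K)} := by
    rw [hq₀] at h2
    have h4 := (Ideal.mem_map_of_equiv e.toRingEquiv _).1 h2
    obtain ⟨x, hx, hxe⟩ := h4
    have : x = rename Fin.succ g := e.injective hxe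
    rwa [this] at hx
  rw [Ideal.mem_span_singleton] at h3
  obtain ⟨y, hy⟩ := h3
  have h5 := congrArg (aeval (R := K) (Fin.cons 0 X : Fin (r + 1) → MvPolynomial (Fin r) K)) hy
  rw [map_mul, aeval_X, Fin.cons_zero, zero_mul, aeval_rename] at h5
  have h6 : (Fin.cons 0 X : Fin (r + 1) → MvPolynomial (Fin r) K) ∘ Fin.succ = X := by
    funext i; rfl
  rw [h6, aeval_X_left, AlgHom.id_apply] at h5
  exact h5

/-- Principal ideal theorem for hyperplane sections, in terms of transcendence degrees. -/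
theorem pit {P Q : Ideal (MvPolynomial (Fin M) K)} [hP : P.IsPrime]
    (hPh : P.IsHomogeneous (homogeneousSubmodule (Fin M) K)) {ℓ : MvPolynomial (Fin M) K}
    (hℓ : ℓ.IsHomogeneous 1) (hℓP : ℓ ∉ P) (hQ : Q ∈ (P ⊔ Ideal.span {ℓ}).minimalPrimes) :
    Algebra.trdeg K (MvPolynomial (Fin M) K ⧸ Q) + 1 =
      Algebra.trdeg K (MvPolynomial (Fin M) K ⧸ P) := by
  classical
  have hQp : Q.IsPrime := hQ.1.1
  have hPQ : P ≤ Q := le_sup_left.trans hQ.1.2
  have hℓQ : ℓ ∈ Q := hQ.1.2 (Ideal.mem_sup_right (Ideal.mem_span_singleton_self ℓ))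
  set u : MvPolynomial (Fin M) K ⧸ P := Ideal.Quotient.mk P ℓ with hu
  set v : Fin M → MvPolynomial (Fin M) K ⧸ P := fun i => Ideal.Quotient.mk P (X i) with hv
  have hu0 : u ≠ 0 := by
    rw [hu, Ne, Ideal.Quotient.eq_zero_iff_mem]
    exact hℓP
  have hmk : ∀ f, (Ideal.Quotient.mk P) f = Ideal.Quotient.mkₐ K P f := fun _ => rfl
  -- homogeneous relations
  have hrel : HomRel K (Fin.cons u v : Fin (M + 1) → MvPolynomial (Fin M) K ⧸ P) := by
    have hcomp : ∀ f : MvPolynomial (Fin (M + 1)) K,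
        aeval (Fin.cons u v : Fin (M + 1) → MvPolynomial (Fin M) K ⧸ P) f =
        Ideal.Quotient.mkₐ K P (aeval (Fin.cons ℓ X : Fin (M + 1) → MvPolynomial (Fin M) K) f) := by
      intro f
      have : aeval (R := K) (Fin.cons u v : Fin (M + 1) → MvPolynomial (Fin M) K ⧸ P) =
          (Ideal.Quotient.mkₐ K P).comp
          (aeval (Fin.cons ℓ X : Fin (M + 1) → MvPolynomial (Fin M) K)) := by
        apply MvPolynomial.algHom_ext
        intro i
        rw [AlgHom.comp_apply, aeval_X, aeval_X]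
        refine Fin.cases ?_ (fun i => ?_) i
        · rfl
        · rfl
      rw [this]
      rfl
    intro f hf t
    rw [hcomp] at hf ⊢
    rw [← homogeneousComponent_aeval]
    · change Ideal.Quotient.mk P _ = 0
      rw [Ideal.Quotient.eq_zero_iff_mem]
      apply homogeneousComponent_mem_of_mem hPh
      exact Ideal.Quotient.eq_zero_iff_mem.1 hf
    · intro i
      refine Fin.cases ?_ (fun i => ?_) i
      · exact hℓ
      · exact isHomogeneous_X _ _
  obtain ⟨r, w, hw, hint⟩ := nn u hu0 M v hrel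
  set B := Algebra.adjoin K (Set.range (Fin.cons u w : Fin (r + 1) →
    MvPolynomial (Fin M) K ⧸ P)) with hB
  -- integrality
  have hintA : Algebra.IsIntegral B (MvPolynomial (Fin M) K ⧸ P) := by
    refine ⟨fun x => ?_⟩
    obtain ⟨f, rfl⟩ := Ideal.Quotient.mk_surjective x
    induction f using MvPolynomial.induction_on with
    | C a =>
      have : (Ideal.Quotient.mk P) (C a) = algebraMap B _ (algebraMap K B a) := rfl
      rw [this]
      exact isIntegral_algebraMap
    | add p q hp hq => rw [map_add]; exact hp.add hq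
    | mul_X p i hp => rw [map_mul]; exact hp.mul (hint i)
  have htrP : Algebra.trdeg K (MvPolynomial (Fin M) K ⧸ P) = ((r + 1 : ℕ) : Cardinal) := by
    have h1 : IsTranscendenceBasis K (Fin.cons u w : Fin (r + 1) → MvPolynomial (Fin M) K ⧸ P) := by
      rw [hw.isTranscendenceBasis_iff_isAlgebraic]
      exact hintA.isAlgebraic
    rw [← h1.cardinalMk_eq_trdeg]
    simp
  -- the ideal `Q` in the quotient
  set Q' : Ideal (MvPolynomial (Fin M) K ⧸ P) := Q.map (Ideal.Quotient.mk P) with hQ'
  have hQ'p : Q'.IsPrime := Ideal.map_isPrime_of_surjective Ideal.Quotient.mk_surjective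
    (by rw [Ideal.mk_ker]; exact hPQ)
  have hmem : ∀ f, Ideal.Quotient.mk P f ∈ Q' ↔ f ∈ Q := by
    intro f
    rw [hQ', Ideal.mem_quotient_iff_mem hPQ]
  have key := minimal_prime_over hw hintA Q' ((hmem ℓ).2 hℓQ) (by
    intro Q₁ hQ₁p hQ₁u hQ₁le
    have h1 : Q ≤ Q₁.comap (Ideal.Quotient.mk P) := by
      apply hQ.2
      · refine ⟨Ideal.comap_isPrime _ _, ?_⟩
        rw [sup_le_iff]
        constructor
        · intro f hf
          rw [Ideal.mem_comap, Ideal.Quotient.eq_zero_iff_mem.2 hf]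
          exact zero_mem _
        · rw [Ideal.span_le, Set.singleton_subset_iff]
          exact hQ₁u
      · intro f hf
        exact (hmem f).1 (hQ₁le hf)
    rw [hQ', Ideal.map_le_iff_le_comap]
    exact h1)
  -- transcendence basis modulo `Q`
  let π : (MvPolynomial (Fin M) K ⧸ P) →ₐ[K] (MvPolynomial (Fin M) K ⧸ Q) :=
    Ideal.Quotient.factorₐ K hPQ
  have hπ : ∀ f, π (Ideal.Quotient.mk P f) = Ideal.Quotient.mk Q f := fun f => rfl
  have hπ0 : ∀ x, π x = 0 → x ∈ Q' := by
    intro x hx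
    obtain ⟨f, rfl⟩ := Ideal.Quotient.mk_surjective x
    rw [hπ, Ideal.Quotient.eq_zero_iff_mem] at hx
    exact (hmem f).2 hx
  have hπu : π u = 0 := by
    rw [hu, hπ, Ideal.Quotient.eq_zero_iff_mem]
    exact hℓQ
  have hind : AlgebraicIndependent K (fun i => π (w i)) := by
    rw [algebraicIndependent_iff]
    intro g hg
    apply key
    apply hπ0
    rw [← hg]
    have : aeval (R := K) (fun i => π (w i)) = π.comp (aeval w) := by
      apply MvPolynomial.algHom_ext
      intro i
      rw [AlgHom.comp_apply, aeval_X, aeval_X]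
    rw [this]
    rfl
  have htrQ : Algebra.trdeg K (MvPolynomial (Fin M) K ⧸ Q) = ((r : ℕ) : Cardinal) := by
    have h1 : IsTranscendenceBasis K (fun i => π (w i)) := by
      rw [hind.isTranscendenceBasis_iff_isAlgebraic]
      set B₂ := Algebra.adjoin K (Set.range fun i => π (w i)) with hB₂
      have hBle : B.map π ≤ B₂ := by
        rw [hB, AlgHom.map_adjoin, Algebra.adjoin_le_iff]
        rintro _ ⟨_, ⟨i, rfl⟩, rfl⟩
        refine Fin.cases ?_ (fun i => ?_) i
        · change π u ∈ B₂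
          rw [hπu]; exact zero_mem _
        · rw [Fin.cons_succ]
          exact Algebra.subset_adjoin ⟨i, rfl⟩
      have hint2 : Algebra.IsIntegral B₂ (MvPolynomial (Fin M) K ⧸ Q) := by
        refine ⟨fun x => ?_⟩
        obtain ⟨f, rfl⟩ := Ideal.Quotient.mk_surjective x
        rw [← hπ]
        obtain ⟨p, hp, hpx⟩ := hintA.isIntegral (Ideal.Quotient.mk P f)
        let ψ : B →+* B₂ := (π.comp B.val).toRingHom.codRestrict B₂.toSubring (by
          intro b
          exact hBle ⟨b, b.2, rfl⟩)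
        refine ⟨p.map ψ, hp.map ψ, ?_⟩
        rw [Polynomial.eval₂_map]
        have h2 := congrArg π hpx
        rw [map_zero] at h2
        have h3 := Polynomial.hom_eval₂ p (algebraMap B _) π.toRingHom (Ideal.Quotient.mk P f)
        have h4 : (algebraMap B₂ (MvPolynomial (Fin M) K ⧸ Q)).comp ψ =
            π.toRingHom.comp (algebraMap B (MvPolynomial (Fin M) K ⧸ P)) := by
          ext b
          rfl
        rw [h4]
        exact h3.symm.trans h2
      exact hint2.isAlgebraic
    rw [← h1.cardinalMk_eq_trdeg]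
    simp
  rw [htrP, htrQ]
  push_cast
  rfl

end

end Q272.PSZ
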