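import Pool.Agent.Q272.PSZ.Tree
import Pool.Agent.Q272.PSZ.PIT

/-! Asymptotics of Hilbert functions. -/

namespace Q272.PSZ

open MvPolynomial Finset Filter Topology Asymptotics

attribute [local instance] MvPolynomial.gradedAlgebra

/-- Summing an asymptotic. -/
theorem lim_integrate {H : ℕ → ℝ} {e : ℕ} {L : ℝ}
    (h : Tendsto (fun t : ℕ => (H (t + 1) - H t) / (t : ℝ) ^ e) atTop (𝓝 L)) :
    Tendsto (fun t : ℕ => H t / (t : ℝ) ^ (e + 1)) atTop (𝓝 (L / (e + 1))) := by
  set g : ℕ → ℝ := fun t => ((t : ℝ) + 1) ^ (e + 1) - (t : ℝ) ^ (e + 1) with hg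
  have he : (0 : ℝ) < (e : ℝ) + 1 := by positivity
  have hg0 : 0 ≤ g := by
    intro t
    change 0 ≤ ((t : ℝ) + 1) ^ (e + 1) - (t : ℝ) ^ (e + 1)
    rw [sub_nonneg]
    exact pow_le_pow_left₀ (Nat.cast_nonneg t) (by linarith) _
  have hgsum : ∀ n, ∑ t ∈ range n, g t = (n : ℝ) ^ (e + 1) := by
    intro n
    induction n with
    | zero => simp
    | succ n ih =>
      rw [sum_range_succ, ih, hg]
      push_cast
      ring
  -- the increments of the power
  have hratio : Tendsto (fun t : ℕ => g t / (t : ℝ) ^ e) atTop (𝓝 ((e : ℝ) + 1)) := by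
    have h1 : HasDerivAt (fun x : ℝ => x ^ (e + 1)) (((e + 1 : ℕ) : ℝ) * 1 ^ e) 1 := by
      simpa using hasDerivAt_pow (e + 1) (1 : ℝ)
    have h2 := h1.tendsto_slope_zero_right
    have h3 : Tendsto (fun t : ℕ => ((t : ℝ))⁻¹) atTop (𝓝[>] 0) := by
      exact tendsto_inv_atTop_nhdsGT_zero.comp tendsto_natCast_atTop_atTop
    have h4 := h2.comp h3
    simp only [one_pow, mul_one] at h4
    push_cast at h4
    refine h4.congr' ?_
    filter_upwards [eventually_gt_atTop 0] with t ht
    have ht0 : (0 : ℝ) < t := by exact_mod_cast ht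
    simp only [Function.comp, inv_inv, smul_eq_mul, hg]
    have h5 : (1 + (t : ℝ)⁻¹) ^ (e + 1) = ((t : ℝ) + 1) ^ (e + 1) / (t : ℝ) ^ (e + 1) := by
      rw [← div_pow]
      congr 1
      field_simp
    rw [h5]
    field_simp
    ring
  set f : ℕ → ℝ := fun t => (H (t + 1) - H t) - L / (e + 1) * g t with hf
  have hfg : f =o[atTop] g := by
    have h1 : ∀ᶠ t : ℕ in atTop, g t = 0 → f t = 0 := by
      filter_upwards [eventually_gt_atTop 0] with t ht h0
      exfalso
      have ht0 : (0 : ℝ) < t := by exact_mod_cast ht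
      have : (t : ℝ) ^ (e + 1) < ((t : ℝ) + 1) ^ (e + 1) :=
        pow_lt_pow_left₀ (by linarith) ht0.le (by omega)
      rw [hg] at h0
      simp only at h0
      linarith
    rw [isLittleO_iff_tendsto' h1]
    have h2 : Tendsto (fun t : ℕ => (H (t + 1) - H t) / (t : ℝ) ^ e / (g t / (t : ℝ) ^ e) -
        L / (e + 1)) atTop (𝓝 (L / (e + 1) - L / (e + 1))) :=
      (h.div hratio he.ne').sub tendsto_const_nhds
    rw [sub_self] at h2
    refine h2.congr' ?_
    filter_upwards [eventually_gt_atTop 0] with t ht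
    have ht0 : (0 : ℝ) < t := by exact_mod_cast ht
    have hgt : 0 < g t := by
      have : (t : ℝ) ^ (e + 1) < ((t : ℝ) + 1) ^ (e + 1) :=
        pow_lt_pow_left₀ (by linarith) ht0.le (by omega)
      change 0 < ((t : ℝ) + 1) ^ (e + 1) - (t : ℝ) ^ (e + 1)
      linarith
    have hte : (t : ℝ) ^ e ≠ 0 := (pow_pos ht0 e).ne'
    rw [hf]
    simp only
    rw [div_div_div_cancel_right₀ hte, sub_div (H (t + 1) - H t), mul_div_assoc,
      div_self hgt.ne', mul_one]
  have hatTop : Tendsto (fun n => ∑ t ∈ range n, g t) atTop atTop := by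
    simp only [hgsum]
    exact (tendsto_pow_atTop (by omega)).comp tendsto_natCast_atTop_atTop
  have h3 := hfg.sum_range hg0 hatTop
  have hfsum : ∀ n, ∑ t ∈ range n, f t = H n - H 0 - L / (e + 1) * (n : ℝ) ^ (e + 1) := by
    intro n
    rw [hf]
    simp only
    rw [sum_sub_distrib, ← Finset.mul_sum, hgsum, Finset.sum_range_sub]
  simp only [hgsum, hfsum] at h3
  have h4 := h3.tendsto_div_nhds_zero
  have h5 : Tendsto (fun n : ℕ => H 0 / (n : ℝ) ^ (e + 1)) atTop (𝓝 0) := by
    apply Tendsto.div_atTop tendsto_const_nhds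
    exact (tendsto_pow_atTop (by omega)).comp tendsto_natCast_atTop_atTop
  have h6 := (h4.add h5).add_const (L / (e + 1))
  rw [add_zero, zero_add] at h6
  refine h6.congr' ?_
  filter_upwards [eventually_gt_atTop 0] with t ht
  have ht0 : (0 : ℝ) < t := by exact_mod_cast ht
  have hte : (t : ℝ) ^ (e + 1) ≠ 0 := (pow_pos ht0 _).ne'
  field_simp
  ring

variable {M : ℕ}

/-- The quotient ideal `(J : f)`. -/
noncomputable def col (J : Ideal (Pol M)) (f : Pol M) : Ideal (Pol M) :=
  Submodule.comap (LinearMap.mulLeft (Pol M) f) J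

theorem mem_col {J : Ideal (Pol M)} {f g : Pol M} : g ∈ col J f ↔ f * g ∈ J := Iff.rfl

theorem le_col (J : Ideal (Pol M)) (f : Pol M) : J ≤ col J f := fun _ hg =>
  Ideal.mul_mem_left _ _ hg

theorem component_mul {f : Pol M} {c : ℕ} (hf : f.IsHomogeneous c) (g : Pol M) (t : ℕ) :
    homogeneousComponent (c + t) (f * g) = f * homogeneousComponent t g := by
  classical
  have h0 : f * g = ∑ s ∈ range (g.totalDegree + 1), f * homogeneousComponent s g := by
    rw [← Finset.mul_sum, sum_homogeneousComponent]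
  have h1 : ∀ s, (f * homogeneousComponent s g).IsHomogeneous (c + s) := fun s =>
    hf.mul (homogeneousComponent_isHomogeneous s g)
  rw [h0, map_sum]
  have h2 : ∀ s ∈ range (g.totalDegree + 1),
      homogeneousComponent (c + t) (f * homogeneousComponent s g) =
      if s = t then f * homogeneousComponent s g else 0 := by
    intro s _
    rw [homogeneousComponent_of_mem (h1 s)]
    by_cases h : s = t
    · rw [if_pos h, if_pos (by rw [h])]
    · rw [if_neg h, if_neg (fun h' => h (by omega))]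
  rw [sum_congr rfl h2, sum_ite_eq' (range (g.totalDegree + 1)) t]
  by_cases h : t ∈ range (g.totalDegree + 1)
  · rw [if_pos h]
  · rw [if_neg h]
    rw [mem_range, not_lt] at h
    rw [homogeneousComponent_eq_zero _ _ (by omega), mul_zero]

theorem col_homog {J : Ideal (Pol M)} (hJ : J.IsHomogeneous (homogeneousSubmodule (Fin M) ℚ))
    {f : Pol M} {c : ℕ} (hf : f.IsHomogeneous c) :
    (col J f).IsHomogeneous (homogeneousSubmodule (Fin M) ℚ) := by
  intro t g hg
  have h1 := homogeneousComponent_mem_of_mem hJ (mem_col.1 hg) (c + t)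
  rw [component_mul hf] at h1
  rw [mem_col]
  have h2 : ((DirectSum.decompose (homogeneousSubmodule (Fin M) ℚ) g t : _) : Pol M) =
      homogeneousComponent t g := decomposition.decompose'_apply g t
  rw [h2]
  exact h1

theorem sup_span_homog {J : Ideal (Pol M)}
    (hJ : J.IsHomogeneous (homogeneousSubmodule (Fin M) ℚ)) {f : Pol M} {c : ℕ}
    (hf : f.IsHomogeneous c) :
    (J ⊔ Ideal.span {f}).IsHomogeneous (homogeneousSubmodule (Fin M) ℚ) := by
  apply Ideal.IsHomogeneous.sup hJ
  apply Ideal.homogeneous_span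
  intro g hg
  rw [Set.mem_singleton_iff] at hg
  rw [hg]
  exact ⟨c, hf⟩

/-- Additivity of Hilbert functions. -/
theorem hilb_exact {J : Ideal (Pol M)} (hJ : J.IsHomogeneous (homogeneousSubmodule (Fin M) ℚ))
    {f : Pol M} {c : ℕ} (hf : f.IsHomogeneous c) (t : ℕ) :
    hilb J (c + t) = hilb (col J f) t + hilb (J ⊔ Ideal.span {f}) (c + t) := by
  classical
  set J' := J ⊔ Ideal.span {f} with hJ'
  have hle : J ≤ J' := le_sup_left
  let F : (Pol M ⧸ J) →ₐ[ℚ] (Pol M ⧸ J') := Ideal.Quotient.factorₐ ℚ hle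
  have hF : ∀ g, F (Ideal.Quotient.mk J g) = Ideal.Quotient.mk J' g := fun g => rfl
  let φ : gr J (c + t) →ₗ[ℚ] (Pol M ⧸ J') := F.toLinearMap.domRestrict (gr J (c + t))
  have hrange : LinearMap.range φ = gr J' (c + t) := by
    ext x
    rw [LinearMap.mem_range, mem_gr]
    constructor
    · rintro ⟨⟨y, hy⟩, rfl⟩
      obtain ⟨g, hg, rfl⟩ := mem_gr.1 hy
      exact ⟨g, hg, rfl⟩
    · rintro ⟨g, hg, rfl⟩
      exact ⟨⟨_, mk_mem_gr hg⟩, rfl⟩
  have hdim := φ.finrank_range_add_finrank_ker
  rw [hrange] at hdim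
  -- multiplication by `f`
  let ψ₀ : (Pol M ⧸ col J f) →ₗ[Pol M] (Pol M ⧸ J) :=
    Submodule.mapQ (col J f) J (LinearMap.mulLeft (Pol M) f) le_rfl
  have hψ₀ : ∀ g, ψ₀ (Ideal.Quotient.mk _ g) = Ideal.Quotient.mk J (f * g) := fun g => rfl
  have hmul : ∀ x ∈ gr (col J f) t, ψ₀ x ∈ gr J (c + t) := by
    intro x hx
    obtain ⟨g, hg, rfl⟩ := mem_gr.1 hx
    rw [hψ₀]
    exact mk_mem_gr (hf.mul hg)
  let ψ : gr (col J f) t →ₗ[ℚ] gr J (c + t) :=
    ((ψ₀.restrictScalars ℚ).comp (gr (col J f) t).subtype).codRestrict _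
      (fun x => hmul x.1 x.2)
  have hψ : Function.Injective ψ := by
    rw [injective_iff_map_eq_zero]
    rintro ⟨x, hx⟩ h0
    obtain ⟨g, hg, rfl⟩ := mem_gr.1 hx
    have h1 : Ideal.Quotient.mk J (f * g) = 0 := congrArg (fun y => y.1) h0
    apply Subtype.ext
    change Ideal.Quotient.mk _ g = 0
    rw [Ideal.Quotient.eq_zero_iff_mem] at h1 ⊢
    exact h1
  have hker : LinearMap.ker φ = LinearMap.range ψ := by
    ext x
    rw [LinearMap.mem_ker, LinearMap.mem_range]
    constructor
    · intro h0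
      obtain ⟨x, hx⟩ := x
      obtain ⟨g, hg, rfl⟩ := mem_gr.1 hx
      have h1 : Ideal.Quotient.mk J' g = 0 := h0
      rw [Ideal.Quotient.eq_zero_iff_mem, hJ', Submodule.mem_sup] at h1
      obtain ⟨a, ha, b, hb, hab⟩ := h1
      obtain ⟨q, rfl⟩ := Ideal.mem_span_singleton'.1 hb
      have h2 : g = homogeneousComponent (c + t) a + f * homogeneousComponent t q := by
        rw [← component_mul hf, mul_comm f q, ← map_add, hab]
        rw [homogeneousComponent_of_mem hg, if_pos rfl]
      refine ⟨⟨Ideal.Quotient.mk _ (homogeneousComponent t q),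
        mk_mem_gr (homogeneousComponent_isHomogeneous t q)⟩, ?_⟩
      apply Subtype.ext
      change Ideal.Quotient.mk J (f * homogeneousComponent t q) = Ideal.Quotient.mk J g
      rw [Ideal.Quotient.mk_eq_mk_iff_sub_mem]
      have h3 : f * homogeneousComponent t q - g = -homogeneousComponent (c + t) a := by
        rw [h2]; ring
      rw [h3]
      exact neg_mem (homogeneousComponent_mem_of_mem hJ ha _)
    · rintro ⟨⟨y, hy⟩, rfl⟩
      obtain ⟨g, hg, rfl⟩ := mem_gr.1 hy
      change Ideal.Quotient.mk J' (f * g) = 0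
      rw [Ideal.Quotient.eq_zero_iff_mem]
      exact Ideal.mul_mem_right _ _ (Ideal.mem_sup_right (Ideal.mem_span_singleton_self f))
  have h3 := LinearMap.finrank_range_of_inj hψ
  rw [hker, h3] at hdim
  unfold hilb
  omega

theorem hilb_eq_zero_of_X {P : Ideal (Pol M)} (hP : ∀ i, (X i : Pol M) ∈ P) {t : ℕ} (ht : 1 ≤ t) :
    hilb P t = 0 := by
  unfold hilb
  rw [Submodule.finrank_eq_zero, Submodule.eq_bot_iff]
  intro x hx
  obtain ⟨g, hg, rfl⟩ := mem_gr.1 hx
  rw [Ideal.Quotient.eq_zero_iff_mem]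
  have h1 : Ideal.span (X '' (Set.univ : Set (Fin M)) : Set (Pol M)) ≤ P := by
    rw [Ideal.span_le]
    rintro _ ⟨i, _, rfl⟩
    exact hP i
  apply h1
  rw [mem_ideal_span_X_image]
  intro m hm
  by_contra hcon
  push Not at hcon
  have h2 : m = 0 := by
    ext i
    exact hcon i (Set.mem_univ i)
  have h3 := hg (mem_support_iff.1 hm)
  rw [h2, map_zero] at h3
  omega

/-- Every homogeneous prime lies in the irrelevant ideal. -/
theorem le_irrelevant {P : Ideal (Pol M)} (hPp : P ≠ ⊤)
    (hPh : P.IsHomogeneous (homogeneousSubmodule (Fin M) ℚ)) :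
    P ≤ RingHom.ker (constantCoeff : Pol M →+* ℚ) := by
  intro f hf
  rw [RingHom.mem_ker]
  by_contra h
  apply hPp
  have h1 := homogeneousComponent_mem_of_mem hPh hf 0
  rw [homogeneousComponent_zero] at h1
  rw [Ideal.eq_top_iff_one]
  have h2 := Ideal.mul_mem_left P (C (constantCoeff f)⁻¹) h1
  rw [← map_mul] at h2
  have h3 : (constantCoeff f)⁻¹ * coeff 0 f = 1 := inv_mul_cancel₀ h
  rw [h3, map_one] at h2
  exact h2

theorem hilb_lim (J : Ideal (Pol M)) : J.IsHomogeneous (homogeneousSubmodule (Fin M) ℚ) →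
    ((∀ Q : Ideal (Pol M), Q.IsPrime → Q.IsHomogeneous (homogeneousSubmodule (Fin M) ℚ) → J ≤ Q →
      Algebra.trdeg ℚ (Pol M ⧸ Q) = 0) → ∀ᶠ t in atTop, hilb J t = 0) ∧
    (∀ e : ℕ, (∀ Q : Ideal (Pol M), Q.IsPrime →
      Q.IsHomogeneous (homogeneousSubmodule (Fin M) ℚ) → J ≤ Q →
      Algebra.trdeg ℚ (Pol M ⧸ Q) ≤ ((e + 1 : ℕ) : Cardinal)) →
      ∃ L : ℝ, Tendsto (fun t : ℕ => (hilb J t : ℝ) / (t : ℝ) ^ e) atTop (𝓝 L)) := by
  induction J using IsNoetherian.induction with
  | hgt J ih =>
  change Ideal (Pol M) at J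
  intro hJ
  by_cases hJtop : J = ⊤
  · have h0 : ∀ t, hilb J t = 0 := by
      intro t
      unfold hilb
      rw [Submodule.finrank_eq_zero, Submodule.eq_bot_iff]
      intro x hx
      obtain ⟨g, hg, rfl⟩ := mem_gr.1 hx
      rw [Ideal.Quotient.eq_zero_iff_mem, hJtop]
      trivial
    refine ⟨fun _ => Eventually.of_forall h0, fun e _ => ⟨0, ?_⟩⟩
    simp only [h0, Nat.cast_zero, zero_div]
    exact tendsto_const_nhds
  by_cases hJp : J.IsPrime
  · -- the prime case
    by_cases hX : ∀ i, (X i : Pol M) ∈ J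
    · have h0 : ∀ᶠ t in atTop, hilb J t = 0 := by
        filter_upwards [eventually_ge_atTop 1] with t ht
        exact hilb_eq_zero_of_X hX ht
      refine ⟨fun _ => h0, fun e _ => ⟨0, ?_⟩⟩
      apply tendsto_const_nhds.congr'
      filter_upwards [h0] with t ht
      rw [ht, Nat.cast_zero, zero_div]
    · push Not at hX
      obtain ⟨i, hi⟩ := hX
      have hX1 : (X i : Pol M).IsHomogeneous 1 := isHomogeneous_X _ _
      have hcol : col J (X i) = J := by
        refine le_antisymm (fun g hg => ?_) (le_col _ _)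
        rw [mem_col] at hg
        exact (hJp.mem_or_mem hg).resolve_left hi
      set J' : Ideal (Pol M) := J ⊔ Ideal.span {(X i : Pol M)} with hJ'
      have hgt : J < J' := by
        rw [lt_iff_le_not_ge]
        exact ⟨le_sup_left, fun h => hi (h (Ideal.mem_sup_right
          (Ideal.mem_span_singleton_self _)))⟩
      have hJ'h : J'.IsHomogeneous (homogeneousSubmodule (Fin M) ℚ) := sup_span_homog hJ hX1
      obtain ⟨iha, ihb⟩ := ih J' hgt hJ'h
      have hstep : ∀ t, hilb J (t + 1) = hilb J t + hilb J' (t + 1) := by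
        intro t
        have := hilb_exact hJ hX1 t
        rwa [hcol, add_comm 1 t] at this
      have hpit : ∀ Q ∈ J'.minimalPrimes, Algebra.trdeg ℚ (Pol M ⧸ Q) + 1 =
          Algebra.trdeg ℚ (Pol M ⧸ J) := fun Q hQ => pit hJ hX1 hi hQ
      have hsurj : ∀ Q Q' : Ideal (Pol M), Q' ≤ Q →
          Algebra.trdeg ℚ (Pol M ⧸ Q) ≤ Algebra.trdeg ℚ (Pol M ⧸ Q') := by
        intro Q Q' h
        exact trdeg_le_of_surjective (Ideal.Quotient.factorₐ ℚ h)
          (Ideal.Quotient.factor_surjective h)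
      constructor
      · intro h
        exfalso
        have h1 := h J hJp hJ le_rfl
        have h2 : J' ≤ RingHom.ker (constantCoeff : Pol M →+* ℚ) := by
          rw [hJ', sup_le_iff]
          refine ⟨le_irrelevant hJtop hJ, ?_⟩
          rw [Ideal.span_le, Set.singleton_subset_iff]
          change constantCoeff (X i : Pol M) = 0
          simp
        have hp : (RingHom.ker (constantCoeff : Pol M →+* ℚ)).IsPrime := RingHom.ker_isPrime _
        obtain ⟨Q, hQ, _⟩ := Ideal.exists_minimalPrimes_le h2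
        have h3 := hpit Q hQ
        rw [h1] at h3
        exact absurd h3 (by simp)
      · intro e h
        have h1 := h J hJp hJ le_rfl
        have h2 : ∀ Q : Ideal (Pol M), Q.IsPrime → J' ≤ Q →
            Algebra.trdeg ℚ (Pol M ⧸ Q) ≤ (e : Cardinal) := by
          intro Q hQp hQ
          obtain ⟨Q', hQ', hQ'Q⟩ := Ideal.exists_minimalPrimes_le hQ
          refine (hsurj Q Q' hQ'Q).trans ?_
          have h3 := hpit Q' hQ'
          rw [← h3] at h1
          push_cast at h1
          exact Cardinal.add_one_le_add_one_iff.1 h1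
        cases e with
        | zero =>
          have h3 := iha (fun Q hQp hQh hQ => by
            have := h2 Q hQp hQ
            simpa using this)
          obtain ⟨t₀, ht₀⟩ := eventually_atTop.1 h3
          refine ⟨hilb J t₀, ?_⟩
          apply tendsto_const_nhds.congr'
          filter_upwards [eventually_ge_atTop t₀] with t ht
          have h4 : hilb J t = hilb J t₀ := by
            induction t, ht using Nat.le_induction with
            | base => rfl
            | succ t ht iht => rw [hstep, iht, ht₀ (t + 1) (by omega), add_zero]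
          rw [h4, pow_zero, div_one]
        | succ e =>
          obtain ⟨L, hL⟩ := ihb e (fun Q hQp hQh hQ => h2 Q hQp hQ)
          refine ⟨L / (e + 1), ?_⟩
          apply lim_integrate
          -- shift
          have h4 : Tendsto (fun t : ℕ => (hilb J' (t + 1) : ℝ) / ((t + 1 : ℕ) : ℝ) ^ e) atTop
              (𝓝 L) := hL.comp (tendsto_add_atTop_nat 1)
          have h5 : Tendsto (fun t : ℕ => (((t + 1 : ℕ) : ℝ) / t) ^ e) atTop (𝓝 (1 ^ e)) := by
            apply Tendsto.pow
            have h6 : Tendsto (fun t : ℕ => 1 + ((t : ℝ))⁻¹) atTop (𝓝 (1 + 0)) :=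
              tendsto_const_nhds.add tendsto_inv_atTop_nhds_zero_nat
            rw [add_zero] at h6
            refine h6.congr' ?_
            filter_upwards [eventually_gt_atTop 0] with t ht
            have ht0 : (t : ℝ) ≠ 0 := by
              have : t ≠ 0 := by omega
              exact_mod_cast this
            push_cast
            field_simp
          have h7 := h4.mul h5
          rw [one_pow, mul_one] at h7
          refine h7.congr' ?_
          filter_upwards [eventually_gt_atTop 0] with t ht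
          have ht0 : (t : ℝ) ≠ 0 := by
            have : t ≠ 0 := by omega
            exact_mod_cast this
          have ht1 : ((t + 1 : ℕ) : ℝ) ≠ 0 := by positivity
          rw [hstep t]
          push_cast at *
          rw [div_pow, add_sub_cancel_left]
          field_simp
  · -- the other case
    have h1 : ∃ (f g : Pol M) (c c' : ℕ), f.IsHomogeneous c ∧ g.IsHomogeneous c' ∧ f * g ∈ J ∧
        f ∉ J ∧ g ∉ J := by
      by_contra hcon
      apply hJp
      apply Ideal.IsHomogeneous.isPrime_of_homogeneous_mem_or_mem hJ hJtop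
      rintro x y ⟨c, hx⟩ ⟨c', hy⟩ hxy
      by_contra hcon'
      rw [not_or] at hcon'
      exact hcon ⟨x, y, c, c', hx, hy, hxy, hcon'.1, hcon'.2⟩
    obtain ⟨f, g, c, c', hf, hg, hfg, hfJ, hgJ⟩ := h1
    have hlt1 : J < col J f := by
      rw [lt_iff_le_not_ge]
      exact ⟨le_col _ _, fun h => hgJ (h (mem_col.2 hfg))⟩
    have hlt2 : J < J ⊔ Ideal.span {f} := by
      rw [lt_iff_le_not_ge]
      exact ⟨le_sup_left, fun h => hfJ (h (Ideal.mem_sup_right
        (Ideal.mem_span_singleton_self _)))⟩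
    obtain ⟨iha1, ihb1⟩ := ih _ hlt1 (col_homog hJ hf)
    obtain ⟨iha2, ihb2⟩ := ih _ hlt2 (sup_span_homog hJ hf)
    have hex := hilb_exact hJ hf
    constructor
    · intro h
      have h1 := iha1 fun Q hQp hQh hQ => h Q hQp hQh (hlt1.le.trans hQ)
      have h2 := iha2 fun Q hQp hQh hQ => h Q hQp hQh (hlt2.le.trans hQ)
      obtain ⟨t₁, ht₁⟩ := eventually_atTop.1 h1
      obtain ⟨t₂, ht₂⟩ := eventually_atTop.1 h2
      filter_upwards [eventually_ge_atTop (c + t₁ + t₂)] with t ht
      have h3 := hex (t - c)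
      rw [show c + (t - c) = t by omega] at h3
      rw [h3, ht₁ _ (by omega), ht₂ _ (by omega)]
    · intro e h
      obtain ⟨L₁, hL₁⟩ := ihb1 e fun Q hQp hQh hQ => h Q hQp hQh (hlt1.le.trans hQ)
      obtain ⟨L₂, hL₂⟩ := ihb2 e fun Q hQp hQh hQ => h Q hQp hQh (hlt2.le.trans hQ)
      refine ⟨L₁ + L₂, ?_⟩
      have h4 : Tendsto (fun t : ℕ => (hilb (col J f) (t - c) : ℝ) / ((t - c : ℕ) : ℝ) ^ e) atTop
          (𝓝 L₁) := hL₁.comp (tendsto_sub_atTop_nat c)
      have h5 : Tendsto (fun t : ℕ => (((t - c : ℕ) : ℝ) / t) ^ e) atTop (𝓝 (1 ^ e)) := by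
        apply Tendsto.pow
        have h6 : Tendsto (fun t : ℕ => 1 - (c : ℝ) * ((t : ℝ))⁻¹) atTop (𝓝 (1 - (c : ℝ) * 0)) :=
          tendsto_const_nhds.sub (tendsto_inv_atTop_nhds_zero_nat.const_mul _)
        rw [mul_zero, sub_zero] at h6
        refine h6.congr' ?_
        filter_upwards [eventually_gt_atTop 0, eventually_ge_atTop c] with t ht htc
        have ht0 : (t : ℝ) ≠ 0 := by
          have : t ≠ 0 := by omega
          exact_mod_cast this
        rw [Nat.cast_sub htc]
        field_simp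
      have h7 := (h4.mul h5).add hL₂
      rw [one_pow, mul_one] at h7
      refine h7.congr' ?_
      filter_upwards [eventually_gt_atTop c] with t ht
      have ht0 : (t : ℝ) ≠ 0 := by
        have : t ≠ 0 := by omega
        exact_mod_cast this
      have htc : ((t - c : ℕ) : ℝ) ≠ 0 := by
        have : t - c ≠ 0 := by omega
        exact_mod_cast this
      have h3 := hex (t - c)
      rw [show c + (t - c) = t by omega] at h3
      rw [h3]
      push_cast
      rw [div_pow]
      field_simp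

/-- The degree of a homogeneous prime exists. -/
theorem exists_degree {P : Ideal (Pol M)} {k : ℕ}
    (hPh : P.IsHomogeneous (homogeneousSubmodule (Fin M) ℚ))
    (hP : Algebra.trdeg ℚ (Pol M ⧸ P) = ((k + 1 : ℕ) : Cardinal)) :
    ∃ δ : ℝ, Tendsto (fun t : ℕ => (k.factorial : ℝ) * hilb P t / (t : ℝ) ^ k) atTop (𝓝 δ) := by
  obtain ⟨L, hL⟩ := (hilb_lim P hPh).2 k (by
    intro Q _ _ hPQ
    rw [← hP]
    exact trdeg_le_of_surjective (Ideal.Quotient.factorₐ ℚ hPQ)
      (Ideal.Quotient.factor_surjective hPQ))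
  refine ⟨(k.factorial : ℝ) * L, ?_⟩
  simp only [mul_div_assoc]
  exact hL.const_mul _

end Q272.PSZ
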