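import Pool.Agent.Q272.PSZ.LB

/-! Hilbert functions of homogeneous ideals and hyperplane sections. -/

namespace Q272.PSZ

open MvPolynomial Finset Filter

attribute [local instance] MvPolynomial.gradedAlgebra

/-- Polynomials in `M` variables over `ℚ`. -/
abbrev Pol (M : ℕ) := MvPolynomial (Fin M) ℚ

/-- The graded piece of degree `t` of `ℚ[X]/P`. -/
noncomputable def gr {M : ℕ} (P : Ideal (Pol M)) (t : ℕ) : Submodule ℚ (Pol M ⧸ P) :=
  (homogeneousSubmodule (Fin M) ℚ t).map (Ideal.Quotient.mkₐ ℚ P).toLinearMap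

/-- The Hilbert function. -/
noncomputable def hilb {M : ℕ} (P : Ideal (Pol M)) (t : ℕ) : ℕ := Module.finrank ℚ (gr P t)

variable {M : ℕ}

instance (P : Ideal (Pol M)) (t : ℕ) : FiniteDimensional ℚ (gr P t) :=
  Module.Finite.iff_fg.2 ((homogeneousSubmodule_fg (Fin M) ℚ t).map _)

instance (P : Ideal (Pol M)) (t : ℕ) : Module.Free ℚ (gr P t) :=
  Module.Free.of_divisionRing ℚ (gr P t)

theorem mk_C_mul (P : Ideal (Pol M)) (a : ℚ) (f : Pol M) :
    Ideal.Quotient.mk P (C a * f) = a • Ideal.Quotient.mk P f := by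
  rw [← MvPolynomial.smul_eq_C_mul]
  rfl

theorem mem_gr {P : Ideal (Pol M)} {t : ℕ} {x : Pol M ⧸ P} :
    x ∈ gr P t ↔ ∃ f : Pol M, f.IsHomogeneous t ∧ Ideal.Quotient.mk P f = x := by
  unfold gr
  rw [Submodule.mem_map]
  rfl

theorem mk_mem_gr {P : Ideal (Pol M)} {t : ℕ} {f : Pol M} (hf : f.IsHomogeneous t) :
    Ideal.Quotient.mk P f ∈ gr P t := mem_gr.2 ⟨f, hf, rfl⟩

theorem hilb_succ {P : Ideal (Pol M)} [hP : P.IsPrime] {ℓ : Pol M} (hℓ : ℓ.IsHomogeneous 1)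
    (hℓP : ℓ ∉ P) (t : ℕ) :
    hilb P t + hilb (P ⊔ Ideal.span {ℓ}) (t + 1) ≤ hilb P (t + 1) := by
  classical
  set J := P ⊔ Ideal.span {ℓ} with hJ
  have hPJ : P ≤ J := le_sup_left
  let f : (Pol M ⧸ P) →ₐ[ℚ] (Pol M ⧸ J) := Ideal.Quotient.factorₐ ℚ hPJ
  have hf : ∀ g, f (Ideal.Quotient.mk P g) = Ideal.Quotient.mk J g := fun g => rfl
  let φ : gr P (t + 1) →ₗ[ℚ] (Pol M ⧸ J) := f.toLinearMap.domRestrict (gr P (t + 1))
  have hrange : LinearMap.range φ = gr J (t + 1) := by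
    ext x
    rw [LinearMap.mem_range, mem_gr]
    constructor
    · rintro ⟨⟨y, hy⟩, rfl⟩
      obtain ⟨g, hg, rfl⟩ := mem_gr.1 hy
      exact ⟨g, hg, rfl⟩
    · rintro ⟨g, hg, rfl⟩
      exact ⟨⟨_, mk_mem_gr hg⟩, rfl⟩
  have hdim := φ.finrank_range_add_finrank_ker
  rw [hrange] at hdim
  -- multiplication by `ℓ`
  have hmul : ∀ x ∈ gr P t, Ideal.Quotient.mk P ℓ * x ∈ gr P (t + 1) := by
    intro x hx
    obtain ⟨g, hg, rfl⟩ := mem_gr.1 hx
    rw [← map_mul]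
    apply mk_mem_gr
    have := hℓ.mul hg
    rwa [add_comm 1 t] at this
  let ψ₀ : gr P t →ₗ[ℚ] gr P (t + 1) :=
    ((LinearMap.mulLeft ℚ (Ideal.Quotient.mk P ℓ)).comp (gr P t).subtype).codRestrict _
      (fun x => hmul x.1 x.2)
  have hψ₀ : ∀ x, φ (ψ₀ x) = 0 := by
    intro x
    change f (Ideal.Quotient.mk P ℓ * x.1) = 0
    rw [map_mul, hf, Ideal.Quotient.eq_zero_iff_mem.2
      (Ideal.mem_sup_right (Ideal.mem_span_singleton_self ℓ)), zero_mul]
  let ψ : gr P t →ₗ[ℚ] LinearMap.ker φ := ψ₀.codRestrict _ hψ₀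
  have hψ : Function.Injective ψ := by
    rw [injective_iff_map_eq_zero]
    intro x hx
    have h1 : Ideal.Quotient.mk P ℓ * x.1 = 0 := by
      have := congrArg (fun y => y.1.1) hx
      exact this
    rcases mul_eq_zero.1 h1 with h2 | h2
    · exact absurd (Ideal.Quotient.eq_zero_iff_mem.1 h2) hℓP
    · exact Subtype.ext h2
  have h3 := LinearMap.finrank_le_finrank_of_injective hψ
  unfold hilb
  omega

theorem exists_separating {ι : Type} [Fintype ι] [DecidableEq ι] {Q : ι → Ideal (Pol M)}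
    (hQp : ∀ i, (Q i).IsPrime)
    (hQh : ∀ i, (Q i).IsHomogeneous (homogeneousSubmodule (Fin M) ℚ))
    (hinc : ∀ i j, i ≠ j → ¬ Q j ≤ Q i) (i : ι) :
    ∃ (c : ℕ) (f : Pol M), f.IsHomogeneous c ∧ f ∉ Q i ∧ ∀ j, j ≠ i → f ∈ Q j := by
  have h1 : ∀ j, ∃ (c : ℕ) (f : Pol M), f.IsHomogeneous c ∧ f ∉ Q i ∧ (j ≠ i → f ∈ Q j) := by
    intro j
    by_cases hji : j = i
    · refine ⟨0, 1, isHomogeneous_one _ _, ?_, fun h => absurd hji h⟩
      exact (Ideal.ne_top_iff_one _).1 (hQp i).ne_top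
    · obtain ⟨f, hf, hfi⟩ := Set.not_subset.1 (hinc i j (fun h => hji h.symm))
      obtain ⟨t, ht⟩ : ∃ t, homogeneousComponent t f ∉ Q i := by
        by_contra hcon
        push Not at hcon
        exact hfi ((mem_iff_homogeneousComponent_mem (hQh i) f).2 hcon)
      exact ⟨t, _, homogeneousComponent_isHomogeneous t f, ht,
        fun _ => homogeneousComponent_mem_of_mem (hQh j) hf t⟩
  choose c f hf hfi hfj using h1
  refine ⟨∑ j, c j, ∏ j, f j, IsHomogeneous.prod _ _ _ fun j _ => hf j, ?_, ?_⟩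
  · intro h
    obtain ⟨j, _, hj⟩ := ((hQp i).prod_mem_iff).1 h
    exact hfi j hj
  · intro j hj
    exact Ideal.mem_of_dvd _ (Finset.dvd_prod_of_mem f (mem_univ j)) (hfj j hj)

theorem hilb_sum_le {ι : Type} [Fintype ι] [DecidableEq ι] {Q : ι → Ideal (Pol M)}
    (hQp : ∀ i, (Q i).IsPrime)
    (hQh : ∀ i, (Q i).IsHomogeneous (homogeneousSubmodule (Fin M) ℚ))
    (hinc : ∀ i j, i ≠ j → ¬ Q j ≤ Q i) {J : Ideal (Pol M)} (hJ : ∀ i, J ≤ Q i) :
    ∃ c : ι → ℕ, ∀ t, (∀ i, c i ≤ t) → ∑ i, hilb (Q i) (t - c i) ≤ hilb J t := by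
  classical
  choose c f hf hfi hfj using exists_separating hQp hQh hinc
  refine ⟨c, fun t ht => ?_⟩
  -- lifts of bases
  have hb : ∀ i, ∃ g : Fin (hilb (Q i) (t - c i)) → Pol M, (∀ k, (g k).IsHomogeneous (t - c i)) ∧
      ∀ a : Fin (hilb (Q i) (t - c i)) → ℚ, ∑ k, C (a k) * g k ∈ Q i → ∀ k, a k = 0 := by
    intro i
    set b := Module.finBasis ℚ (gr (Q i) (t - c i)) with hbdef
    have h1 : ∀ k, ∃ g : Pol M, g.IsHomogeneous (t - c i) ∧ Ideal.Quotient.mk (Q i) g = (b k).1 :=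
      fun k => mem_gr.1 (b k).2
    choose g hg hgb using h1
    refine ⟨g, hg, fun a ha => ?_⟩
    have h2 := b.linearIndependent
    rw [Fintype.linearIndependent_iff] at h2
    apply h2 a
    apply Subtype.ext
    rw [Submodule.coe_sum, Submodule.coe_zero]
    rw [← Ideal.Quotient.eq_zero_iff_mem, map_sum] at ha
    rw [← ha]
    refine sum_congr rfl fun k _ => ?_
    rw [Submodule.coe_smul, ← hgb k, mk_C_mul]
  choose g hg hgi using hb
  let v : (Σ i, Fin (hilb (Q i) (t - c i))) → gr J t := fun x =>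
    ⟨Ideal.Quotient.mk J (f x.1 * g x.1 x.2), mk_mem_gr (by
      have := (hf x.1).mul (hg x.1 x.2)
      rwa [Nat.add_sub_cancel' (ht x.1)] at this)⟩
  have hv : LinearIndependent ℚ v := by
    rw [Fintype.linearIndependent_iff]
    intro a ha x
    have h1 : Ideal.Quotient.mk J (∑ y, C (a y) * (f y.1 * g y.1 y.2)) = 0 := by
      have h2 := congrArg (fun z : gr J t => z.1) ha
      simp only [Submodule.coe_sum, Submodule.coe_zero] at h2
      rw [← h2, map_sum]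
      refine sum_congr rfl fun y _ => ?_
      rw [Submodule.coe_smul, mk_C_mul]
    rw [Ideal.Quotient.eq_zero_iff_mem] at h1
    obtain ⟨i, k⟩ := x
    have h3 := hJ i h1
    rw [Fintype.sum_sigma, ← Finset.add_sum_erase _ _ (mem_univ i)] at h3
    have h4 : ∑ j ∈ univ.erase i, ∑ k, C (a ⟨j, k⟩) * (f j * g j k) ∈ Q i := by
      refine Ideal.sum_mem _ fun j hj => Ideal.sum_mem _ fun k _ => ?_
      apply Ideal.mul_mem_left
      apply Ideal.mul_mem_right
      exact hfj j i (ne_of_mem_erase hj).symm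
    have h5 := (Ideal.add_mem_iff_left _ h4).1 h3
    have h6 : f i * ∑ k, C (a ⟨i, k⟩) * g i k ∈ Q i := by
      have : f i * ∑ k, C (a ⟨i, k⟩) * g i k = ∑ k, C (a ⟨i, k⟩) * (f i * g i k) := by
        rw [Finset.mul_sum]
        refine sum_congr rfl fun k _ => by ring
      rw [this]
      exact h5
    exact hgi i (fun k => a ⟨i, k⟩) (((hQp i).mem_or_mem h6).resolve_left (hfi i)) k
  have h7 := hv.fintype_card_le_finrank
  rw [Fintype.card_sigma] at h7
  simp only [Fintype.card_fin] at h7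
  exact h7

/-- Degrees of the components of a hyperplane section. -/
theorem LB_section {P : Ideal (Pol M)} [hP : P.IsPrime] {ℓ : Pol M} (hℓ : ℓ.IsHomogeneous 1)
    (hℓP : ℓ ∉ P) {ι : Type} [Fintype ι] {Q : ι → Ideal (Pol M)}
    (hQp : ∀ i, (Q i).IsPrime)
    (hQh : ∀ i, (Q i).IsHomogeneous (homogeneousSubmodule (Fin M) ℚ))
    (hinc : ∀ i j, i ≠ j → ¬ Q j ≤ Q i) (hJ : ∀ i, P ⊔ Ideal.span {ℓ} ≤ Q i)
    {e : ℕ} {q : ι → ℝ} (hLB : ∀ i, LB (hilb (Q i)) e (q i)) : LB (hilb P) (e + 1) (∑ i, q i) := by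
  classical
  obtain ⟨c, hc⟩ := hilb_sum_le hQp hQh hinc hJ
  have h1 : LB (fun t => ∑ i, hilb (Q i) (t - c i)) e (∑ i, q i) :=
    LB.sum univ fun i _ => (hLB i).shift (c i)
  have h2 : LB (hilb (P ⊔ Ideal.span {ℓ})) e (∑ i, q i) := by
    refine h1.mono le_rfl ?_
    filter_upwards [eventually_ge_atTop (∑ i, c i)] with t ht
    exact hc t fun i => (Finset.single_le_sum (fun _ _ => Nat.zero_le _) (mem_univ i)).trans ht
  exact h2.integrate fun t => hilb_succ hℓ hℓP t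

end Q272.PSZ
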