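import Mathlib

/-! Asymptotic lower bounds of polynomial type. -/

namespace Q272.PSZ

open Finset Filter Topology

/-- `h(t) ≥ (q - o(1)) t^e / e!`. -/
def LB (h : ℕ → ℕ) (e : ℕ) (q : ℝ) : Prop :=
  ∀ q' < q, ∀ᶠ t : ℕ in atTop, q' * (t : ℝ) ^ e ≤ (e.factorial : ℝ) * h t

theorem LB.mono {h h' : ℕ → ℕ} {e : ℕ} {q q' : ℝ} (H : LB h e q) (hq : q' ≤ q)
    (hh : ∀ᶠ t in atTop, h t ≤ h' t) : LB h' e q' := by
  intro r hr
  filter_upwards [H r (hr.trans_le hq), hh] with t h1 h2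
  refine h1.trans ?_
  have : (h t : ℝ) ≤ h' t := by exact_mod_cast h2
  exact mul_le_mul_of_nonneg_left this (Nat.cast_nonneg _)

theorem LB.of_nonpos (h : ℕ → ℕ) (e : ℕ) {q : ℝ} (hq : q ≤ 0) : LB h e q := by
  intro r hr
  refine Eventually.of_forall fun t => ?_
  have h1 : r * (t : ℝ) ^ e ≤ 0 := mul_nonpos_of_nonpos_of_nonneg (hr.le.trans hq) (by positivity)
  exact h1.trans (by positivity)

theorem LB.sum {ι : Type*} (s : Finset ι) {h : ι → ℕ → ℕ} {e : ℕ} {q : ι → ℝ}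
    (H : ∀ i ∈ s, LB (h i) e (q i)) : LB (fun t => ∑ i ∈ s, h i t) e (∑ i ∈ s, q i) := by
  intro r hr
  set δ : ℝ := (∑ i ∈ s, q i - r) / (s.card + 1) with hδ
  have hδ0 : 0 < δ := div_pos (sub_pos.2 hr) (by positivity)
  have h1 : ∀ᶠ t : ℕ in atTop, ∀ i ∈ s, (q i - δ) * (t : ℝ) ^ e ≤ (e.factorial : ℝ) * h i t :=
    (Finset.eventually_all s).2 fun i hi => H i hi (q i - δ) (by linarith)
  filter_upwards [h1] with t ht
  have h2 := Finset.sum_le_sum ht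
  rw [← Finset.mul_sum, ← Finset.sum_mul, Finset.sum_sub_distrib, Finset.sum_const,
    nsmul_eq_mul] at h2
  push_cast
  refine le_trans ?_ h2
  apply mul_le_mul_of_nonneg_right _ (by positivity)
  have h3 : (s.card + 1 : ℝ) * δ = ∑ i ∈ s, q i - r := by
    rw [hδ, mul_div_cancel₀]
    positivity
  nlinarith

theorem LB.shift {h : ℕ → ℕ} {e : ℕ} {q : ℝ} (H : LB h e q) (c : ℕ) :
    LB (fun t => h (t - c)) e q := by
  intro r hr
  by_cases hr0 : r < 0
  · exact LB.of_nonpos _ _ le_rfl r hr0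
  rw [not_lt] at hr0
  -- choose `r < r' < q`
  obtain ⟨r', hr1, hr2⟩ := exists_between hr
  have hr'0 : 0 < r' := lt_of_le_of_lt hr0 hr1
  have h1 : ∀ᶠ t : ℕ in atTop, r' * ((t - c : ℕ) : ℝ) ^ e ≤ (e.factorial : ℝ) * h (t - c) :=
    (tendsto_sub_atTop_nat c).eventually (H r' hr2)
  have h2 : Tendsto (fun t : ℕ => (1 - (c : ℝ) / t) ^ e) atTop (𝓝 1) := by
    have : Tendsto (fun t : ℕ => (1 - (c : ℝ) / t)) atTop (𝓝 (1 - 0)) :=
      tendsto_const_nhds.sub (tendsto_const_div_atTop_nhds_zero_nat _)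
    simpa using this.pow e
  have h3 : ∀ᶠ t : ℕ in atTop, r / r' < (1 - (c : ℝ) / t) ^ e :=
    h2.eventually (lt_mem_nhds (by rw [div_lt_one hr'0]; exact hr1))
  filter_upwards [h1, h3, eventually_ge_atTop (c + 1)] with t h4 h5 h6
  refine le_trans ?_ h4
  have ht0 : (0 : ℝ) < t := by
    have : 0 < t := by omega
    exact_mod_cast this
  have h7 : ((t - c : ℕ) : ℝ) = t * (1 - (c : ℝ) / t) := by
    rw [Nat.cast_sub (by omega)]
    field_simp
  rw [h7, mul_pow]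
  rw [div_lt_iff₀ hr'0] at h5
  nlinarith [pow_pos ht0 e]

theorem pow_succ_sub_le (e s : ℕ) :
    ((s + 1 : ℕ) : ℝ) ^ (e + 1) - (s : ℝ) ^ (e + 1) ≤ (e + 1) * ((s + 1 : ℕ) : ℝ) ^ e := by
  induction e with
  | zero => push_cast; simp
  | succ e ih =>
    have h1 : (s : ℝ) ^ (e + 2) = s * (s : ℝ) ^ (e + 1) := by ring
    have h2 : ((s + 1 : ℕ) : ℝ) ^ (e + 2) = ((s + 1 : ℕ) : ℝ) ^ (e + 1) * (s + 1) := by
      push_cast; ring
    have h3 : ((s + 1 : ℕ) : ℝ) ^ (e + 1) = ((s + 1 : ℕ) : ℝ) ^ e * (s + 1) := by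
      push_cast; ring
    rw [show e + 1 + 1 = e + 2 by ring, h1, h2]
    push_cast at *
    nlinarith [pow_nonneg (Nat.cast_nonneg (α := ℝ) s) (e + 1), Nat.cast_nonneg (α := ℝ) s,
      pow_nonneg (show (0:ℝ) ≤ (s:ℝ) + 1 by positivity) e]

theorem LB.integrate {h H : ℕ → ℕ} {e : ℕ} {q : ℝ} (hh : LB h e q)
    (hH : ∀ t, H t + h (t + 1) ≤ H (t + 1)) : LB H (e + 1) q := by
  intro r hr
  by_cases hr0 : r < 0
  · exact LB.of_nonpos _ _ le_rfl r hr0
  rw [not_lt] at hr0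
  obtain ⟨r', hr1, hr2⟩ := exists_between hr
  have hr'0 : 0 < r' := lt_of_le_of_lt hr0 hr1
  obtain ⟨t₀, ht₀⟩ := eventually_atTop.1 (hh r' hr2)
  have key : ∀ t, t₀ ≤ t → r' * ((t : ℝ) ^ (e + 1) - (t₀ : ℝ) ^ (e + 1)) ≤
      ((e + 1).factorial : ℝ) * H t := by
    intro t ht
    induction t, ht using Nat.le_induction with
    | base => rw [sub_self, mul_zero]; positivity
    | succ t ht ih =>
      have h1 := ht₀ (t + 1) (by omega)
      have h2 := pow_succ_sub_le e t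
      have h3 : (H t : ℝ) + h (t + 1) ≤ H (t + 1) := by exact_mod_cast hH t
      have h4 : ((e + 1).factorial : ℝ) = (e + 1) * e.factorial := by
        rw [Nat.factorial_succ]; push_cast; ring
      calc r' * (((t + 1 : ℕ) : ℝ) ^ (e + 1) - (t₀ : ℝ) ^ (e + 1))
          = r' * ((t : ℝ) ^ (e + 1) - (t₀ : ℝ) ^ (e + 1)) +
            r' * (((t + 1 : ℕ) : ℝ) ^ (e + 1) - (t : ℝ) ^ (e + 1)) := by ring
        _ ≤ ((e + 1).factorial : ℝ) * H t + r' * ((e + 1) * ((t + 1 : ℕ) : ℝ) ^ e) :=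
            add_le_add ih (mul_le_mul_of_nonneg_left h2 hr'0.le)
        _ = ((e + 1).factorial : ℝ) * H t + (e + 1) * (r' * ((t + 1 : ℕ) : ℝ) ^ e) := by ring
        _ ≤ ((e + 1).factorial : ℝ) * H t + (e + 1) * ((e.factorial : ℝ) * h (t + 1)) := by
            have : (0:ℝ) ≤ (e : ℝ) + 1 := by positivity
            linarith [mul_le_mul_of_nonneg_left h1 this]
        _ = ((e + 1).factorial : ℝ) * (H t + h (t + 1)) := by rw [h4]; ring
        _ ≤ ((e + 1).factorial : ℝ) * H (t + 1) :=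
            mul_le_mul_of_nonneg_left h3 (Nat.cast_nonneg _)
  -- conclude
  have h2 : Tendsto (fun t : ℕ => (r' - r) * (t : ℝ) ^ (e + 1)) atTop atTop := by
    apply Tendsto.const_mul_atTop (sub_pos.2 hr1)
    exact (tendsto_pow_atTop (by omega)).comp tendsto_natCast_atTop_atTop
  filter_upwards [h2.eventually_ge_atTop (r' * (t₀ : ℝ) ^ (e + 1)), eventually_ge_atTop t₀]
    with t h3 h4
  have h5 := key t h4
  linarith

theorem LB.le_of_tendsto {h : ℕ → ℕ} {e : ℕ} {q δ : ℝ} (H : LB h e q)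
    (hδ : Tendsto (fun t : ℕ => (e.factorial : ℝ) * h t / (t : ℝ) ^ e) atTop (𝓝 δ)) : q ≤ δ := by
  apply le_of_forall_lt
  intro r hr
  obtain ⟨r', hr1, hr2⟩ := exists_between hr
  refine lt_of_lt_of_le hr1 ?_
  refine ge_of_tendsto hδ ?_
  filter_upwards [H r' hr2, eventually_ge_atTop 1] with t h1 h2
  have ht : (0 : ℝ) < t := by
    have : 0 < t := h2
    exact_mod_cast this
  rw [le_div_iff₀ (pow_pos ht e)]
  exact h1

end Q272.PSZ
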