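import Pool.Agent.Q272.PSZ.Minima

/-! The product of the successive minima of `x^⊥` is at most a constant times `|x|`. -/

namespace Q272.PSZ

open Finset Module

variable {M : ℕ} {x : Fin M → ℤ}

theorem prod_nm_av (hx : x ≠ 0) (hM : 2 ≤ M) :
    ∏ m ∈ range (M - 1), nm (av x m) ≤ M * 2 ^ (M - 1) * nm x := by
  classical
  set N := M - 1 with hN
  set A : ℕ → ℕ := fun m => nm (av x m) with hA
  have hApos : ∀ m, m + 2 ≤ M → 0 < A m := fun m hm => nm_av_pos hx m hm
  set T := A (N - 1) with hT
  have hTpos : 0 < T := hApos _ (by omega)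
  have hAT : ∀ m, m + 2 ≤ M → A m ≤ T := fun m hm => nm_av_mono hx (by omega) (by omega)
  have hex : ∀ m, m + 2 ≤ M → ∃ k, T ≤ 2 ^ k * A m := by
    intro m hm
    refine ⟨T, ?_⟩
    calc T ≤ 2 ^ T := Nat.lt_two_pow_self.le
      _ = 2 ^ T * 1 := (mul_one _).symm
      _ ≤ 2 ^ T * A m := Nat.mul_le_mul_left _ (hApos m hm)
  set k : ℕ → ℕ := fun m => if h : ∃ k, T ≤ 2 ^ k * A m then Nat.find h else 0 with hk
  have hk1 : ∀ m, m + 2 ≤ M → T ≤ 2 ^ k m * A m := by
    intro m hm
    have h := hex m hm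
    simp only [hk, dif_pos h]
    exact Nat.find_spec h
  have hkmin : ∀ m j, m + 2 ≤ M → T ≤ 2 ^ j * A m → k m ≤ j := by
    intro m j hm hj
    have h := hex m hm
    simp only [hk, dif_pos h]
    exact Nat.find_min' h hj
  have hk2 : ∀ m, m + 2 ≤ M → 2 ^ k m * A m ≤ 2 * T := by
    intro m hm
    rcases Nat.eq_zero_or_pos (k m) with h0 | h0
    · rw [h0, pow_zero, one_mul]
      have := hAT m hm
      omega
    · have h1 : ¬ T ≤ 2 ^ (k m - 1) * A m := by
        intro h
        have := hkmin m _ hm h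
        omega
      rw [not_le] at h1
      have h2 : 2 ^ k m = 2 * 2 ^ (k m - 1) := by
        rw [← pow_succ']
        congr 1
        omega
      rw [h2, mul_assoc]
      omega
  have hkmono : ∀ i j, i ≤ j → j + 2 ≤ M → k j ≤ k i := by
    intro i j hij hj
    apply hkmin j _ hj
    refine (hk1 i (by omega)).trans ?_
    exact Nat.mul_le_mul_left _ (nm_av_mono hx hij hj)
  set q : ℕ → ℕ := fun m => 2 ^ k m with hq
  have hqdiv : ∀ i j, i ≤ j → j + 2 ≤ M → q j ∣ q i := fun i j hij hj =>
    pow_dvd_pow 2 (hkmono i j hij hj)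
  have hqpos : ∀ i, 0 < q i := fun i => pow_pos (by norm_num) _
  -- the box
  let U : Finset (Fin M → ℤ) := Fintype.piFinset fun _ => Finset.Ico (0:ℤ) T
  have hU : U.card = T ^ M := by
    rw [Fintype.card_piFinset]
    simp
  have hmemU : ∀ u ∈ U, ∀ i, 0 ≤ u i ∧ u i ≤ T - 1 := by
    intro u hu i
    have := Fintype.mem_piFinset.1 hu i
    rw [mem_Ico] at this
    omega
  let s : (Fin M → ℤ) → ℤ := fun u => ∑ i, u i * x i
  set lo : ℤ := ∑ i, min 0 (((T:ℤ) - 1) * x i) with hlo
  set hi : ℤ := ∑ i, max 0 (((T:ℤ) - 1) * x i) with hhi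
  have hs : ∀ u ∈ U, s u ∈ Finset.Icc lo hi := by
    intro u hu
    rw [mem_Icc]
    constructor
    · apply Finset.sum_le_sum
      intro i _
      obtain ⟨h1, h2⟩ := hmemU u hu i
      rcases le_total 0 (x i) with h | h
      · exact (min_le_left _ _).trans (mul_nonneg h1 h)
      · exact (min_le_right _ _).trans (mul_le_mul_of_nonpos_right h2 h)
    · apply Finset.sum_le_sum
      intro i _
      obtain ⟨h1, h2⟩ := hmemU u hu i
      rcases le_total 0 (x i) with h | h
      · exact le_trans (mul_le_mul_of_nonneg_right h2 h) (le_max_right _ _)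
      · exact le_trans (mul_nonpos_of_nonneg_of_nonpos h1 h) (le_max_left _ _)
  have hcount : (Finset.Icc lo hi).card ≤ T * (M * nm x) := by
    rw [Int.card_Icc]
    have h1 : hi - lo ≤ (T - 1) * (M * nm x) := by
      rw [hlo, hhi, ← Finset.sum_sub_distrib]
      have h2 : ∀ i ∈ (univ : Finset (Fin M)), max 0 (((T:ℤ) - 1) * x i) -
          min 0 (((T:ℤ) - 1) * x i) ≤ ((T:ℤ) - 1) * nm x := by
        intro i _
        have h3 : (0:ℤ) ≤ (T:ℤ) - 1 := by omega
        have h4 : |x i| ≤ nm x := by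
          have := le_nm x i
          rw [Int.abs_eq_natAbs]
          exact_mod_cast this
        have h5 : max 0 (((T:ℤ) - 1) * x i) - min 0 (((T:ℤ) - 1) * x i) = |((T:ℤ) - 1) * x i| := by
          rw [max_sub_min_eq_abs]
          congr 1
          ring
        rw [h5, abs_mul, abs_of_nonneg h3]
        exact mul_le_mul_of_nonneg_left h4 h3
      have h3 := Finset.sum_le_sum h2
      rw [Finset.sum_const, card_univ, Fintype.card_fin, nsmul_eq_mul] at h3
      refine h3.trans (le_of_eq (by ring))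
    have h2 : 1 ≤ M * nm x := Nat.one_le_iff_ne_zero.2 (Nat.mul_ne_zero (by omega) (nm_pos hx).ne')
    have h2' : (1:ℤ) ≤ (M:ℤ) * nm x := by exact_mod_cast h2
    have h3 : hi + 1 - lo ≤ T * (M * nm x) := by
      have : ((T:ℤ) - 1) * (M * nm x) + 1 ≤ T * (M * nm x) := by nlinarith
      linarith
    rw [Int.toNat_le]
    push_cast
    exact h3
  have hfib : ∀ c ∈ Finset.Icc lo hi, (U.filter fun u => s u = c).card ≤ ∏ i ∈ range N, q i := by
    intro c _
    rcases (U.filter fun u => s u = c).eq_empty_or_nonempty with h0 | ⟨u₀, hu₀⟩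
    · rw [h0, card_empty]; exact Nat.zero_le _
    have hu₀' := mem_filter.1 hu₀
    have hinj : Function.Injective fun u : Fin M → ℤ => u - u₀ := sub_left_injective
    rw [← Finset.card_image_of_injective _ hinj]
    apply card_le hx q hqpos hqdiv N (by omega)
    · intro z hz
      obtain ⟨u, hu, rfl⟩ := mem_image.1 hz
      have hu' := mem_filter.1 hu
      have h1 : u - u₀ ∈ perp x := by
        rw [mem_perp]
        have h2 : ∑ i, (u - u₀) i * x i = s u - s u₀ := by
          change _ = ∑ i, u i * x i - ∑ i, u₀ i * x i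
          rw [← Finset.sum_sub_distrib]
          refine sum_congr rfl fun i _ => ?_
          rw [Pi.sub_apply, sub_mul]
        rw [h2, hu'.2, hu₀'.2, sub_self]
      refine ⟨h1, ?_⟩
      rw [fl_top hx N (by omega)]
      exact cq_mem_perpQ.2 h1
    · intro z hz z' hz' hne i hi' v hv hvn heq
      obtain ⟨u, hu, rfl⟩ := mem_image.1 hz
      obtain ⟨w, hw, rfl⟩ := mem_image.1 hz'
      have hcancel : u - u₀ - (w - u₀) = u - w := by abel
      rw [hcancel] at heq
      have hvi : cq v ∉ fl x i := fun h => hvn ⟨hv.1, h⟩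
      have h1 : A i ≤ nm v := nm_av_le hv.1 hvi
      have h2 : nm (u - w) = q i * nm v := by
        rw [heq, nm_smul, Int.natAbs_natCast]
      have h3 : T ≤ nm (u - w) := by
        rw [h2]
        exact (hk1 i (by omega)).trans (Nat.mul_le_mul_left _ h1)
      have h4 : nm (u - w) ≤ T - 1 := by
        apply nm_le
        intro j
        have h5 := hmemU u (mem_filter.1 hu).1 j
        have h6 := hmemU w (mem_filter.1 hw).1 j
        rw [Pi.sub_apply]
        omega
      omega
  have hmain : T ^ M ≤ T * (M * nm x) * ∏ i ∈ range N, q i := by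
    rw [← hU]
    calc U.card = ∑ c ∈ Finset.Icc lo hi, (U.filter fun u => s u = c).card :=
          Finset.card_eq_sum_card_fiberwise hs
      _ ≤ ∑ c ∈ Finset.Icc lo hi, ∏ i ∈ range N, q i := Finset.sum_le_sum hfib
      _ = (Finset.Icc lo hi).card * ∏ i ∈ range N, q i := by rw [Finset.sum_const, smul_eq_mul]
      _ ≤ _ := Nat.mul_le_mul_right _ hcount
  have hqA : ∏ i ∈ range N, (q i * A i) ≤ (2 * T) ^ N := by
    calc ∏ i ∈ range N, (q i * A i) ≤ ∏ i ∈ range N, (2 * T) := by
          apply Finset.prod_le_prod'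
          intro i hi'
          rw [mem_range] at hi'
          exact hk2 i (by omega)
      _ = (2 * T) ^ N := by rw [prod_const, card_range]
  have hTM : T ^ M = T * T ^ N := by
    rw [← pow_succ']
    congr 1
    omega
  have hfinal : T ^ M * ∏ i ∈ range N, A i ≤ T ^ M * (M * 2 ^ N * nm x) := by
    calc T ^ M * ∏ i ∈ range N, A i ≤ (T * (M * nm x) * ∏ i ∈ range N, q i) *
          ∏ i ∈ range N, A i := Nat.mul_le_mul_right _ hmain
      _ = T * (M * nm x) * ∏ i ∈ range N, (q i * A i) := by
          rw [Finset.prod_mul_distrib, mul_assoc]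
      _ ≤ T * (M * nm x) * (2 * T) ^ N := Nat.mul_le_mul_left _ hqA
      _ = T ^ M * (M * 2 ^ N * nm x) := by rw [hTM, mul_pow]; ring
  exact Nat.le_of_mul_le_mul_left hfinal (pow_pos hTpos M)

end Q272.PSZ
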