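import Pool.Agent.Q272.PSZ.Types
import Pool.Agent.Q272.PSZ.Est
import Pool.Agent.Q272.PSZ.ProdBound

/-! The counting theorem. -/

namespace Q272.PSZ

open MvPolynomial Finset Filter Topology

attribute [local instance] MvPolynomial.gradedAlgebra

/-- The sizes of the vectors of the flag on a dyadic scale. -/
noncomputable def typ {M : ℕ} (x : Fin M → ℤ) (j : ℕ) : ℕ :=
  if j + 2 ≤ M then Nat.log 2 (nm (av x j)) else 0

theorem typ_adm {M : ℕ} {x : Fin M → ℤ} (hx : x ≠ 0) (hM : 2 ≤ M) {b : ℕ} (hb : nm x ≤ b) :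
    Adm (M - 1) (Nat.log 2 (M * 2 ^ (M - 1) * b)) (typ x) := by
  refine ⟨?_, ?_, ?_⟩
  · intro i j hij hj
    unfold typ
    rw [if_pos (by omega), if_pos (by omega)]
    exact Nat.log_mono_right (nm_av_mono hx hij (by omega))
  · intro j hj
    unfold typ
    rw [if_neg (by omega)]
  · have h0 := nm_pos hx
    apply Nat.le_log_of_pow_le (by norm_num)
    rw [← Finset.prod_pow_eq_pow_sum]
    calc ∏ i ∈ range (M - 1), 2 ^ typ x i ≤ ∏ i ∈ range (M - 1), nm (av x i) := by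
          apply Finset.prod_le_prod'
          intro i hi
          rw [mem_range] at hi
          unfold typ
          rw [if_pos (by omega)]
          exact Nat.pow_log_le_self 2 (nm_av_pos hx i (by omega)).ne'
      _ ≤ M * 2 ^ (M - 1) * nm x := prod_nm_av hx hM
      _ ≤ _ := Nat.mul_le_mul_left _ hb

theorem degree_nonneg {M : ℕ} {P : Ideal (Pol M)} {k : ℕ} {δ : ℝ}
    (h : Tendsto (fun t : ℕ => (k.factorial : ℝ) * hilb P t / (t : ℝ) ^ k) atTop (𝓝 δ)) :
    0 ≤ δ :=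
  ge_of_tendsto' h fun t => by positivity

/-- The count. -/
theorem main_count {N : ℕ} (hN : 1 ≤ N) : ∃ C : ℝ, 0 ≤ C ∧
    ∀ (k : ℕ) (I : Ideal (Pol (N + 1))),
      I.IsHomogeneous (homogeneousSubmodule (Fin (N + 1)) ℚ) →
      (∀ P ∈ I.minimalPrimes, Algebra.trdeg ℚ (Pol (N + 1) ⧸ P) = ((k + 1 : ℕ) : Cardinal)) →
      ∀ δ : Ideal (Pol (N + 1)) → ℝ, (∀ P ∈ I.minimalPrimes,
        Tendsto (fun t : ℕ => (k.factorial : ℝ) * hilb P t / (t : ℝ) ^ k) atTop (𝓝 (δ P))) →
      ∀ (b : ℕ) (Y : Finset (Fin (N + 1) → ℤ)), (∀ x ∈ Y, x ≠ 0) →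
        (∀ x ∈ Y, ∀ y ∈ Y, perpQ x = perpQ y → x = y) → (∀ x ∈ Y, nm x ≤ b) →
        (∀ x ∈ Y, I ≤ mx x) →
        (Y.card : ℝ) ≤ C * (∑ᶠ P ∈ I.minimalPrimes, δ P) ^ ((N : ℝ) / (N + 1)) *
          (((N + 1 : ℕ) : ℝ) * 2 ^ N * b) ^ (k + 1) := by
  classical
  set K : ℕ := (4 * (N + 1) + 1) ^ (N + 1) with hK
  have hK1 : (1 : ℝ) ≤ K := by
    have : 1 ≤ K := Nat.one_le_pow _ _ (by omega)
    exact_mod_cast this
  obtain ⟨C, hC0, hC⟩ := est hN hK1
  refine ⟨2 ^ N * C, by positivity, ?_⟩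
  intro k I hIh hItr δ hδ b Y hne hinj hnm hI
  have hfin : I.minimalPrimes.Finite := Ideal.finite_minimalPrimes_of_isNoetherianRing _ I
  set ℳ := hfin.toFinset with hℳ
  have hδ0 : ∀ P ∈ ℳ, 0 ≤ δ P := fun P hP => degree_nonneg (hδ P (hfin.mem_toFinset.1 hP))
  have hd : ∑ᶠ P ∈ I.minimalPrimes, δ P = ∑ P ∈ ℳ, δ P := finsum_mem_eq_finite_toFinset_sum _ hfin
  rw [hd]
  set d := ∑ P ∈ ℳ, δ P with hdd
  have hd0 : 0 ≤ d := Finset.sum_nonneg hδ0
  rcases Y.eq_empty_or_nonempty with hY0 | ⟨x₀, hx₀⟩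
  · rw [hY0, card_empty]
    push_cast
    have := Real.rpow_nonneg hd0 ((N : ℝ) / (N + 1))
    positivity
  have hb : 0 < b := lt_of_lt_of_le (nm_pos (hne x₀ hx₀)) (hnm x₀ hx₀)
  set s₀ := Nat.log 2 ((N + 1) * 2 ^ N * b) with hs₀
  -- choose components and lists
  have hex : ∀ x : Fin (N + 1) → ℤ, ∃ (P : Ideal (Pol (N + 1))) (l : List Bool), x ∈ Y →
      P ∈ I.minimalPrimes ∧ P ≤ mx x ∧ l.length = N ∧ Follows x l 0 P ∧ l.count true = k := by
    intro x
    by_cases hx : x ∈ Y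
    · obtain ⟨P, hP, hPx⟩ := Ideal.exists_minimalPrimes_le (hI x hx)
      obtain ⟨l, hl, hf, ht⟩ := exists_follows (hne x hx) N 0 (by omega) P hP.1.1
        (minimalPrime_homog hIh hP) (by
          intro v hv
          have h0 : v = 0 := (Submodule.mem_bot ℚ).1 hv
          have : lin (0 : Fin (N + 1) → ℚ) = 0 := by unfold lin; simp
          rw [h0, this]
          exact zero_mem _) hPx
      refine ⟨P, l, fun _ => ⟨hP, hPx, hl, hf, ?_⟩⟩
      rw [hItr P hP] at ht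
      have := Nat.cast_injective ht
      omega
    · exact ⟨⊥, [], fun h => absurd h hx⟩
  choose P₀ L hPL using hex
  obtain ⟨𝓛, h𝓛mem, h𝓛mem', h𝓛card⟩ : ∃ 𝓛 : Finset (List Bool), (∀ l ∈ 𝓛, l.length = N) ∧
      (∀ l : List Bool, l.length = N → l ∈ 𝓛) ∧ 𝓛.card = 2 ^ N := by
    refine ⟨(univ : Finset (List.Vector Bool N)).image List.Vector.toList, ?_, ?_, ?_⟩
    · intro l hl
      obtain ⟨v, _, rfl⟩ := mem_image.1 hl
      exact v.2
    · intro l hl
      exact mem_image.2 ⟨⟨l, hl⟩, mem_univ _, rfl⟩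
    · rw [card_image_of_injective _ List.Vector.toList_injective, card_univ, card_vector,
        Fintype.card_bool]
  set 𝒜 := Y.image typ with h𝒜
  have hadm : ∀ α ∈ 𝒜, Adm N s₀ α := by
    intro α hα
    obtain ⟨x, hx, rfl⟩ := mem_image.1 hα
    have := typ_adm (hne x hx) (by omega) (hnm x hx)
    rwa [Nat.add_sub_cancel] at this
  -- decompose
  have hcardeq : Y.card = ∑ l ∈ 𝓛, ∑ α ∈ 𝒜, (Y.filter fun x => L x = l ∧ typ x = α).card := by
    calc Y.card = ∑ l ∈ 𝓛, (Y.filter fun x => L x = l).card :=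
          Finset.card_eq_sum_card_fiberwise fun x hx => h𝓛mem' _ (hPL x hx).2.2.1
      _ = _ := by
          refine sum_congr rfl fun l _ => ?_
          rw [Finset.card_eq_sum_card_fiberwise (f := typ) (t := 𝒜) fun x hx =>
            mem_image_of_mem _ (mem_filter.1 hx).1]
          refine sum_congr rfl fun α _ => ?_
          rw [filter_filter]
  have hclass : ∀ l ∈ 𝓛, ∀ α ∈ 𝒜, l.count true = k →
      ((Y.filter fun x => L x = l ∧ typ x = α).card : ℝ) ≤
        ((K : ℝ) ^ (DD N l).card * 2 ^ (∑ i ∈ DD N l, ex N α i)) *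
        min d ((K : ℝ) ^ (SS N l).card * 2 ^ (∑ i ∈ SS N l, ex N α i)) := by
    intro l hl α hα hcount
    set Z := Y.filter fun x => L x = l ∧ typ x = α with hZ
    have hZY : ∀ x ∈ Z, x ∈ Y := fun x hx => (mem_filter.1 hx).1
    have hgood : Good α Z := by
      refine ⟨fun x hx => hne x (hZY x hx), fun x hx y hy => hinj x (hZY x hx) y (hZY y hy), ?_⟩
      intro x hx j hj
      have h1 := (mem_filter.1 hx).2.2
      rw [← h1]
      unfold typ
      rw [if_pos hj]
    have hlen := h𝓛mem l hl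
    have hpc : ((pc (N + 1) α l 0 : ℕ) : ℝ) =
        (K : ℝ) ^ (DD N l).card * 2 ^ (∑ i ∈ DD N l, ex N α i) := by
      rw [pc_zero (by omega) α l (by omega), Nat.add_sub_cancel, ← hK]
      push_cast
      ring
    have hps : ((ps (N + 1) α l 0 : ℕ) : ℝ) =
        (K : ℝ) ^ (SS N l).card * 2 ^ (∑ i ∈ SS N l, ex N α i) := by
      rw [ps_zero (by omega) α l (by omega), Nat.add_sub_cancel, ← hK]
      push_cast
      ring
    rw [← hpc, ← hps]
    have hpc0 : (0 : ℝ) < pc (N + 1) α l 0 := by exact_mod_cast pc_pos α l 0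
    rw [mul_min_of_nonneg _ _ hpc0.le]
    apply le_min
    · -- the count with degrees
      have h1 : Z.card = ∑ P ∈ ℳ, (Z.filter fun x => P₀ x = P).card :=
        Finset.card_eq_sum_card_fiberwise fun x hx =>
          hfin.mem_toFinset.2 (hPL x (hZY x hx)).1
      rw [h1]
      push_cast
      rw [hdd, Finset.mul_sum]
      apply Finset.sum_le_sum
      intro P hP
      rw [hfin.mem_toFinset] at hP
      have hLB := LB_tree α l 0 (by omega) ⊥ P hP.1.1 (minimalPrime_homog hIh hP) (by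
          intro v hv
          have h0 : v = 0 := (Submodule.mem_bot ℚ).1 hv
          have : lin (0 : Fin (N + 1) → ℚ) = 0 := by unfold lin; simp
          rw [h0, this]
          exact zero_mem _) (Z.filter fun x => P₀ x = P) (hgood.subset (filter_subset _ _)) (by
          intro x hx
          obtain ⟨h2, h3⟩ := mem_filter.1 hx
          obtain ⟨h4, h5, _⟩ := mem_filter.1 h2
          have h6 := hPL x h4
          rw [h3, h5] at h6
          exact ⟨rfl, h6.2.1, h6.2.2.2.1⟩)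
      rw [hcount] at hLB
      have h2 := hLB.le_of_tendsto (hδ P hP)
      rwa [div_le_iff₀ hpc0, mul_comm] at h2
    · -- the trivial count
      have h1 := card_total α l 0 (by omega) ⊥ Z hgood fun x _ => rfl
      exact_mod_cast h1
  have hzero : ∀ l ∈ 𝓛, ∀ α ∈ 𝒜, l.count true ≠ k →
      (Y.filter fun x => L x = l ∧ typ x = α).card = 0 := by
    intro l _ α _ hcount
    rw [Finset.card_eq_zero, Finset.filter_eq_empty_iff]
    rintro x hx ⟨h1, _⟩
    apply hcount
    rw [← h1]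
    exact (hPL x hx).2.2.2.2
  have hpow : (2 : ℝ) ^ ((k + 1) * s₀) ≤ (((N + 1 : ℕ) : ℝ) * 2 ^ N * b) ^ (k + 1) := by
    rw [mul_comm (k + 1) s₀, pow_mul]
    apply pow_le_pow_left₀ (by positivity)
    have h1 : 2 ^ s₀ ≤ (N + 1) * 2 ^ N * b := Nat.pow_log_le_self 2 (by positivity)
    exact_mod_cast h1
  have hd0' := Real.rpow_nonneg hd0 ((N : ℝ) / (N + 1))
  have hfinal : ∀ l ∈ 𝓛, ((∑ α ∈ 𝒜, (Y.filter fun x => L x = l ∧ typ x = α).card : ℕ) : ℝ) ≤
      C * d ^ ((N : ℝ) / (N + 1)) * (((N + 1 : ℕ) : ℝ) * 2 ^ N * b) ^ (k + 1) := by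
    intro l hl
    by_cases hcount : l.count true = k
    · have h1 := hC k (DD N l) (SS N l) (DD_disjoint N l) (DD_union N l) (by
        have := card_DD l
        rw [h𝓛mem l hl, hcount] at this
        exact this) d hd0 s₀ 𝒜 hadm
      rw [Nat.cast_sum]
      calc _ ≤ _ := Finset.sum_le_sum fun α hα => hclass l hl α hα hcount
        _ ≤ _ := h1
        _ ≤ _ := mul_le_mul_of_nonneg_left hpow (by positivity)
    · rw [Finset.sum_eq_zero fun α hα => hzero l hl α hα hcount]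
      push_cast
      positivity
  rw [hcardeq, Nat.cast_sum]
  calc _ ≤
      ∑ l ∈ 𝓛, C * d ^ ((N : ℝ) / (N + 1)) * (((N + 1 : ℕ) : ℝ) * 2 ^ N * b) ^ (k + 1) :=
        Finset.sum_le_sum hfinal
    _ = _ := by
        rw [sum_const, h𝓛card, nsmul_eq_mul]
        push_cast
        ring

end Q272.PSZ
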