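import Pool.Agent.Q272.PSZ.Flag

/-! The product of the successive minima. -/

namespace Q272.PSZ

open Finset Module

variable {M : ℕ} {x : Fin M → ℤ}

/-- The lattice of integer vectors in the `m`-th step of the flag. -/
def Lat (x : Fin M → ℤ) (m : ℕ) : Submodule ℤ (Fin M → ℤ) where
  carrier := {v | v ∈ perp x ∧ cq v ∈ fl x m}
  add_mem' := by
    rintro a b ⟨ha, ha'⟩ ⟨hb, hb'⟩
    refine ⟨?_, ?_⟩
    · rw [← cq_mem_perpQ] at *
      rw [cq_add]
      exact add_mem ha hb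
    · rw [cq_add]
      exact add_mem ha' hb'
  zero_mem' := by
    refine ⟨?_, ?_⟩
    · rw [← cq_mem_perpQ, cq_zero]; exact zero_mem _
    · rw [cq_zero]; exact zero_mem _
  smul_mem' := by
    rintro c a ⟨ha, ha'⟩
    refine ⟨?_, ?_⟩
    · rw [← cq_mem_perpQ] at *
      rw [cq_smul]
      exact Submodule.smul_mem _ _ ha
    · rw [cq_smul]
      exact Submodule.smul_mem _ _ ha'

theorem mem_Lat {m : ℕ} {v : Fin M → ℤ} : v ∈ Lat x m ↔ v ∈ perp x ∧ cq v ∈ fl x m := Iff.rfl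

theorem Lat_mono {i j : ℕ} (h : i ≤ j) : Lat x i ≤ Lat x j := fun _ hv =>
  ⟨hv.1, fl_mono x h hv.2⟩

theorem exists_coord (hx : x ≠ 0) (m : ℕ) (hm : m + 2 ≤ M) :
    ∃ (Ψ : (Fin M → ℤ) →ₗ[ℤ] ℤ) (g : Fin M → ℤ), g ∈ Lat x (m + 1) ∧ Ψ g ≠ 0 ∧
      (∀ v ∈ Lat x (m + 1), Ψ g ∣ Ψ v) ∧ (∀ v ∈ Lat x (m + 1), (Ψ v = 0 ↔ v ∈ Lat x m)) := by
  classical
  obtain ⟨ha, haW⟩ := av_mem hx m hm
  obtain ⟨φ, hφa, hφ⟩ := Submodule.exists_dual_map_eq_bot_of_notMem haW inferInstance
  have hφW : ∀ w ∈ fl x m, φ w = 0 := by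
    intro w hw
    have : φ w ∈ (fl x m).map φ := Submodule.mem_map_of_mem hw
    rw [hφ] at this
    exact this
  obtain ⟨d, b, hd, hb⟩ := exists_den (fun i => φ (Pi.single i 1))
  have hd0 : (d : ℚ) ≠ 0 := by exact_mod_cast hd.ne'
  have hφs : ∀ v : Fin M → ℚ, φ v = ∑ i, v i * φ (Pi.single i 1) := by
    intro v
    have h1 : v = ∑ i, v i • (Pi.single i (1:ℚ) : Fin M → ℚ) := by
      funext j
      rw [Finset.sum_apply]
      simp [Pi.single_apply]
    conv_lhs => rw [h1]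
    rw [map_sum]
    refine sum_congr rfl fun i _ => ?_
    rw [map_smul, smul_eq_mul]
  let Ψ : (Fin M → ℤ) →ₗ[ℤ] ℤ := Fintype.linearCombination ℤ b
  have hΨ : ∀ v, ((Ψ v : ℤ) : ℚ) = d * φ (cq v) := by
    intro v
    have h1 : Ψ v = ∑ i, v i * b i := by
      simp [Ψ, Fintype.linearCombination_apply]
    rw [h1, hφs]
    push_cast
    rw [Finset.mul_sum]
    refine sum_congr rfl fun i _ => ?_
    have h2 : (b i : ℚ) = d * φ (Pi.single i 1) := congrFun hb i
    rw [h2]
    unfold cq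
    ring
  have hzero : ∀ v, Ψ v = 0 ↔ φ (cq v) = 0 := by
    intro v
    have h1 : Ψ v = 0 ↔ ((Ψ v : ℤ) : ℚ) = 0 := by norm_cast
    rw [h1, hΨ, mul_eq_zero]
    simp [hd0]
  have hker : ∀ v ∈ Lat x (m + 1), (Ψ v = 0 ↔ v ∈ Lat x m) := by
    intro v hv
    rw [hzero, mem_Lat]
    constructor
    · intro h
      refine ⟨hv.1, ?_⟩
      have h1 := hv.2
      rw [fl_succ, Submodule.mem_sup] at h1
      obtain ⟨w, hw, z, hz, hwz⟩ := h1
      obtain ⟨c, rfl⟩ := Submodule.mem_span_singleton.1 hz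
      rw [← hwz, map_add, hφW w hw, zero_add, map_smul, smul_eq_mul] at h
      rcases mul_eq_zero.1 h with h2 | h2
      · rw [← hwz, h2, zero_smul, add_zero]
        exact hw
      · exact absurd h2 hφa
    · intro h
      exact hφW _ h.2
  -- the generator
  let I : Submodule ℤ ℤ := (Lat x (m + 1)).map Ψ
  have hgen : Submodule.IsPrincipal.generator I ∈ I := Submodule.IsPrincipal.generator_mem I
  obtain ⟨g, hg, hgI⟩ := hgen
  have hdvd : ∀ v ∈ Lat x (m + 1), Ψ g ∣ Ψ v := by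
    intro v hv
    have h1 : Ψ v ∈ I := Submodule.mem_map_of_mem hv
    rw [Submodule.IsPrincipal.mem_iff_eq_smul_generator] at h1
    obtain ⟨c, hc⟩ := h1
    rw [hgI, hc, smul_eq_mul]
    exact Dvd.intro_left c rfl
  refine ⟨Ψ, g, hg, ?_, hdvd, hker⟩
  intro h0
  have h1 : av x m ∈ Lat x (m + 1) := ⟨ha, cq_av_mem x m⟩
  have h2 := hdvd _ h1
  rw [h0, zero_dvd_iff] at h2
  exact haW ((hker _ h1).1 h2).2

/-- Counting lemma. -/
theorem card_le (hx : x ≠ 0) (q : ℕ → ℕ) (hq : ∀ i, 0 < q i)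
    (hdiv : ∀ i j, i ≤ j → j + 2 ≤ M → q j ∣ q i) :
    ∀ m, m + 1 ≤ M → ∀ T : Finset (Fin M → ℤ), (∀ u ∈ T, u ∈ Lat x m) →
      (∀ u ∈ T, ∀ w ∈ T, u ≠ w → ∀ i < m, ∀ v ∈ Lat x (i + 1), v ∉ Lat x i →
        u - w ≠ (q i : ℤ) • v) → T.card ≤ ∏ i ∈ range m, q i := by
  classical
  intro m
  induction m with
  | zero =>
    intro _ T hT _
    rw [prod_range_zero, Finset.card_le_one]
    have h0 : ∀ u ∈ T, u = 0 := by
      intro u hu
      have h1 : cq u ∈ (⊥ : Submodule ℚ (Fin M → ℚ)) := (hT u hu).2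
      rw [Submodule.mem_bot, ← cq_zero] at h1
      exact cq_inj h1
    intro u hu w hw
    rw [h0 u hu, h0 w hw]
  | succ m ih =>
    intro hm T hT hsep
    obtain ⟨Ψ, g, hg, hg0, hdvd, hker⟩ := exists_coord hx m (by omega)
    set γ := Ψ g with hγ
    -- residue classes
    have hqm : (0:ℤ) < q m := by exact_mod_cast hq m
    let ρ : (Fin M → ℤ) → ℤ := fun u => (Ψ u / γ) % (q m)
    have hρ : ∀ u ∈ T, ρ u ∈ (Finset.Ico (0:ℤ) (q m)) := by
      intro u _
      rw [Finset.mem_Ico]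
      exact ⟨Int.emod_nonneg _ hqm.ne', Int.emod_lt_of_pos _ hqm⟩
    have hcls : ∀ c ∈ Finset.Ico (0:ℤ) (q m), (T.filter fun u => ρ u = c).card ≤
        ∏ i ∈ range m, q i := by
      intro c _
      rcases (T.filter fun u => ρ u = c).eq_empty_or_nonempty with h0 | ⟨u₀, hu₀⟩
      · rw [h0, card_empty]; exact Nat.zero_le _
      rw [mem_filter] at hu₀
      -- the multiplier
      let k : (Fin M → ℤ) → ℤ := fun u => (Ψ u / γ - Ψ u₀ / γ) / q m
      have hk : ∀ u ∈ T.filter fun u => ρ u = c, Ψ u - Ψ u₀ = q m * k u * γ := by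
        intro u hu
        rw [mem_filter] at hu
        have h1 : (q m : ℤ) ∣ Ψ u / γ - Ψ u₀ / γ := by
          apply Int.ModEq.dvd
          have : ρ u₀ = ρ u := by rw [hu₀.2, hu.2]
          exact this
        have h2 : (q m : ℤ) * k u = Ψ u / γ - Ψ u₀ / γ := Int.mul_ediv_cancel' h1
        have h3 : Ψ u / γ * γ = Ψ u := Int.ediv_mul_cancel (hdvd u (hT u hu.1))
        have h4 : Ψ u₀ / γ * γ = Ψ u₀ := Int.ediv_mul_cancel (hdvd u₀ (hT u₀ hu₀.1))
        rw [h2, sub_mul, h3, h4]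
      let f : (Fin M → ℤ) → (Fin M → ℤ) := fun u => u - u₀ - ((q m : ℤ) * k u) • g
      have hfL : ∀ u ∈ T.filter fun u => ρ u = c, f u ∈ Lat x m := by
        intro u hu
        have hu' := (mem_filter.1 hu).1
        have h1 : f u ∈ Lat x (m + 1) :=
          sub_mem (sub_mem (hT u hu') (hT u₀ hu₀.1)) (Submodule.smul_mem _ _ hg)
        rw [← hker _ h1]
        change Ψ (u - u₀ - ((q m : ℤ) * k u) • g) = 0
        rw [map_sub, map_sub, map_smul, hk u hu, smul_eq_mul]
        ring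
      have hdiff : ∀ u w, f u - f w = u - w - (q m : ℤ) • ((k u - k w) • g) := by
        intro u w
        change (u - u₀ - ((q m : ℤ) * k u) • g) - (w - u₀ - ((q m : ℤ) * k w) • g) = _
        rw [smul_smul, mul_sub, sub_smul]
        abel
      have hnot : ∀ u w, k u ≠ k w → ∀ z ∈ Lat x m, z + (k u - k w) • g ∈ Lat x (m + 1) ∧
          z + (k u - k w) • g ∉ Lat x m := by
        intro u w huw z hz
        have h1 : z + (k u - k w) • g ∈ Lat x (m + 1) :=
          add_mem (Lat_mono (Nat.le_succ m) hz) (Submodule.smul_mem _ _ hg)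
        refine ⟨h1, ?_⟩
        rw [← hker _ h1, map_add, map_smul,
          (hker z (Lat_mono (Nat.le_succ m) hz)).2 hz, zero_add, smul_eq_mul]
        exact mul_ne_zero (sub_ne_zero.2 huw) hg0
      have hinj : Set.InjOn f (T.filter fun u => ρ u = c : Finset (Fin M → ℤ)) := by
        intro u hu w hw huw
        rw [mem_coe] at hu hw
        by_contra hne
        have h1 := hdiff u w
        rw [huw, sub_self] at h1
        by_cases hkk : k u = k w
        · rw [hkk, sub_self, zero_smul, smul_zero, sub_zero] at h1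
          exact hne (sub_eq_zero.1 h1.symm)
        · obtain ⟨h2, h3⟩ := hnot u w hkk 0 (zero_mem _)
          rw [zero_add] at h2 h3
          exact hsep u (mem_filter.1 hu).1 w (mem_filter.1 hw).1 hne m (Nat.lt_succ_self m) _ h2 h3
            (sub_eq_zero.1 h1.symm)
      rw [← Finset.card_image_of_injOn hinj]
      apply ih (by omega)
      · intro z hz
        obtain ⟨u, hu, rfl⟩ := mem_image.1 hz
        exact hfL u hu
      · intro z hz z' hz' hne i hi v hv hvn heq
        obtain ⟨u, hu, rfl⟩ := mem_image.1 hz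
        obtain ⟨w, hw, rfl⟩ := mem_image.1 hz'
        have huw : u ≠ w := fun h => hne (by rw [h])
        rw [hdiff] at heq
        by_cases hkk : k u = k w
        · rw [hkk, sub_self, zero_smul, smul_zero, sub_zero] at heq
          exact hsep u (mem_filter.1 hu).1 w (mem_filter.1 hw).1 huw i (by omega) v hv hvn heq
        · obtain ⟨s, hs⟩ := hdiv i m hi.le (by omega)
          have hz0 : (s : ℤ) • v ∈ Lat x m :=
            Submodule.smul_mem _ _ (Lat_mono (by omega) hv)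
          obtain ⟨h2, h3⟩ := hnot u w hkk _ hz0
          apply hsep u (mem_filter.1 hu).1 w (mem_filter.1 hw).1 huw m (Nat.lt_succ_self m) _ h2 h3
          rw [smul_add, smul_smul]
          have h4 : (q i : ℤ) = q m * s := by exact_mod_cast hs
          rw [← h4, ← heq]
          abel
    calc T.card = ∑ c ∈ Finset.Ico (0:ℤ) (q m), (T.filter fun u => ρ u = c).card :=
          Finset.card_eq_sum_card_fiberwise hρ
      _ ≤ ∑ c ∈ Finset.Ico (0:ℤ) (q m), ∏ i ∈ range m, q i := Finset.sum_le_sum hcls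
      _ = ∏ i ∈ range (m + 1), q i := by
          rw [Finset.sum_const, Int.card_Ico, prod_range_succ, smul_eq_mul, mul_comm]
          simp

end Q272.PSZ
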