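import Mathlib

/-! Graded Noether normalization with a prescribed first linear form. -/

namespace Q272.PSZ

open MvPolynomial Finset

section Integral

variable {K : Type*} [Field K] {A : Type*} [CommRing A] [Algebra K A]

theorem coeff_prod_pow {R ι : Type*} [CommRing R] (s : Finset ι) (p : ι → Polynomial R)
    (e : ι → ℕ) (hp : ∀ i, (p i).natDegree ≤ 1) :
    (∏ i ∈ s, p i ^ e i).natDegree ≤ ∑ i ∈ s, e i ∧
    (∏ i ∈ s, p i ^ e i).coeff (∑ i ∈ s, e i) = ∏ i ∈ s, (p i).coeff 1 ^ e i := by
  classical
  induction s using Finset.induction_on with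
  | empty => simp
  | insert i s hi ih =>
    have h1 : (p i ^ e i).natDegree ≤ e i := by
      refine (Polynomial.natDegree_pow_le).trans ?_
      calc e i * (p i).natDegree ≤ e i * 1 := Nat.mul_le_mul_left _ (hp i)
        _ = e i := mul_one _
    have h2 : (p i ^ e i).coeff (e i) = (p i).coeff 1 ^ e i := by
      have := Polynomial.coeff_pow_of_natDegree_le (m := e i) (hp i)
      rwa [mul_one] at this
    rw [prod_insert hi, prod_insert hi, sum_insert hi]
    constructor
    · exact Polynomial.natDegree_mul_le.trans (add_le_add h1 ih.1)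
    · rw [Polynomial.coeff_mul_add_eq_of_natDegree_le h1 ih.1, h2, ih.2]

theorem integral_of_rel {σ : Type*} {B : Type*} [CommRing B] [Algebra K B] [Algebra B A]
    [IsScalarTower K B A] (a : σ → B) (s : A)
    (c : σ → K) {D : ℕ} {f : MvPolynomial σ K} (hf : f.IsHomogeneous D)
    (h0 : aeval (fun i => algebraMap B A (a i) + c i • s) f = 0) (hc : eval c f ≠ 0) :
    IsIntegral B s := by
  classical
  set p : σ → Polynomial B := fun i => Polynomial.C (a i) +
    Polynomial.C (algebraMap K B (c i)) * Polynomial.X with hp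
  set G : Polynomial B := aeval p f with hG
  have hpd : ∀ i, (p i).natDegree ≤ 1 := by
    intro i
    refine (Polynomial.natDegree_add_le _ _).trans (max_le ?_ ?_)
    · rw [Polynomial.natDegree_C]; exact Nat.zero_le _
    · exact (Polynomial.natDegree_C_mul_le _ _).trans Polynomial.natDegree_X_le
  have hpc : ∀ i, (p i).coeff 1 = algebraMap K B (c i) := by
    intro i
    simp [hp, Polynomial.coeff_C]
  have hGsum : G = ∑ d ∈ f.support, Polynomial.C (algebraMap K B (coeff d f)) *
      ∏ i ∈ d.support, p i ^ d i := by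
    rw [hG, aeval_def, eval₂_eq]
    rfl
  have hdeg : ∀ d ∈ f.support, ∑ i ∈ d.support, d i = D := by
    intro d hd
    rw [← hf.degree_eq_sum_deg_support hd]
  have hGd : G.natDegree ≤ D := by
    rw [hGsum]
    refine Polynomial.natDegree_sum_le_of_forall_le _ _ fun d hd => ?_
    refine (Polynomial.natDegree_C_mul_le _ _).trans ?_
    rw [← hdeg d hd]
    exact (coeff_prod_pow _ _ _ hpd).1
  have hGc : G.coeff D = algebraMap K B (eval c f) := by
    rw [hGsum, Polynomial.finsetSum_coeff, eval_eq, map_sum]
    refine sum_congr rfl fun d hd => ?_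
    rw [Polynomial.coeff_C_mul, ← hdeg d hd, (coeff_prod_pow _ _ _ hpd).2, map_mul, map_prod]
    congr 1
    refine prod_congr rfl fun i _ => ?_
    rw [hpc, map_pow]
  have hGs : Polynomial.aeval s G = 0 := by
    have h1 : Polynomial.aeval s G = aeval (fun i => algebraMap B A (a i) + c i • s) f := by
      have h2 : ((Polynomial.aeval (R := B) s).restrictScalars K).comp (aeval (R := K) p) =
          aeval (fun i => algebraMap B A (a i) + c i • s) := by
        apply MvPolynomial.algHom_ext
        intro i
        rw [AlgHom.comp_apply, aeval_X, aeval_X, hp, AlgHom.restrictScalars_apply, map_add,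
          map_mul, Polynomial.aeval_C, Polynomial.aeval_C, Polynomial.aeval_X,
          ← IsScalarTower.algebraMap_apply, Algebra.smul_def]
      rw [← h2]
      rfl
    rw [h1, h0]
  set u : K := eval c f with hu
  refine ⟨Polynomial.C (algebraMap K B u⁻¹) * G, ?_, ?_⟩
  · have h1 : (Polynomial.C (algebraMap K B u⁻¹) * G).coeff D = 1 := by
      rw [Polynomial.coeff_C_mul, hGc, ← map_mul, inv_mul_cancel₀ hc, map_one]
    apply Polynomial.monic_of_natDegree_le_of_coeff_eq_one D _ h1
    exact (Polynomial.natDegree_C_mul_le _ _).trans hGd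
  · rw [← Polynomial.aeval_def, map_mul, hGs, mul_zero]

variable (K) in
/-- All homogeneous components of a relation are relations. -/
def HomRel {σ : Type*} (v : σ → A) : Prop :=
  ∀ f : MvPolynomial σ K, aeval v f = 0 → ∀ t, aeval v (homogeneousComponent t f) = 0

theorem homogeneousComponent_aeval {σ τ : Type*} (p : σ → MvPolynomial τ K)
    (hp : ∀ i, (p i).IsHomogeneous 1) (g : MvPolynomial σ K) (t : ℕ) :
    homogeneousComponent t (aeval p g) = aeval p (homogeneousComponent t g) := by
  classical
  have h0 : aeval p g = ∑ s ∈ range (g.totalDegree + 1), aeval p (homogeneousComponent s g) := by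
    rw [← map_sum, sum_homogeneousComponent]
  have h1 : ∀ s, (aeval p (homogeneousComponent s g)).IsHomogeneous s := by
    intro s
    have := (homogeneousComponent_isHomogeneous s g).aeval p hp
    rwa [one_mul] at this
  rw [h0, map_sum]
  have h2 : ∀ s ∈ range (g.totalDegree + 1),
      homogeneousComponent t (aeval p (homogeneousComponent s g)) =
      if s = t then aeval p (homogeneousComponent s g) else 0 := by
    intro s _
    rw [homogeneousComponent_of_mem (h1 s)]
    by_cases h : s = t
    · rw [if_pos h, if_pos h.symm]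
    · rw [if_neg h, if_neg (fun h' => h h'.symm)]
  rw [sum_congr rfl h2, sum_ite_eq' (range (g.totalDegree + 1)) t]
  by_cases h : t ∈ range (g.totalDegree + 1)
  · rw [if_pos h]
  · rw [if_neg h]
    rw [mem_range, not_lt] at h
    rw [homogeneousComponent_eq_zero _ _ (by omega), map_zero]

/-- A homogeneous relation which does not vanish at some point of the hyperplane `X 0 = 0`. -/
theorem exists_rel [Infinite K] [IsDomain A] {u : A} (hu : u ≠ 0) {N : ℕ} {v : Fin N → A}
    (hv : HomRel K (Fin.cons u v : Fin (N + 1) → A))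
    (hnot : ¬ AlgebraicIndependent K (Fin.cons u v : Fin (N + 1) → A)) :
    ∃ (D : ℕ) (F : MvPolynomial (Fin (N + 1)) K) (c : Fin N → K) (j : Fin N),
      F.IsHomogeneous D ∧ aeval (Fin.cons u v : Fin (N + 1) → A) F = 0 ∧
      eval (Fin.cons 0 c : Fin (N + 1) → K) F ≠ 0 ∧ c j ≠ 0 := by
  classical
  rw [algebraicIndependent_iff] at hnot
  push Not at hnot
  obtain ⟨f₀, hf₀0, hf₀⟩ := hnot
  -- a relation of minimal total degree
  have hex : ∃ n, ∃ f : MvPolynomial (Fin (N + 1)) K, f.totalDegree = n ∧ f ≠ 0 ∧
      aeval (Fin.cons u v : Fin (N + 1) → A) f = 0 := ⟨_, f₀, rfl, hf₀, hf₀0⟩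
  obtain ⟨f, hfd, hf, hf0⟩ := Nat.find_spec hex
  obtain ⟨t, ht⟩ : ∃ t, homogeneousComponent t f ≠ 0 := by
    by_contra hcon
    push Not at hcon
    apply hf
    rw [← sum_homogeneousComponent f]
    exact sum_eq_zero fun s _ => hcon s
  set F := homogeneousComponent t f with hF
  have hFh : F.IsHomogeneous t := homogeneousComponent_isHomogeneous t f
  have hF0 : aeval (Fin.cons u v : Fin (N + 1) → A) F = 0 := hv f hf0 t
  have htle : t ≤ f.totalDegree := by
    by_contra hcon
    exact ht (homogeneousComponent_eq_zero _ _ (by omega))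
  have hFt : F.totalDegree = t := hFh.totalDegree ht
  have hndvd : ¬ (X 0 : MvPolynomial (Fin (N + 1)) K) ∣ F := by
    rintro ⟨G, hG⟩
    have hG0 : G ≠ 0 := by
      rintro rfl
      rw [mul_zero] at hG
      exact ht hG
    have h1 : aeval (Fin.cons u v : Fin (N + 1) → A) G = 0 := by
      rw [hG, map_mul, aeval_X, Fin.cons_zero] at hF0
      exact (mul_eq_zero.1 hF0).resolve_left hu
    have h2 : F.totalDegree = 1 + G.totalDegree := by
      rw [hG, totalDegree_mul_of_isDomain (X_ne_zero _) hG0, totalDegree_X]
    exact Nat.find_min hex (m := G.totalDegree) (by omega) ⟨G, rfl, hG0, h1⟩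
  have hco : (finSuccEquiv K N F).coeff 0 ≠ 0 := by
    intro h
    rw [← Polynomial.X_dvd_iff] at h
    obtain ⟨G, hG⟩ := h
    apply hndvd
    refine ⟨(finSuccEquiv K N).symm G, ?_⟩
    apply (finSuccEquiv K N).injective
    rw [map_mul, AlgEquiv.apply_symm_apply, finSuccEquiv_X_zero, hG]
  obtain ⟨c, hc⟩ : ∃ c : Fin N → K, eval c ((finSuccEquiv K N F).coeff 0) ≠ 0 := by
    by_contra hcon
    push Not at hcon
    apply hco
    apply MvPolynomial.funext
    intro c
    rw [hcon c, map_zero]
  have hev : eval (Fin.cons 0 c : Fin (N + 1) → K) F ≠ 0 := by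
    rw [eval_eq_eval_mv_eval', ← Polynomial.coeff_zero_eq_eval_zero, Polynomial.coeff_map]
    exact hc
  have hcne : ∃ j, c j ≠ 0 := by
    by_contra hcon
    push Not at hcon
    have h0 : (Fin.cons 0 c : Fin (N + 1) → K) = 0 := by
      ext i
      refine Fin.cases ?_ (fun i => ?_) i
      · rfl
      · rw [Fin.cons_succ, hcon i]; rfl
    rw [h0] at hev
    have h1 : coeff 0 F ≠ 0 := by
      rw [← constantCoeff_eq]
      have h2 : (eval (0 : Fin (N + 1) → K)) = constantCoeff := by
        apply MvPolynomial.ringHom_ext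
        · intro r; simp
        · intro i; simp
      have : eval (0 : Fin (N + 1) → K) F = constantCoeff F := RingHom.congr_fun h2 F
      rw [← this]
      exact hev
    have h2 : t = 0 := by
      by_contra htn
      exact h1 (hFh.coeff_eq_zero (by rw [map_zero]; exact fun h => htn h.symm))
    have h3 : F = C (coeff 0 F) := by
      rw [h2] at hFt
      exact totalDegree_eq_zero_iff_eq_C.1 hFt
    rw [h3, aeval_C] at hF0
    exact h1 ((map_eq_zero_iff _ (algebraMap K A).injective).1 hF0)
  obtain ⟨j, hj⟩ := hcne
  exact ⟨t, F, c, j, hFh, hF0, hev, hj⟩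

/-- Graded Noether normalization with a prescribed first element. -/
theorem nn [Infinite K] [IsDomain A] (u : A) (hu : u ≠ 0) : ∀ (N : ℕ) (v : Fin N → A),
    HomRel K (Fin.cons u v : Fin (N + 1) → A) → ∃ (r : ℕ) (w : Fin r → A),
      AlgebraicIndependent K (Fin.cons u w : Fin (r + 1) → A) ∧
      ∀ i, IsIntegral (Algebra.adjoin K (Set.range (Fin.cons u w : Fin (r + 1) → A))) (v i) := by
  classical
  intro N
  induction N with
  | zero =>
    intro v hv
    by_cases hind : AlgebraicIndependent K (Fin.cons u v : Fin 1 → A)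
    · exact ⟨0, v, hind, fun i => i.elim0⟩
    · obtain ⟨_, _, _, j, _⟩ := exists_rel hu hv hind
      exact j.elim0
  | succ N ih =>
    intro v hv
    by_cases hind : AlgebraicIndependent K (Fin.cons u v : Fin (N + 2) → A)
    · refine ⟨N + 1, v, hind, fun i => ?_⟩
      have hmem : v i ∈ Algebra.adjoin K (Set.range (Fin.cons u v : Fin (N + 2) → A)) :=
        Algebra.subset_adjoin ⟨i.succ, by rw [Fin.cons_succ]⟩
      exact isIntegral_algebraMap (R := Algebra.adjoin K (Set.range (Fin.cons u v : Fin (N + 2) → A)))
        (x := ⟨v i, hmem⟩)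
    obtain ⟨D, F, c, j, hF, hF0, hev, hcj⟩ := exists_rel hu hv hind
    set w' : Fin N → A := fun i => v (j.succAbove i) - (c (j.succAbove i) / c j) • v j with hw'
    -- the linear substitution
    set p : Fin (N + 1) → MvPolynomial (Fin (N + 2)) K := Fin.cons (X 0)
      (fun i => X (j.succAbove i).succ - C (c (j.succAbove i) / c j) * X j.succ) with hp
    have hp1 : ∀ i, (p i).IsHomogeneous 1 := by
      intro i
      refine Fin.cases ?_ (fun i => ?_) i
      · exact isHomogeneous_X _ _
      · rw [hp, Fin.cons_succ]
        exact (isHomogeneous_X _ _).sub (isHomogeneous_C_mul_X _ _)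
    have hcomp : ∀ g : MvPolynomial (Fin (N + 1)) K,
        aeval (Fin.cons u v : Fin (N + 2) → A) (aeval p g) =
        aeval (Fin.cons u w' : Fin (N + 1) → A) g := by
      intro g
      have h1 : (aeval (R := K) (Fin.cons u v : Fin (N + 2) → A)).comp (aeval p) =
          aeval (Fin.cons u w' : Fin (N + 1) → A) := by
        apply MvPolynomial.algHom_ext
        intro i
        rw [AlgHom.comp_apply, aeval_X, aeval_X]
        refine Fin.cases ?_ (fun i => ?_) i
        · rw [hp, Fin.cons_zero, aeval_X, Fin.cons_zero, Fin.cons_zero]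
        · rw [hp, Fin.cons_succ, map_sub, map_mul, aeval_X, aeval_X, Fin.cons_succ, Fin.cons_succ,
            Fin.cons_succ, aeval_C, ← Algebra.smul_def]
      rw [← h1]
      rfl
    have hw'rel : HomRel K (Fin.cons u w' : Fin (N + 1) → A) := by
      intro g hg t
      rw [← hcomp] at hg ⊢
      rw [← homogeneousComponent_aeval p hp1]
      exact hv _ hg t
    obtain ⟨r, w, hw, hint⟩ := ih w' hw'rel
    refine ⟨r, w, hw, ?_⟩
    set B' := Algebra.adjoin K (Set.range (Fin.cons u w : Fin (r + 1) → A)) with hB'
    have hu' : IsIntegral B' u := by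
      have hmem : u ∈ B' := Algebra.subset_adjoin ⟨0, by rw [Fin.cons_zero]⟩
      exact isIntegral_algebraMap (R := B') (x := ⟨u, hmem⟩)
    -- `s = v j / c j`
    set s : A := (c j)⁻¹ • v j with hs
    set a : Fin (N + 2) → integralClosure B' A := Fin.cons ⟨u, hu'⟩
      (fun i => if h : i = j then 0 else
        ⟨v i - (c i / c j) • v j, by
          obtain ⟨k, hk⟩ := Fin.exists_succAbove_eq h
          rw [← hk]
          exact hint k⟩) with ha
    have hrel : (fun i => algebraMap (integralClosure B' A) A (a i) +
        (Fin.cons 0 c : Fin (N + 2) → K) i • s) = Fin.cons u v := by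
      funext i
      refine Fin.cases ?_ (fun i => ?_) i
      · rw [ha, Fin.cons_zero, Fin.cons_zero, Fin.cons_zero, zero_smul, add_zero]
        rfl
      · rw [ha, Fin.cons_succ, Fin.cons_succ, Fin.cons_succ]
        by_cases h : i = j
        · rw [dif_pos h, map_zero, zero_add, hs, smul_smul, h, mul_inv_cancel₀ hcj, one_smul]
        · rw [dif_neg h, hs, smul_smul]
          change v i - (c i / c j) • v j + (c i * (c j)⁻¹) • v j = v i
          rw [← div_eq_mul_inv]
          abel
    have hsint : IsIntegral (integralClosure B' A) s := by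
      refine integral_of_rel a s (Fin.cons 0 c) hF ?_ hev
      rw [hrel]
      exact hF0
    have hsB : IsIntegral B' s := isIntegral_trans s hsint
    have hvj : IsIntegral B' (v j) := by
      have h1 : v j = (algebraMap K B' (c j)) • s := by
        rw [hs, algebraMap_smul, smul_smul, mul_inv_cancel₀ hcj, one_smul]
      rw [h1]
      exact hsB.smul _
    intro i
    by_cases h : i = j
    · rw [h]; exact hvj
    · obtain ⟨k, hk⟩ := Fin.exists_succAbove_eq h
      have h1 : v i = w' k + (algebraMap K B' (c i / c j)) • v j := by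
        rw [hw', algebraMap_smul, ← hk]
        simp
      rw [h1]
      exact (hint k).add (hvj.smul _)

end Integral

end Q272.PSZ
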