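import Pool.Agent.Q272.PSZ.Flag

/-! Counting the possible next steps of a flag. -/

namespace Q272.PSZ

open Finset Module

variable {M : ℕ} {x : Fin M → ℤ}

theorem av_indep (hx : x ≠ 0) : ∀ m, m + 1 ≤ M → ∀ c : ℕ → ℚ,
    ∑ j ∈ range m, c j • cq (av x j) = 0 → ∀ j < m, c j = 0 := by
  intro m
  induction m with
  | zero => intro _ c _ j hj; omega
  | succ m ih =>
    intro hm c hc j hj
    have hsum : ∑ j ∈ range m, c j • cq (av x j) ∈ fl x m := by
      refine Submodule.sum_mem _ fun i hi => Submodule.smul_mem _ _ ?_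
      rw [mem_range] at hi
      exact fl_mono x (by omega) (cq_av_mem x i)
    rw [sum_range_succ] at hc
    have hcm : c m = 0 := by
      by_contra h
      apply (av_mem hx m (by omega)).2
      have h1 : cq (av x m) = (c m)⁻¹ • (-(∑ j ∈ range m, c j • cq (av x j))) := by
        have h2 : c m • cq (av x m) = -(∑ j ∈ range m, c j • cq (av x j)) := by
          rw [add_comm] at hc
          exact eq_neg_of_add_eq_zero_left hc
        rw [← h2, smul_smul, inv_mul_cancel₀ h, one_smul]
      rw [h1]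
      exact Submodule.smul_mem _ _ (Submodule.neg_mem _ hsum)
    rw [hcm, zero_smul, add_zero] at hc
    rcases Nat.lt_succ_iff_lt_or_eq.1 hj with h | h
    · exact ih (by omega) c hc j h
    · rw [h, hcm]

theorem card_spans (hx : x ≠ 0) (m : ℕ) (hm : m + 1 ≤ M) (α : ℕ → ℕ) (β : ℕ)
    (hα : ∀ j < m, nm (av x j) < 2 ^ (α j + 1)) (hle : ∀ j < m, α j ≤ β)
    (S : Finset (Submodule ℚ (Fin M → ℚ)))
    (hS : ∀ V ∈ S, ∃ b : Fin M → ℤ, nm b < 2 ^ (β + 1) ∧ V = fl x m ⊔ Submodule.span ℚ {cq b}) :
    S.card * 2 ^ (m * β) ≤ (4 * M + 1) ^ M * 2 ^ (M * β + ∑ j ∈ range m, α j) := by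
  classical
  have hS' : ∀ V : Submodule ℚ (Fin M → ℚ), ∃ b : Fin M → ℤ,
      V ∈ S → (nm b < 2 ^ (β + 1) ∧ V = fl x m ⊔ Submodule.span ℚ {cq b}) := by
    intro V
    by_cases hV : V ∈ S
    · obtain ⟨b, hb⟩ := hS V hV
      exact ⟨b, fun _ => hb⟩
    · exact ⟨0, fun h => absurd h hV⟩
  choose b hb using hS'
  let KK : Finset (Fin m → ℕ) := Fintype.piFinset fun j => range (2 ^ (β - α j))
  let F : Submodule ℚ (Fin M → ℚ) × (Fin m → ℕ) → (Fin M → ℤ) :=
    fun p => b p.1 + ∑ j : Fin m, (p.2 j : ℤ) • av x j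
  set R : ℕ := (m + 1) * 2 ^ (β + 1) with hR
  let Box : Finset (Fin M → ℤ) := Fintype.piFinset fun _ => Finset.Icc (-(R:ℤ)) R
  have hBox : Box.card = (2 * R + 1) ^ M := by
    rw [Fintype.card_piFinset]
    simp only [Int.card_Icc, prod_const, card_univ, Fintype.card_fin]
    congr 1
    omega
  have hmaps : ∀ p ∈ S ×ˢ KK, F p ∈ Box := by
    rintro ⟨V, k⟩ hp
    rw [mem_product] at hp
    obtain ⟨hV, hk⟩ := hp
    rw [Fintype.mem_piFinset]
    intro i
    rw [mem_Icc, ← abs_le]
    have h1 : |b V i| ≤ 2 ^ (β + 1) := by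
      have h2 := (hb V hV).1
      have h3 := le_nm (b V) i
      rw [Int.abs_eq_natAbs]
      have : (b V i).natAbs ≤ 2 ^ (β + 1) := by omega
      exact_mod_cast this
    have h2 : ∀ j ∈ (univ : Finset (Fin m)), |((k j : ℤ) • av x j) i| ≤ 2 ^ (β + 1) := by
      intro j _
      have h3 := Fintype.mem_piFinset.1 hk j
      rw [mem_range] at h3
      have h4 := hα j j.2
      have h5 := le_nm (av x j) i
      rw [Pi.smul_apply, smul_eq_mul, Int.abs_eq_natAbs, Int.natAbs_mul, Int.natAbs_natCast]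
      have h6 : k j * (av x j i).natAbs ≤ 2 ^ (β + 1) := by
        calc k j * (av x j i).natAbs ≤ 2 ^ (β - α j) * 2 ^ (α j + 1) :=
              Nat.mul_le_mul h3.le (by omega)
          _ = 2 ^ (β + 1) := by
              rw [← pow_add]
              congr 1
              have := hle j j.2
              omega
      exact_mod_cast h6
    change |(b V + ∑ j : Fin m, (k j : ℤ) • av x j) i| ≤ R
    rw [Pi.add_apply, Finset.sum_apply]
    calc |b V i + ∑ j : Fin m, ((k j : ℤ) • av x j) i|
        ≤ |b V i| + |∑ j : Fin m, ((k j : ℤ) • av x j) i| := abs_add_le _ _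
      _ ≤ 2 ^ (β + 1) + ∑ j : Fin m, (2 : ℤ) ^ (β + 1) :=
          add_le_add h1 ((Finset.abs_sum_le_sum_abs _ _).trans (Finset.sum_le_sum h2))
      _ = R := by
          rw [sum_const, card_univ, Fintype.card_fin, nsmul_eq_mul, hR]
          push_cast
          ring
  have hinj : Set.InjOn F (S ×ˢ KK : Finset _) := by
    rintro ⟨V, k⟩ hp ⟨V', k'⟩ hp' heq
    rw [mem_coe, mem_product] at hp hp'
    have hsum : ∀ c : Fin m → ℕ, cq (∑ j : Fin m, (c j : ℤ) • av x j) ∈ fl x m := by
      intro c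
      have h1 : cq (∑ j : Fin m, (c j : ℤ) • av x j) = ∑ j : Fin m, (c j : ℚ) • cq (av x j) := by
        funext i
        simp [cq, Finset.sum_apply]
      rw [h1]
      refine Submodule.sum_mem _ fun j _ => Submodule.smul_mem _ _ ?_
      exact fl_mono x j.2 (cq_av_mem x j)
    change b V + ∑ j : Fin m, (k j : ℤ) • av x j = b V' + ∑ j : Fin m, (k' j : ℤ) • av x j at heq
    have hVV : V = V' := by
      have h1 : cq (b V) - cq (b V') ∈ fl x m := by
        have h2 : b V - b V' = ∑ j : Fin m, (k' j : ℤ) • av x j - ∑ j : Fin m, (k j : ℤ) • av x j := by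
          rw [sub_eq_sub_iff_add_eq_add, heq, add_comm]
        rw [← cq_sub, h2, cq_sub]
        exact sub_mem (hsum k') (hsum k)
      rw [(hb V hp.1).2, (hb V' hp'.1).2]
      apply le_antisymm
      · rw [sup_le_iff]
        refine ⟨le_sup_left, ?_⟩
        rw [Submodule.span_le, Set.singleton_subset_iff]
        have h2 : cq (b V) = (cq (b V) - cq (b V')) + cq (b V') := by abel
        rw [h2]
        exact add_mem (Submodule.mem_sup_left h1)
          (Submodule.mem_sup_right (Submodule.mem_span_singleton_self _))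
      · rw [sup_le_iff]
        refine ⟨le_sup_left, ?_⟩
        rw [Submodule.span_le, Set.singleton_subset_iff]
        have h2 : cq (b V') = cq (b V) - (cq (b V) - cq (b V')) := by abel
        rw [h2]
        exact sub_mem (Submodule.mem_sup_right (Submodule.mem_span_singleton_self _))
          (Submodule.mem_sup_left h1)
    subst hVV
    have h1 : ∑ j : Fin m, (k j : ℤ) • av x j = ∑ j : Fin m, (k' j : ℤ) • av x j :=
      add_left_cancel heq
    have hkk : k = k' := by
      funext j
      let c : ℕ → ℚ := fun i => if h : i < m then (k ⟨i, h⟩ : ℚ) - k' ⟨i, h⟩ else 0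
      have h2 : ∑ i ∈ range m, c i • cq (av x i) = 0 := by
        rw [Finset.sum_range]
        have h3 : ∀ i : Fin m, c i • cq (av x i) = (k i : ℚ) • cq (av x i) -
            (k' i : ℚ) • cq (av x i) := by
          intro i
          simp only [c, dif_pos i.2, Fin.eta]
          rw [sub_smul]
        rw [Finset.sum_congr rfl fun i _ => h3 i, Finset.sum_sub_distrib, sub_eq_zero]
        have h4 := congrArg cq h1
        have h5 : ∀ c : Fin m → ℕ, cq (∑ j : Fin m, (c j : ℤ) • av x j) =
            ∑ j : Fin m, (c j : ℚ) • cq (av x j) := by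
          intro c
          funext i
          simp [cq, Finset.sum_apply]
        rw [h5, h5] at h4
        exact h4
      have h3 := av_indep hx m hm c h2 j j.2
      simp only [c, dif_pos j.2, Fin.eta] at h3
      have h4 : (k j : ℚ) = k' j := sub_eq_zero.1 h3
      exact_mod_cast h4
    rw [hkk]
  have hcard := Finset.card_le_card_of_injOn F hmaps hinj
  rw [card_product, hBox] at hcard
  have hKK : KK.card = ∏ j : Fin m, 2 ^ (β - α j) := by
    rw [Fintype.card_piFinset]
    simp
  have hKK2 : KK.card * 2 ^ (∑ j ∈ range m, α j) = 2 ^ (m * β) := by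
    rw [hKK, Finset.sum_range, ← Finset.prod_pow_eq_pow_sum, ← Finset.prod_mul_distrib]
    have : ∀ j ∈ (univ : Finset (Fin m)), 2 ^ (β - α j) * 2 ^ (α j) = 2 ^ β := by
      intro j _
      rw [← pow_add]
      congr 1
      have := hle j j.2
      omega
    rw [Finset.prod_congr rfl this, prod_const, card_univ, Fintype.card_fin, ← pow_mul, mul_comm]
  have hR2 : 2 * R + 1 ≤ (4 * M + 1) * 2 ^ β := by
    have h1 : 1 ≤ 2 ^ β := Nat.one_le_two_pow
    have h2 : R ≤ M * 2 ^ (β + 1) := Nat.mul_le_mul_right _ hm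
    rw [pow_succ] at h2
    nlinarith
  calc S.card * 2 ^ (m * β) = S.card * KK.card * 2 ^ (∑ j ∈ range m, α j) := by
        rw [← hKK2]; ring
    _ ≤ (2 * R + 1) ^ M * 2 ^ (∑ j ∈ range m, α j) := Nat.mul_le_mul_right _ hcard
    _ ≤ ((4 * M + 1) * 2 ^ β) ^ M * 2 ^ (∑ j ∈ range m, α j) :=
        Nat.mul_le_mul_right _ (Nat.pow_le_pow_left hR2 M)
    _ = (4 * M + 1) ^ M * 2 ^ (M * β + ∑ j ∈ range m, α j) := by
        rw [mul_pow, ← pow_mul, mul_comm β M, pow_add]
        ring

end Q272.PSZ
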