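import Pool.Agent.Q272.PSZ.Exps

/-! Dyadic sums. -/

namespace Q272.PSZ

open Finset

theorem sum_fiber {A : Type*} [DecidableEq A] (𝒜 : Finset A) (s g y : A → ℕ) (w : ℕ → ℝ)
    (hw : ∀ n, 0 ≤ w n) {W : ℝ} (hW : ∀ Y : Finset ℕ, ∑ n ∈ Y, w n ≤ W) {ρ : ℝ} (hρ0 : 0 ≤ ρ)
    {N : ℕ} {R : ℝ} (hR : ∀ G : Finset ℕ, ∑ n ∈ G, ((n + 1 : ℕ) : ℝ) ^ N * ρ ^ n ≤ R)
    (hfib : ∀ a b c, (𝒜.filter fun t => s t = a ∧ g t = b ∧ y t = c).card ≤ (b + 1) ^ N)
    {s₀ τ : ℕ} (hτ : 1 ≤ τ) (hs : ∀ t ∈ 𝒜, s t ≤ s₀) :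
    ∑ t ∈ 𝒜, (2:ℝ) ^ (τ * s t) * ρ ^ g t * w (y t) ≤ 2 * (2:ℝ) ^ (τ * s₀) * R * W := by
  have hW0 : 0 ≤ W := by simpa using hW ∅
  have hR0 : 0 ≤ R := by simpa using hR ∅
  set G := 𝒜.image g with hG
  set Y := 𝒜.image y with hY
  have hmaps : ∀ t ∈ 𝒜, (s t, g t, y t) ∈ range (s₀ + 1) ×ˢ (G ×ˢ Y) := by
    intro t ht
    rw [mem_product, mem_product, mem_range]
    exact ⟨Nat.lt_succ_of_le (hs t ht), mem_image_of_mem _ ht, mem_image_of_mem _ ht⟩
  rw [← Finset.sum_fiberwise_of_maps_to hmaps]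
  have h1 : ∀ p ∈ range (s₀ + 1) ×ˢ (G ×ˢ Y),
      ∑ t ∈ 𝒜 with (s t, g t, y t) = p, (2:ℝ) ^ (τ * s t) * ρ ^ g t * w (y t) ≤
      (2:ℝ) ^ (τ * p.1) * ((((p.2.1 + 1 : ℕ) : ℝ) ^ N * ρ ^ p.2.1) * w p.2.2) := by
    rintro ⟨a, b, c⟩ _
    have h2 : ∀ t ∈ 𝒜.filter (fun t => (s t, g t, y t) = (a, b, c)),
        (2:ℝ) ^ (τ * s t) * ρ ^ g t * w (y t) = (2:ℝ) ^ (τ * a) * ρ ^ b * w c := by
      intro t ht
      have := (mem_filter.1 ht).2
      simp only [Prod.mk.injEq] at this
      rw [this.1, this.2.1, this.2.2]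
    rw [Finset.sum_congr rfl h2, sum_const, nsmul_eq_mul]
    have h3 : ((𝒜.filter (fun t => (s t, g t, y t) = (a, b, c))).card : ℝ) ≤
        ((b + 1 : ℕ) : ℝ) ^ N := by
      have h4 : 𝒜.filter (fun t => (s t, g t, y t) = (a, b, c)) =
          𝒜.filter fun t => s t = a ∧ g t = b ∧ y t = c := by
        ext t
        simp only [mem_filter, Prod.mk.injEq]
      rw [h4]
      exact_mod_cast hfib a b c
    have h5 : 0 ≤ (2:ℝ) ^ (τ * a) * ρ ^ b * w c :=
      mul_nonneg (mul_nonneg (by positivity) (pow_nonneg hρ0 _)) (hw c)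
    calc ((𝒜.filter (fun t => (s t, g t, y t) = (a, b, c))).card : ℝ) *
          ((2:ℝ) ^ (τ * a) * ρ ^ b * w c) ≤ ((b + 1 : ℕ) : ℝ) ^ N *
          ((2:ℝ) ^ (τ * a) * ρ ^ b * w c) := mul_le_mul_of_nonneg_right h3 h5
      _ = _ := by ring
  refine (Finset.sum_le_sum h1).trans ?_
  rw [Finset.sum_product]
  have h2 : ∀ a ∈ range (s₀ + 1), ∑ p ∈ G ×ˢ Y, (2:ℝ) ^ (τ * a) *
      ((((p.1 + 1 : ℕ) : ℝ) ^ N * ρ ^ p.1) * w p.2) ≤ (2:ℝ) ^ (τ * a) * (R * W) := by
    intro a _
    rw [← Finset.mul_sum]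
    apply mul_le_mul_of_nonneg_left _ (by positivity)
    rw [Finset.sum_product]
    have h3 : ∀ b ∈ G, ∑ c ∈ Y, ((((b + 1 : ℕ) : ℝ) ^ N * ρ ^ b) * w c) ≤
        (((b + 1 : ℕ) : ℝ) ^ N * ρ ^ b) * W := by
      intro b _
      rw [← Finset.mul_sum]
      exact mul_le_mul_of_nonneg_left (hW Y) (mul_nonneg (by positivity) (pow_nonneg hρ0 _))
    refine (Finset.sum_le_sum h3).trans ?_
    rw [← Finset.sum_mul]
    exact mul_le_mul_of_nonneg_right (hR G) hW0
  refine (Finset.sum_le_sum h2).trans ?_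
  rw [← Finset.sum_mul]
  have h3 : ∀ n : ℕ, ∑ a ∈ range (n + 1), (2:ℝ) ^ (τ * a) ≤ 2 * (2:ℝ) ^ (τ * n) := by
    intro n
    induction n with
    | zero => simp
    | succ n ih =>
      rw [sum_range_succ]
      have h4 : 2 * (2:ℝ) ^ (τ * n) ≤ (2:ℝ) ^ (τ * (n + 1)) := by
        rw [← pow_succ']
        apply pow_le_pow_right₀ (by norm_num)
        nlinarith
      linarith
  calc (∑ a ∈ range (s₀ + 1), (2:ℝ) ^ (τ * a)) * (R * W) ≤ (2 * (2:ℝ) ^ (τ * s₀)) * (R * W) :=
        mul_le_mul_of_nonneg_right (h3 s₀) (mul_nonneg hR0 hW0)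
    _ = _ := by ring

theorem exists_R (N : ℕ) {ρ : ℝ} (hρ0 : 0 ≤ ρ) (hρ1 : ρ < 1) :
    ∃ R : ℝ, ∀ G : Finset ℕ, ∑ n ∈ G, ((n + 1 : ℕ) : ℝ) ^ N * ρ ^ n ≤ R := by
  have hsum : Summable fun n : ℕ => ((n + 1 : ℕ) : ℝ) ^ N * ρ ^ n := by
    rcases hρ0.eq_or_lt with h0 | h0
    · rw [← h0]
      apply summable_of_ne_finset_zero (s := {0})
      intro n hn
      rw [mem_singleton] at hn
      rw [zero_pow hn, mul_zero]
    · have h1 : Summable fun n : ℕ => (n : ℝ) ^ N * ρ ^ n :=
        summable_pow_mul_geometric_of_norm_lt_one N (by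
          rw [Real.norm_of_nonneg hρ0]; exact hρ1)
      have h2 := (summable_nat_add_iff 1).2 h1
      have h3 := h2.mul_left ρ⁻¹
      refine h3.congr fun n => ?_
      rw [pow_succ]
      field_simp
  exact ⟨_, fun G => hsum.sum_le_tsum G fun n _ =>
    mul_nonneg (by positivity) (pow_nonneg hρ0 _)⟩

/-- Admissible exponent sequences. -/
structure Adm (N s₀ : ℕ) (α : ℕ → ℕ) : Prop where
  mono : ∀ i j, i ≤ j → j < N → α i ≤ α j
  zero : ∀ j, N ≤ j → α j = 0
  sum : ∑ i ∈ range N, α i ≤ s₀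

theorem fiber_good {N s₀ : ℕ} (hN : 0 < N) [DecidableEq (ℕ → ℕ)] (𝒜 : Finset (ℕ → ℕ))
    (h𝒜 : ∀ α ∈ 𝒜, Adm N s₀ α) (a b c : ℕ) :
    (𝒜.filter fun α => ∑ i ∈ range N, α i = a ∧ α (N - 1) - α 0 = b ∧ 0 = c).card ≤
      (b + 1) ^ N := by
  classical
  have hcard : (Fintype.piFinset fun _ : Fin N => range (b + 1)).card = (b + 1) ^ N := by
    rw [Fintype.card_piFinset]
    simp
  rw [← hcard]
  apply Finset.card_le_card_of_injOn (fun α => fun i : Fin N => α i - α 0)
  · intro α hα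
    obtain ⟨h1, h2, h3, h4⟩ := mem_filter.1 hα
    rw [mem_coe, Fintype.mem_piFinset]
    intro i
    rw [mem_range]
    have := (h𝒜 α h1).mono i (N - 1) (by omega) (by omega)
    change α i - α 0 < b + 1
    omega
  · intro α hα β hβ heq
    obtain ⟨h1, h2, h3, h4⟩ := mem_filter.1 (mem_coe.1 hα)
    obtain ⟨h1', h2', h3', h4'⟩ := mem_filter.1 (mem_coe.1 hβ)
    have hd : ∀ i < N, α i - α 0 = β i - β 0 := fun i hi => congrFun heq ⟨i, hi⟩
    have hle : ∀ i < N, α 0 ≤ α i := fun i hi => (h𝒜 α h1).mono 0 i (by omega) hi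
    have hle' : ∀ i < N, β 0 ≤ β i := fun i hi => (h𝒜 β h1').mono 0 i (by omega) hi
    have hsa : ∑ i ∈ range N, α i = N * α 0 + ∑ i ∈ range N, (α i - α 0) := by
      have : ∀ i ∈ range N, α i = α 0 + (α i - α 0) := fun i hi => by
        have := hle i (mem_range.1 hi); omega
      conv_lhs => rw [Finset.sum_congr rfl this, Finset.sum_add_distrib, sum_const, card_range,
        smul_eq_mul]
    have hsb : ∑ i ∈ range N, β i = N * β 0 + ∑ i ∈ range N, (β i - β 0) := by
      have : ∀ i ∈ range N, β i = β 0 + (β i - β 0) := fun i hi => by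
        have := hle' i (mem_range.1 hi); omega
      conv_lhs => rw [Finset.sum_congr rfl this, Finset.sum_add_distrib, sum_const, card_range,
        smul_eq_mul]
    have hdd : ∑ i ∈ range N, (α i - α 0) = ∑ i ∈ range N, (β i - β 0) :=
      Finset.sum_congr rfl fun i hi => hd i (mem_range.1 hi)
    have h00 : α 0 = β 0 := by
      have h5 : N * α 0 = N * β 0 := by omega
      exact Nat.eq_of_mul_eq_mul_left hN h5
    funext i
    by_cases hi : i < N
    · have := hd i hi
      have := hle i hi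
      have := hle' i hi
      omega
    · rw [(h𝒜 α h1).zero i (by omega), (h𝒜 β h1').zero i (by omega)]

theorem fiber_bad {N s₀ r : ℕ} (hr : 0 < r) (hrN : r < N) [DecidableEq (ℕ → ℕ)]
    (𝒜 : Finset (ℕ → ℕ)) (h𝒜 : ∀ α ∈ 𝒜, Adm N s₀ α) (a b c : ℕ) :
    (𝒜.filter fun α => ∑ i ∈ range N, α i = a ∧
      (α (N - 1) - α r) + (α (r - 1) - α 0) = b ∧ ∑ i ∈ range r, ex N α i = c).card ≤
      (b + 1) ^ N := by
  classical
  have hcard : (Fintype.piFinset fun _ : Fin N => range (b + 1)).card = (b + 1) ^ N := by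
    rw [Fintype.card_piFinset]
    simp
  rw [← hcard]
  apply Finset.card_le_card_of_injOn
    (fun α => fun i : Fin N => if (i : ℕ) < r then α i - α 0 else α i - α r)
  · intro α hα
    obtain ⟨h1, h2, h3, h4⟩ := mem_filter.1 hα
    rw [mem_coe, Fintype.mem_piFinset]
    intro i
    rw [mem_range]
    have hm := (h𝒜 α h1).mono
    change (if (i : ℕ) < r then α i - α 0 else α i - α r) < b + 1
    split_ifs with h
    · have := hm i (r - 1) (by omega) (by omega)
      omega
    · have := hm i (N - 1) (by omega) (by omega)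
      omega
  · intro α hα β hβ heq
    obtain ⟨h1, h2, h3, h4⟩ := mem_filter.1 (mem_coe.1 hα)
    obtain ⟨h1', h2', h3', h4'⟩ := mem_filter.1 (mem_coe.1 hβ)
    have hma := (h𝒜 α h1).mono
    have hmb := (h𝒜 β h1').mono
    have hd1 : ∀ i < r, α i - α 0 = β i - β 0 := fun i hi => by
      have := congrFun heq ⟨i, by omega⟩
      simpa [hi] using this
    have hd2 : ∀ i, r ≤ i → i < N → α i - α r = β i - β r := fun i hi hi' => by
      have := congrFun heq ⟨i, hi'⟩
      simpa [not_lt.2 hi] using this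
    -- comparison of the first block
    have hcmp : ∀ α β : ℕ → ℕ, (∀ i < r, α i < β i) →
        ∑ i ∈ range r, ex N α i < ∑ i ∈ range r, ex N β i := by
      intro α β h
      apply Finset.sum_lt_sum_of_nonempty (by rw [nonempty_range_iff]; omega)
      intro i hi
      rw [mem_range] at hi
      unfold ex
      apply add_lt_add_of_lt_of_le
      · exact Nat.mul_lt_mul_of_pos_left (h i hi) (by omega)
      · exact Finset.sum_le_sum fun j hj => (h j (by rw [mem_range] at hj; omega)).le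
    have h00 : α 0 = β 0 := by
      rcases lt_trichotomy (α 0) (β 0) with h | h | h
      · exfalso
        have := hcmp α β fun i hi => by
          have h5 := hd1 i hi
          have h6 := hma 0 i (by omega) (by omega)
          have h7 := hmb 0 i (by omega) (by omega)
          omega
        omega
      · exact h
      · exfalso
        have := hcmp β α fun i hi => by
          have h5 := hd1 i hi
          have h6 := hma 0 i (by omega) (by omega)
          have h7 := hmb 0 i (by omega) (by omega)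
          omega
        omega
    have hlow : ∀ i < r, α i = β i := fun i hi => by
      have h5 := hd1 i hi
      have h6 := hma 0 i (by omega) (by omega)
      have h7 := hmb 0 i (by omega) (by omega)
      omega
    have hsplit : ∀ α : ℕ → ℕ, ∑ i ∈ range N, α i = ∑ i ∈ range r, α i + ∑ i ∈ Ico r N, α i :=
      fun α => (Finset.sum_range_add_sum_Ico α hrN.le).symm
    have hlows : ∑ i ∈ range r, α i = ∑ i ∈ range r, β i :=
      Finset.sum_congr rfl fun i hi => hlow i (mem_range.1 hi)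
    have hhigh : ∑ i ∈ Ico r N, α i = ∑ i ∈ Ico r N, β i := by
      have h5 := hsplit α
      have h6 := hsplit β
      omega
    have hrr : α r = β r := by
      have hcmp2 : ∀ α β : ℕ → ℕ, (∀ i, r ≤ i → i < N → α i < β i) →
          ∑ i ∈ Ico r N, α i < ∑ i ∈ Ico r N, β i := by
        intro α β h
        apply Finset.sum_lt_sum_of_nonempty (by rw [nonempty_Ico]; exact hrN)
        intro i hi
        rw [mem_Ico] at hi
        exact h i hi.1 hi.2
      rcases lt_trichotomy (α r) (β r) with h | h | h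
      · exfalso
        have := hcmp2 α β fun i hi hi' => by
          have h5 := hd2 i hi hi'
          have h6 := hma r i (by omega) (by omega)
          have h7 := hmb r i (by omega) (by omega)
          omega
        omega
      · exact h
      · exfalso
        have := hcmp2 β α fun i hi hi' => by
          have h5 := hd2 i hi hi'
          have h6 := hma r i (by omega) (by omega)
          have h7 := hmb r i (by omega) (by omega)
          omega
        omega
    funext i
    by_cases hi : i < N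
    · by_cases hir : i < r
      · exact hlow i hir
      · have h5 := hd2 i (by omega) hi
        have h6 := hma r i (by omega) (by omega)
        have h7 := hmb r i (by omega) (by omega)
        omega
    · rw [(h𝒜 α h1).zero i (by omega), (h𝒜 β h1').zero i (by omega)]

end Q272.PSZ
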