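import Pool.Agent.Q272.PSZ.Hilb
import Pool.Agent.Q272.PSZ.Spans

/-! Following the components along the flag. -/

namespace Q272.PSZ

open MvPolynomial Finset Filter

attribute [local instance] MvPolynomial.gradedAlgebra

variable {M : ℕ}

/-- The linear form of a rational vector. -/
noncomputable def lin (v : Fin M → ℚ) : Pol M := ∑ i, C (v i) * X i

theorem lin_homog (v : Fin M → ℚ) : (lin v).IsHomogeneous 1 :=
  IsHomogeneous.sum _ _ _ fun i _ => isHomogeneous_C_mul_X _ _

theorem lin_add (v w : Fin M → ℚ) : lin (v + w) = lin v + lin w := by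
  unfold lin
  rw [← sum_add_distrib]
  refine sum_congr rfl fun i _ => ?_
  rw [Pi.add_apply, map_add, add_mul]

theorem lin_smul (c : ℚ) (v : Fin M → ℚ) : lin (c • v) = C c * lin v := by
  unfold lin
  rw [Finset.mul_sum]
  refine sum_congr rfl fun i _ => ?_
  rw [Pi.smul_apply, smul_eq_mul, map_mul, mul_assoc]

theorem lin_mem_sup {P : Ideal (Pol M)} {V W : Submodule ℚ (Fin M → ℚ)} (hV : ∀ v ∈ V, lin v ∈ P)
    (hW : ∀ v ∈ W, lin v ∈ P) : ∀ v ∈ V ⊔ W, lin v ∈ P := by
  intro v hv
  obtain ⟨a, ha, b, hb, rfl⟩ := Submodule.mem_sup.1 hv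
  rw [lin_add]
  exact add_mem (hV a ha) (hW b hb)

theorem lin_mem_span {P : Ideal (Pol M)} {w : Fin M → ℚ} (hw : lin w ∈ P) :
    ∀ v ∈ Submodule.span ℚ {w}, lin v ∈ P := by
  intro v hv
  obtain ⟨c, rfl⟩ := Submodule.mem_span_singleton.1 hv
  rw [lin_smul]
  exact Ideal.mul_mem_left _ _ hw

/-- The algebra map defining the ideal of a point. -/
noncomputable def evx (x : Fin M → ℤ) : Pol M →ₐ[ℚ] Polynomial ℚ :=
  aeval fun i => (x i : ℚ) • (Polynomial.X : Polynomial ℚ)

/-- The homogeneous ideal of a point. -/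
noncomputable def mx (x : Fin M → ℤ) : Ideal (Pol M) := RingHom.ker (evx x)

theorem mem_mx {x : Fin M → ℤ} {f : Pol M} : f ∈ mx x ↔ evx x f = 0 := Iff.rfl

instance (x : Fin M → ℤ) : (mx x).IsPrime := RingHom.ker_isPrime _

theorem lin_mem_mx {x : Fin M → ℤ} {v : Fin M → ℚ} : lin v ∈ mx x ↔ v ∈ perpQ x := by
  rw [mem_mx, mem_perpQ]
  have h1 : evx x (lin v) = (∑ i, v i * x i) • (Polynomial.X : Polynomial ℚ) := by
    unfold lin evx
    rw [map_sum, Finset.sum_smul]
    refine sum_congr rfl fun i _ => ?_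
    rw [map_mul, aeval_C, aeval_X, ← Algebra.smul_def, smul_smul]
  rw [h1, smul_eq_zero]
  simp [Polynomial.X_ne_zero]

theorem X_pow_notMem {x : Fin M → ℤ} {i : Fin M} (hi : x i ≠ 0) (t : ℕ) :
    (X i : Pol M) ^ t ∉ mx x := by
  rw [mem_mx]
  unfold evx
  rw [map_pow, aeval_X]
  apply pow_ne_zero
  rw [smul_ne_zero_iff]
  exact ⟨by exact_mod_cast hi, Polynomial.X_ne_zero⟩

theorem hilb_pos {P : Ideal (Pol M)} {x : Fin M → ℤ} (hx : x ≠ 0) (hP : P ≤ mx x) (t : ℕ) :
    1 ≤ hilb P t := by
  obtain ⟨i, hi⟩ := Function.ne_iff.1 hx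
  have h1 : Ideal.Quotient.mk P ((X i : Pol M) ^ t) ∈ gr P t :=
    mk_mem_gr (isHomogeneous_X_pow _ _)
  have h2 : Ideal.Quotient.mk P ((X i : Pol M) ^ t) ≠ 0 := by
    rw [Ne, Ideal.Quotient.eq_zero_iff_mem]
    exact fun h => X_pow_notMem hi t (hP h)
  unfold hilb
  rw [Nat.one_le_iff_ne_zero, Ne, Submodule.finrank_eq_zero]
  intro h
  rw [h, Submodule.mem_bot] at h1
  exact h2 h1

/-- Following the components. -/
def Follows (x : Fin M → ℤ) : List Bool → ℕ → Ideal (Pol M) → Prop
  | [], _, _ => True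
  | false :: l, m, P => lin (cq (av x m)) ∈ P ∧ Follows x l (m + 1) P
  | true :: l, m, P => lin (cq (av x m)) ∉ P ∧
      ∃ Q ∈ (P ⊔ Ideal.span {lin (cq (av x m))}).minimalPrimes, Q ≤ mx x ∧ Follows x l (m + 1) Q

/-- The number of choices in a step. -/
def cost (M : ℕ) (α : ℕ → ℕ) (m : ℕ) : ℕ :=
  (4 * M + 1) ^ M * 2 ^ ((M - m) * α m + ∑ j ∈ range m, α j)

theorem cost_pos (α : ℕ → ℕ) (m : ℕ) : 0 < cost M α m :=
  Nat.mul_pos (pow_pos (by omega) _) (pow_pos (by norm_num) _)

/-- The cost of the `true` steps. -/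
def pc (M : ℕ) (α : ℕ → ℕ) : List Bool → ℕ → ℕ
  | [], _ => 1
  | false :: l, m => pc M α l (m + 1)
  | true :: l, m => cost M α m * pc M α l (m + 1)

/-- The cost of the `false` steps. -/
def ps (M : ℕ) (α : ℕ → ℕ) : List Bool → ℕ → ℕ
  | [], _ => 1
  | false :: l, m => cost M α m * ps M α l (m + 1)
  | true :: l, m => ps M α l (m + 1)

theorem pc_pos (α : ℕ → ℕ) (l : List Bool) : ∀ m, 0 < pc M α l m := by
  induction l with
  | nil => intro m; exact Nat.one_pos
  | cons b l ih =>
    intro m
    cases b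
    · exact ih (m + 1)
    · exact Nat.mul_pos (cost_pos α m) (ih (m + 1))

/-- A family of pairwise non-proportional vectors of the same size type. -/
structure Good (α : ℕ → ℕ) (Y : Finset (Fin M → ℤ)) : Prop where
  ne : ∀ x ∈ Y, x ≠ 0
  inj : ∀ x ∈ Y, ∀ y ∈ Y, perpQ x = perpQ y → x = y
  log : ∀ x ∈ Y, ∀ j, j + 2 ≤ M → Nat.log 2 (nm (av x j)) = α j

theorem Good.subset {α : ℕ → ℕ} {Y Z : Finset (Fin M → ℤ)} (h : Good α Y) (hZ : Z ⊆ Y) :
    Good α Z :=
  ⟨fun x hx => h.ne x (hZ hx), fun x hx y hy => h.inj x (hZ hx) y (hZ hy),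
    fun x hx => h.log x (hZ hx)⟩

theorem card_step {α : ℕ → ℕ} {Y : Finset (Fin M → ℤ)} (hY : Good α Y) {m : ℕ} (hm : m + 2 ≤ M)
    {V : Submodule ℚ (Fin M → ℚ)} (hV : ∀ x ∈ Y, fl x m = V) :
    open scoped Classical in (Y.image fun x => fl x (m + 1)).card ≤ cost M α m := by
  classical
  rcases Y.eq_empty_or_nonempty with h0 | ⟨x₀, hx₀⟩
  · rw [h0, image_empty, card_empty]; exact Nat.zero_le _
  have hne := hY.ne x₀ hx₀
  have hlt : ∀ x ∈ Y, ∀ j, j + 2 ≤ M → nm (av x j) < 2 ^ (α j + 1) := by
    intro x hx j hj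
    rw [← hY.log x hx j hj]
    exact Nat.lt_pow_succ_log_self (by norm_num) _
  have h1 := card_spans hne m (by omega) α (α m) (fun j hj => hlt x₀ hx₀ j (by omega))
    (fun j hj => by
      rw [← hY.log x₀ hx₀ j (by omega), ← hY.log x₀ hx₀ m hm]
      exact Nat.log_mono_right (nm_av_mono hne hj.le hm))
    (Y.image fun x => fl x (m + 1)) (by
      intro V' hV'
      obtain ⟨x, hx, rfl⟩ := mem_image.1 hV'
      exact ⟨av x m, hlt x hx m hm, by rw [fl_succ, hV x hx, hV x₀ hx₀]⟩)
  unfold cost
  have h2 : M * α m + ∑ j ∈ range m, α j =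
      m * α m + ((M - m) * α m + ∑ j ∈ range m, α j) := by
    have : M = m + (M - m) := by omega
    conv_lhs => rw [this]
    ring
  rw [h2, pow_add, mul_comm (2 ^ (m * α m)), ← mul_assoc] at h1
  exact Nat.le_of_mul_le_mul_right h1 (pow_pos (by norm_num) _)

/-- The trivial count. -/
theorem card_total (α : ℕ → ℕ) (l : List Bool) : ∀ m, m + l.length + 1 = M →
    ∀ (V : Submodule ℚ (Fin M → ℚ)) (Y : Finset (Fin M → ℤ)), Good α Y →
      (∀ x ∈ Y, fl x m = V) → Y.card ≤ pc M α l m * ps M α l m := by
  classical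
  induction l with
  | nil =>
    intro m hm V Y hY hV
    change Y.card ≤ 1 * 1
    rw [mul_one, Finset.card_le_one]
    intro x hx y hy
    apply hY.inj x hx y hy
    rw [← fl_top (hY.ne x hx) m (by simpa using hm), ← fl_top (hY.ne y hy) m (by simpa using hm),
      hV x hx, hV y hy]
  | cons b l ih =>
    intro m hm V Y hY hV
    rw [List.length_cons] at hm
    have hstep := card_step hY (m := m) (by omega) hV
    have h1 : Y.card ≤ cost M α m * (pc M α l (m + 1) * ps M α l (m + 1)) := by
      calc Y.card = ∑ V' ∈ Y.image (fun x => fl x (m + 1)),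
            (Y.filter fun x => fl x (m + 1) = V').card :=
            Finset.card_eq_sum_card_fiberwise fun x hx => mem_image_of_mem _ hx
        _ ≤ ∑ V' ∈ Y.image (fun x => fl x (m + 1)), pc M α l (m + 1) * ps M α l (m + 1) := by
            apply Finset.sum_le_sum
            intro V' _
            exact ih (m + 1) (by omega) V' _ (hY.subset (filter_subset _ _))
              fun x hx => (mem_filter.1 hx).2
        _ = (Y.image fun x => fl x (m + 1)).card * (pc M α l (m + 1) * ps M α l (m + 1)) := by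
            rw [sum_const, smul_eq_mul]
        _ ≤ _ := Nat.mul_le_mul_right _ hstep
    cases b
    · change _ ≤ pc M α l (m + 1) * (cost M α m * ps M α l (m + 1))
      refine h1.trans (le_of_eq (by ring))
    · change _ ≤ cost M α m * pc M α l (m + 1) * ps M α l (m + 1)
      refine h1.trans (le_of_eq (by ring))

theorem minimalPrime_homog {J Q : Ideal (Pol M)}
    (hJ : J.IsHomogeneous (homogeneousSubmodule (Fin M) ℚ)) (hQ : Q ∈ J.minimalPrimes) :
    Q.IsHomogeneous (homogeneousSubmodule (Fin M) ℚ) := by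
  have hp : (Q.homogeneousCore (homogeneousSubmodule (Fin M) ℚ)).toIdeal.IsPrime :=
    Ideal.IsPrime.homogeneousCore hQ.1.1
  have hle : (Q.homogeneousCore (homogeneousSubmodule (Fin M) ℚ)).toIdeal ≤ Q :=
    Ideal.toIdeal_homogeneousCore_le _ _
  have hJle : J ≤ (Q.homogeneousCore (homogeneousSubmodule (Fin M) ℚ)).toIdeal := by
    rw [← hJ.toIdeal_homogeneousCore_eq_self]
    exact Ideal.homogeneousCore_mono _ hQ.1.2
  rw [Ideal.IsHomogeneous.iff_eq]
  exact le_antisymm hle (hQ.2 ⟨hp, hJle⟩ hle)

theorem sup_lin_homog {P : Ideal (Pol M)}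
    (hP : P.IsHomogeneous (homogeneousSubmodule (Fin M) ℚ)) (v : Fin M → ℚ) :
    (P ⊔ Ideal.span {lin v}).IsHomogeneous (homogeneousSubmodule (Fin M) ℚ) := by
  apply Ideal.IsHomogeneous.sup hP
  apply Ideal.homogeneous_span
  intro f hf
  rw [Set.mem_singleton_iff] at hf
  rw [hf]
  exact ⟨1, lin_homog v⟩

/-- The count with degrees. -/
theorem LB_tree (α : ℕ → ℕ) (l : List Bool) : ∀ m, m + l.length + 1 = M →
    ∀ (V : Submodule ℚ (Fin M → ℚ)) (P : Ideal (Pol M)), P.IsPrime →
      P.IsHomogeneous (homogeneousSubmodule (Fin M) ℚ) → (∀ v ∈ V, lin v ∈ P) →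
      ∀ Y : Finset (Fin M → ℤ), Good α Y →
      (∀ x ∈ Y, fl x m = V ∧ P ≤ mx x ∧ Follows x l m P) →
      LB (hilb P) (l.count true) ((Y.card : ℝ) / pc M α l m) := by
  classical
  induction l with
  | nil =>
    intro m hm V P hPp hPh hVP Y hY hx
    rcases Y.eq_empty_or_nonempty with h0 | ⟨x₀, hx₀⟩
    · apply LB.of_nonpos
      rw [h0, card_empty]
      simp
    · have hcard : Y.card ≤ 1 := by
        rw [Finset.card_le_one]
        intro x hxY y hyY
        apply hY.inj x hxY y hyY
        rw [← fl_top (hY.ne x hxY) m (by simpa using hm),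
          ← fl_top (hY.ne y hyY) m (by simpa using hm), (hx x hxY).1, (hx y hyY).1]
      intro q' hq'
      refine Eventually.of_forall fun t => ?_
      have h1 := hilb_pos (hY.ne x₀ hx₀) (hx x₀ hx₀).2.1 t
      have h2 : (1:ℝ) ≤ hilb P t := by exact_mod_cast h1
      have h3 : (Y.card : ℝ) ≤ 1 := by exact_mod_cast hcard
      have h4 : ((pc M α [] m : ℕ) : ℝ) = 1 := by
        change ((1:ℕ):ℝ) = 1
        norm_num
      rw [h4, div_one] at hq'
      rw [List.count_nil, pow_zero, Nat.factorial_zero]
      push_cast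
      linarith
  | cons b l ih =>
    intro m hm V P hPp hPh hVP Y hY hx
    rw [List.length_cons] at hm
    cases b
    · -- the component stays
      rcases Y.eq_empty_or_nonempty with h0 | ⟨x₀, hx₀⟩
      · apply LB.of_nonpos
        rw [h0, card_empty]
        simp
      have hav : ∀ x ∈ Y, av x m = sel {a | lin (cq a) ∈ P} V := by
        intro x hxY
        obtain ⟨h1, h2, h3, _⟩ := hx x hxY
        have h4 := not_perpQ_le (hY.ne x hxY) m (by omega)
        have h5 : sel {a | lin (cq a) ∈ P} (fl x m) = sel (perp x) (fl x m) := by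
          apply sel_subset
          · intro a ha
            exact cq_mem_perpQ.1 (lin_mem_mx.1 (h2 ha))
          · exact exists_perp_notMem h4
          · exact h3
        rw [← h1, h5]
        rfl
      have hfl : ∀ x ∈ Y, fl x (m + 1) = fl x₀ (m + 1) := by
        intro x hxY
        rw [fl_succ, fl_succ, hav x hxY, hav x₀ hx₀, (hx x hxY).1, (hx x₀ hx₀).1]
      have h1 := ih (m + 1) (by omega) (fl x₀ (m + 1)) P hPp hPh (by
        rw [fl_succ, (hx x₀ hx₀).1]
        exact lin_mem_sup hVP (lin_mem_span (hx x₀ hx₀).2.2.1)) Y hY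
        (fun x hxY => ⟨hfl x hxY, (hx x hxY).2.1, (hx x hxY).2.2.2⟩)
      have h2 : (false :: l).count true = l.count true := by simp
      rw [h2]
      exact h1
    · -- the component drops
      have hstep := card_step hY (m := m) (by omega) (fun x hxY => (hx x hxY).1)
      set S := Y.image fun x => fl x (m + 1) with hS
      have hcount : (true :: l).count true = l.count true + 1 := by simp
      rw [hcount]
      -- one step of the flag
      have hone : ∀ V' ∈ S, LB (hilb P) (l.count true + 1)
          (((Y.filter fun x => fl x (m + 1) = V').card : ℝ) / pc M α l (m + 1)) := by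
        intro V' hV'
        set Y' := Y.filter fun x => fl x (m + 1) = V' with hY'
        obtain ⟨x₁, hx₁, hx₁V⟩ := mem_image.1 hV'
        have hsub : Y' ⊆ Y := filter_subset _ _
        set J := P ⊔ Ideal.span {lin (cq (av x₁ m))} with hJ
        have hVfl : ∀ x ∈ Y', V' = V ⊔ Submodule.span ℚ {cq (av x m)} := by
          intro x hxY
          have h1 := (mem_filter.1 hxY).2
          rw [← h1, fl_succ, (hx x (hsub hxY)).1]
        have hV'₁ : V' = V ⊔ Submodule.span ℚ {cq (av x₁ m)} := by
          rw [← hx₁V, fl_succ, (hx x₁ hx₁).1]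
        have hJx : ∀ x ∈ Y', P ⊔ Ideal.span {lin (cq (av x m))} = J := by
          intro x hxY
          apply le_antisymm
          · rw [sup_le_iff]
            refine ⟨le_sup_left, ?_⟩
            rw [Ideal.span_le, Set.singleton_subset_iff]
            have h1 : ∀ v ∈ V', lin v ∈ J := by
              rw [hV'₁]
              exact lin_mem_sup (fun v hv => Ideal.mem_sup_left (hVP v hv))
                (lin_mem_span (Ideal.mem_sup_right (Ideal.mem_span_singleton_self _)))
            apply h1
            rw [hVfl x hxY]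
            exact Submodule.mem_sup_right (Submodule.mem_span_singleton_self _)
          · rw [hJ, sup_le_iff]
            refine ⟨le_sup_left, ?_⟩
            rw [Ideal.span_le, Set.singleton_subset_iff]
            have h1 : ∀ v ∈ V', lin v ∈ P ⊔ Ideal.span {lin (cq (av x m))} := by
              rw [hVfl x hxY]
              exact lin_mem_sup (fun v hv => Ideal.mem_sup_left (hVP v hv))
                (lin_mem_span (Ideal.mem_sup_right (Ideal.mem_span_singleton_self _)))
            apply h1
            rw [hV'₁]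
            exact Submodule.mem_sup_right (Submodule.mem_span_singleton_self _)
        have hex : ∀ x : Fin M → ℤ, ∃ Q : Ideal (Pol M), x ∈ Y' → Q ∈ J.minimalPrimes ∧
            Q ≤ mx x ∧ Follows x l (m + 1) Q := by
          intro x
          by_cases hxY : x ∈ Y'
          · obtain ⟨_, _, _, Q, hQ, hQx, hQf⟩ := hx x (hsub hxY)
            rw [hJx x hxY] at hQ
            exact ⟨Q, fun _ => ⟨hQ, hQx, hQf⟩⟩
          · exact ⟨⊥, fun h => absurd h hxY⟩
        choose Qx hQx using hex
        set 𝒬 := Y'.image Qx with h𝒬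
        have hmin : ∀ Q ∈ 𝒬, Q ∈ J.minimalPrimes := by
          intro Q hQ
          obtain ⟨x, hxY, rfl⟩ := mem_image.1 hQ
          exact (hQx x hxY).1
        have hJh : J.IsHomogeneous (homogeneousSubmodule (Fin M) ℚ) := sup_lin_homog hPh _
        have hLB : ∀ Q : 𝒬, LB (hilb Q.1) (l.count true)
            (((Y'.filter fun x => Qx x = Q.1).card : ℝ) / pc M α l (m + 1)) := by
          intro Q
          have hQm := hmin Q.1 Q.2
          apply ih (m + 1) (by omega) V' Q.1 hQm.1.1 (minimalPrime_homog hJh hQm)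
          · have h1 : ∀ v ∈ V', lin v ∈ J := by
              rw [hV'₁]
              exact lin_mem_sup (fun v hv => Ideal.mem_sup_left (hVP v hv))
                (lin_mem_span (Ideal.mem_sup_right (Ideal.mem_span_singleton_self _)))
            exact fun v hv => hQm.1.2 (h1 v hv)
          · exact (hY.subset hsub).subset (filter_subset _ _)
          · intro x hxY
            obtain ⟨h1, h2⟩ := mem_filter.1 hxY
            have h3 := hQx x h1
            rw [h2] at h3
            exact ⟨(mem_filter.1 h1).2, h3.2.1, h3.2.2⟩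
        have hsec := LB_section (P := P) (ℓ := lin (cq (av x₁ m))) (lin_homog _)
          (hx x₁ hx₁).2.2.1 (Q := fun Q : 𝒬 => Q.1) (fun Q => (hmin Q.1 Q.2).1.1)
          (fun Q => minimalPrime_homog hJh (hmin Q.1 Q.2)) (by
            intro Q₁ Q₂ hne hle
            apply hne
            apply Subtype.ext
            exact le_antisymm ((hmin Q₁.1 Q₁.2).2 (hmin Q₂.1 Q₂.2).1 hle) hle)
          (fun Q => (hmin Q.1 Q.2).1.2) hLB
        have hsum : ∑ Q : 𝒬, (((Y'.filter fun x => Qx x = Q.1).card : ℝ) / pc M α l (m + 1)) =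
            (Y'.card : ℝ) / pc M α l (m + 1) := by
          rw [← Finset.sum_div]
          congr 1
          have h1 : Y'.card = ∑ Q ∈ 𝒬, (Y'.filter fun x => Qx x = Q).card :=
            Finset.card_eq_sum_card_fiberwise fun x hxY => mem_image_of_mem _ hxY
          rw [h1]
          push_cast
          exact Finset.sum_coe_sort 𝒬 (fun Q => ((Y'.filter fun x => Qx x = Q).card : ℝ))
        rw [hsum] at hsec
        exact hsec
      -- choose the largest class
      rcases S.eq_empty_or_nonempty with h0 | hSne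
      · have hY0 : Y = ∅ := by
          rwa [hS, Finset.image_eq_empty] at h0
        apply LB.of_nonpos
        rw [hY0, card_empty]
        simp
      obtain ⟨V', hV', hmax⟩ := S.exists_max_image
        (fun V' => (Y.filter fun x => fl x (m + 1) = V').card) hSne
      have hYcard : Y.card ≤ cost M α m * (Y.filter fun x => fl x (m + 1) = V').card := by
        calc Y.card = ∑ V'' ∈ S, (Y.filter fun x => fl x (m + 1) = V'').card :=
              Finset.card_eq_sum_card_fiberwise fun x hxY => mem_image_of_mem _ hxY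
          _ ≤ ∑ V'' ∈ S, (Y.filter fun x => fl x (m + 1) = V').card := Finset.sum_le_sum hmax
          _ = S.card * (Y.filter fun x => fl x (m + 1) = V').card := by
              rw [sum_const, smul_eq_mul]
          _ ≤ _ := Nat.mul_le_mul_right _ hstep
      refine (hone V' hV').mono ?_ (Eventually.of_forall fun t => le_rfl)
      change (Y.card : ℝ) / ((cost M α m * pc M α l (m + 1) : ℕ) : ℝ) ≤ _
      have hpc : (0:ℝ) < pc M α l (m + 1) := by exact_mod_cast pc_pos α l (m + 1)
      have hco : (0:ℝ) < cost M α m := by exact_mod_cast cost_pos α m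
      rw [div_le_div_iff₀ (by push_cast; positivity) hpc]
      have h1 : (Y.card : ℝ) ≤ cost M α m * (Y.filter fun x => fl x (m + 1) = V').card := by
        exact_mod_cast hYcard
      push_cast
      calc (Y.card : ℝ) * pc M α l (m + 1) ≤
          (cost M α m * (Y.filter fun x => fl x (m + 1) = V').card) * pc M α l (m + 1) :=
            mul_le_mul_of_nonneg_right h1 hpc.le
        _ = _ := by ring

end Q272.PSZ
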