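import Pool.Agent.Q272.PSZ.Tree
import Pool.Agent.Q272.PSZ.PIT
import Pool.Agent.Q272.PSZ.Exps

/-! Types of flags with respect to a component, and closed forms for the costs. -/

namespace Q272.PSZ

open MvPolynomial Finset Filter

attribute [local instance] MvPolynomial.gradedAlgebra

variable {M : ℕ}

/-- The closed form of a cost. -/
theorem cost_eq (hM : 1 ≤ M) (α : ℕ → ℕ) (m : ℕ) :
    cost M α m = (4 * M + 1) ^ M * 2 ^ ex (M - 1) α m := by
  unfold cost ex
  rw [Nat.sub_add_cancel hM]

theorem pc_eq (hM : 1 ≤ M) (α : ℕ → ℕ) (l : List Bool) : ∀ m,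
    pc M α l m = ((4 * M + 1) ^ M) ^ l.count true *
      2 ^ (∑ i ∈ range l.length, if l.getD i false = true then ex (M - 1) α (m + i) else 0) := by
  induction l with
  | nil => intro m; simp [pc]
  | cons b l ih =>
    intro m
    rw [List.length_cons, Finset.sum_range_succ']
    cases b
    · change pc M α l (m + 1) = _
      rw [ih (m + 1)]
      simp [add_assoc, add_comm 1]
    · change cost M α m * pc M α l (m + 1) = _
      rw [ih (m + 1), cost_eq hM]
      simp [add_assoc, add_comm 1, pow_add]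
      ring

theorem ps_eq (hM : 1 ≤ M) (α : ℕ → ℕ) (l : List Bool) : ∀ m,
    ps M α l m = ((4 * M + 1) ^ M) ^ l.count false *
      2 ^ (∑ i ∈ range l.length, if l.getD i false = true then 0 else ex (M - 1) α (m + i)) := by
  induction l with
  | nil => intro m; simp [ps]
  | cons b l ih =>
    intro m
    rw [List.length_cons, Finset.sum_range_succ']
    cases b
    · change cost M α m * ps M α l (m + 1) = _
      rw [ih (m + 1), cost_eq hM]
      simp [add_assoc, add_comm 1, pow_add]
      ring
    · change ps M α l (m + 1) = _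
      rw [ih (m + 1)]
      simp [add_assoc, add_comm 1]

/-- The steps where the component drops. -/
def DD (N : ℕ) (l : List Bool) : Finset ℕ := (range N).filter fun i => l.getD i false = true

/-- The steps where the component stays. -/
def SS (N : ℕ) (l : List Bool) : Finset ℕ := (range N).filter fun i => ¬ l.getD i false = true

theorem DD_disjoint (N : ℕ) (l : List Bool) : Disjoint (DD N l) (SS N l) :=
  disjoint_filter_filter_not _ _ _

theorem DD_union (N : ℕ) (l : List Bool) : DD N l ∪ SS N l = range N :=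
  filter_union_filter_not_eq _ _

theorem card_DD (l : List Bool) : (DD l.length l).card = l.count true := by
  induction l with
  | nil => rfl
  | cons b l ih =>
    unfold DD at *
    rw [card_filter] at *
    rw [List.length_cons, Finset.sum_range_succ']
    cases b
    · simpa using ih
    · simpa using ih

theorem card_SS (l : List Bool) : (SS l.length l).card = l.count false := by
  induction l with
  | nil => rfl
  | cons b l ih =>
    unfold SS at *
    rw [card_filter] at *
    rw [List.length_cons, Finset.sum_range_succ']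
    cases b
    · simpa using ih
    · simpa using ih

theorem pc_zero (hM : 1 ≤ M) (α : ℕ → ℕ) (l : List Bool) (hl : l.length = M - 1) :
    pc M α l 0 = ((4 * M + 1) ^ M) ^ (DD (M - 1) l).card *
      2 ^ (∑ i ∈ DD (M - 1) l, ex (M - 1) α i) := by
  rw [pc_eq hM, ← hl, card_DD, DD, Finset.sum_filter]
  simp

theorem ps_zero (hM : 1 ≤ M) (α : ℕ → ℕ) (l : List Bool) (hl : l.length = M - 1) :
    ps M α l 0 = ((4 * M + 1) ^ M) ^ (SS (M - 1) l).card *
      2 ^ (∑ i ∈ SS (M - 1) l, ex (M - 1) α i) := by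
  rw [ps_eq hM, ← hl, card_SS, SS, Finset.sum_filter]
  congr 2
  refine sum_congr rfl fun i _ => ?_
  rw [zero_add]
  by_cases h : l.getD i false = true
  · rw [if_pos h, if_neg (not_not.2 h)]
  · rw [if_neg h, if_pos h]

theorem trdeg_mx {x : Fin M → ℤ} (hx : x ≠ 0) : Algebra.trdeg ℚ (Pol M ⧸ mx x) = 1 := by
  obtain ⟨i, hi⟩ := Function.ne_iff.1 hx
  have hxi : (x i : ℚ) ≠ 0 := by
    have : x i ≠ 0 := hi
    exact_mod_cast this
  have hsurj : Function.Surjective (evx x) := by
    intro p
    refine ⟨Polynomial.aeval (C (x i : ℚ)⁻¹ * X i : Pol M) p, ?_⟩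
    rw [← Polynomial.aeval_algHom_apply]
    have : evx x (C (x i : ℚ)⁻¹ * X i) = Polynomial.X := by
      unfold evx
      rw [map_mul, aeval_C, aeval_X, ← Algebra.smul_def, smul_smul, inv_mul_cancel₀ hxi, one_smul]
    rw [this, Polynomial.aeval_X_left, AlgHom.id_apply]
  have e : (Pol M ⧸ mx x) ≃ₐ[ℚ] Polynomial ℚ := Ideal.quotientKerAlgEquivOfSurjective hsurj
  rw [e.trdeg_eq]
  exact Polynomial.trdeg_of_isDomain

theorem eq_mx {x : Fin M → ℤ} (hx : x ≠ 0) {P : Ideal (Pol M)} (hP : P ≤ mx x)
    (hv : ∀ v ∈ perpQ x, lin v ∈ P) : P = mx x := by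
  obtain ⟨i, hi⟩ := Function.ne_iff.1 hx
  have hxi : (x i : ℚ) ≠ 0 := by
    have : x i ≠ 0 := hi
    exact_mod_cast this
  refine le_antisymm hP fun f hf => ?_
  have h1 : Ideal.Quotient.mkₐ ℚ P =
      (Polynomial.aeval ((x i : ℚ)⁻¹ • Ideal.Quotient.mkₐ ℚ P (X i))).comp (evx x) := by
    apply MvPolynomial.algHom_ext
    intro j
    rw [AlgHom.comp_apply]
    unfold evx
    rw [aeval_X, map_smul, Polynomial.aeval_X, smul_smul, ← map_smul]
    rw [← sub_eq_zero, ← map_sub]
    change Ideal.Quotient.mk P _ = 0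
    rw [Ideal.Quotient.eq_zero_iff_mem]
    have h2 : (X j : Pol M) - ((x j : ℚ) * (x i : ℚ)⁻¹) • X i =
        lin (Pi.single j 1 - ((x j : ℚ) * (x i : ℚ)⁻¹) • Pi.single i 1) := by
      have h3 : ∀ k : Fin M, lin (Pi.single k 1) = (X k : Pol M) := by
        intro k
        unfold lin
        rw [Finset.sum_eq_single k]
        · simp
        · intro b _ hb
          rw [Pi.single_eq_of_ne hb, map_zero, zero_mul]
        · intro h; exact absurd (mem_univ k) h
      have h4 : (Pi.single j 1 - ((x j : ℚ) * (x i : ℚ)⁻¹) • Pi.single i 1 : Fin M → ℚ) =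
          Pi.single j 1 + (-((x j : ℚ) * (x i : ℚ)⁻¹)) • Pi.single i 1 := by
        rw [neg_smul, sub_eq_add_neg]
      rw [h4, lin_add, lin_smul, h3, h3, map_neg, neg_mul, ← sub_eq_add_neg,
        MvPolynomial.smul_eq_C_mul]
    rw [h2]
    apply hv
    rw [mem_perpQ]
    have h5 : ∀ k : Fin M, ∑ t, (Pi.single k 1 : Fin M → ℚ) t * x t = x k := by
      intro k
      rw [Finset.sum_eq_single k]
      · simp
      · intro b _ hb
        rw [Pi.single_eq_of_ne hb, zero_mul]
      · intro h; exact absurd (mem_univ k) h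
    simp only [Pi.sub_apply, Pi.smul_apply, smul_eq_mul, sub_mul, sum_sub_distrib, mul_assoc]
    rw [← Finset.mul_sum, ← Finset.mul_sum, h5, h5]
    field_simp
    ring
  have h6 : Ideal.Quotient.mkₐ ℚ P f = 0 := by
    rw [h1, AlgHom.comp_apply, mem_mx.1 hf, map_zero]
  exact Ideal.Quotient.eq_zero_iff_mem.1 h6

theorem exists_follows {x : Fin M → ℤ} (hx : x ≠ 0) (r : ℕ) : ∀ m, m + r + 1 = M →
    ∀ P : Ideal (Pol M), P.IsPrime → P.IsHomogeneous (homogeneousSubmodule (Fin M) ℚ) →
      (∀ v ∈ fl x m, lin v ∈ P) → P ≤ mx x →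
      ∃ l : List Bool, l.length = r ∧ Follows x l m P ∧
        Algebra.trdeg ℚ (Pol M ⧸ P) = ((l.count true + 1 : ℕ) : Cardinal) := by
  induction r with
  | zero =>
    intro m hm P hPp hPh hv hPx
    refine ⟨[], rfl, trivial, ?_⟩
    rw [fl_top hx m (by simpa using hm)] at hv
    rw [eq_mx hx hPx hv, trdeg_mx hx]
    simp
  | succ r ih =>
    intro m hm P hPp hPh hv hPx
    by_cases h : lin (cq (av x m)) ∈ P
    · obtain ⟨l, hl, hf, ht⟩ := ih (m + 1) (by omega) P hPp hPh (by
        rw [fl_succ]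
        exact lin_mem_sup hv (lin_mem_span h)) hPx
      refine ⟨false :: l, by rw [List.length_cons, hl], ⟨h, hf⟩, ?_⟩
      rw [ht]
      simp
    · have hav := av_mem hx m (by omega)
      have hJx : P ⊔ Ideal.span {lin (cq (av x m))} ≤ mx x := by
        rw [sup_le_iff]
        refine ⟨hPx, ?_⟩
        rw [Ideal.span_le, Set.singleton_subset_iff]
        exact lin_mem_mx.2 (cq_mem_perpQ.2 hav.1)
      obtain ⟨Q, hQ, hQx⟩ := Ideal.exists_minimalPrimes_le hJx
      obtain ⟨l, hl, hf, ht⟩ := ih (m + 1) (by omega) Q hQ.1.1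
        (minimalPrime_homog (sup_lin_homog hPh _) hQ) (by
          rw [fl_succ]
          exact fun v hv' => hQ.1.2 (lin_mem_sup (fun w hw => Ideal.mem_sup_left (hv w hw))
            (lin_mem_span (Ideal.mem_sup_right (Ideal.mem_span_singleton_self _))) v hv')) hQx
      refine ⟨true :: l, by rw [List.length_cons, hl], ⟨h, Q, hQ, hQx, hf⟩, ?_⟩
      rw [← pit hPh (lin_homog _) h hQ, ht]
      simp

end Q272.PSZ
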